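import Pool.Agent.K9h33.ORQ.Dv

/-!
The affine part: the square of a lattice is generated by a polynomial near the special fibre.
-/

set_option autoImplicit false

namespace Pool.Agent.K9h33.ORQ

open Polynomial

section det

variable {R : Type} [CommRing R] [Nontrivial R] {h : R[X]}

/-- the determinant -/
noncomputable def dt (z w : CR h) : R[X] := c1 h z * c0 h w - c0 h z * c1 h w

lemma dt_eq (z w : CR h) : dt z w = c1 h (z * cj h w) := by
  unfold dt
  rw [(co_mul _ _).2, (co_cj _ _).1, (co_cj _ _).2]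
  ring

lemma cramer (z m n : CR h) : io h (dt m n) * z = io h (dt z n) * m + io h (dt m z) * n := by
  apply ext'
  · rw [(co_io_mul _ _).1, (co_add _ _).1, (co_io_mul _ _).1, (co_io_mul _ _).1]
    unfold dt
    ring
  · rw [(co_io_mul _ _).2, (co_add _ _).2, (co_io_mul _ _).2, (co_io_mul _ _).2]
    unfold dt
    ring

lemma dt_lin (A B C : R[X]) (m n z w : CR h) :
    dt (io h A * m + io h B * n + io h C * z) w = A * dt m w + B * dt n w + C * dt z w := by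
  unfold dt
  rw [(co_add _ _).1, (co_add _ _).2, (co_add _ _).1, (co_add _ _).2]
  simp only [(co_io_mul _ _).1, (co_io_mul _ _).2]
  ring

lemma dt_lin2 (A B A' B' : R[X]) (m n : CR h) :
    dt (io h A * m + io h B * n) (io h A' * m + io h B' * n) = (A * B' - B * A') * dt m n := by
  unfold dt
  rw [(co_add _ _).1, (co_add _ _).2, (co_add _ _).1, (co_add _ _).2]
  simp only [(co_io_mul _ _).1, (co_io_mul _ _).2]
  ring

lemma dt_swap (z w : CR h) : dt w z = - dt z w := by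
  unfold dt
  ring

lemma dt_self (z : CR h) : dt z z = 0 := by
  unfold dt
  ring

lemma nm_cj (z : CR h) : nm h (cj h z) = nm h z := by
  unfold nm
  rw [(co_cj _ _).1, (co_cj _ _).2]
  ring

end det

variable {O k : Type} [CommRing O] [IsDomain O] [Field k] {π : O} {φ : O →+* k}

lemma DV.prime (D : DV π φ) : Prime π := by
  refine ⟨D.ne, ?_, ?_⟩
  · intro h
    have h1 : φ π = 0 := (D.ker π).2 dvd_rfl
    have h2 := h.map φ
    rw [h1] at h2
    exact not_isUnit_zero h2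
  · intro a b h
    rw [← D.ker, map_mul] at h
    rcases mul_eq_zero.1 h with h1 | h1
    · exact Or.inl ((D.ker a).1 h1)
    · exact Or.inr ((D.ker b).1 h1)

lemma DV.prime' (D : DV π φ) : Prime (C π : O[X]) := Polynomial.prime_C_iff.2 D.prime

lemma io_cancel {f : O[X]} {u : O[X]} (hu : u ≠ 0) {z w : CR f} (h : io f u * z = io f u * w) :
    z = w := by
  apply ext'
  · have := congrArg (c0 f) h
    rw [(co_io_mul u z).1, (co_io_mul u w).1] at this
    exact mul_left_cancel₀ hu this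
  · have := congrArg (c1 f) h
    rw [(co_io_mul u z).2, (co_io_mul u w).2] at this
    exact mul_left_cancel₀ hu this

/-- a lattice in the coordinate ring with norm `u` -/
structure Lat {f : O[X]} (π : O) (φ : O →+* k) (M : Ideal (CR f)) (u : O[X]) : Prop where
  prim : u.map φ ≠ 0
  sat : ∀ z, io f (C π) * z ∈ M → z ∈ M
  mem : io f u ∈ M
  nrm : ∀ z ∈ M, ∀ w ∈ M, io f u ∣ z * cj f w
  det : ∃ z ∈ M, ∃ w ∈ M, ∃ n : ℕ, dt z w = C π ^ n * u
  prod : ∃ n : ℕ, io f (C π) ^ n * io f u ∈ M * M.map (cj f)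

variable {f : O[X]} {fb : k[X]} (e : f.map φ = fb) {M : Ideal (CR f)} {u : O[X]}

/-- a basis modulo `π` -/
lemma exists_basis (D : DV π φ) (L : Lat π φ M u) : ∃ m₁ ∈ M, ∃ m₂ ∈ M,
    mp φ e m₁ ≠ 0 ∧ (dt m₁ m₂).map φ ≠ 0 ∧
    ∀ z ∈ M, ∃ (A B : O[X]) (z' : CR f), z' ∈ M ∧
      z = io f A * m₁ + io f B * m₂ + io f (C π) * z' := by
  obtain ⟨Mb, hMb⟩ : ∃ Mb, Mb = M.map (mp φ e) := ⟨_, rfl⟩
  have hmem : ∀ w, w ∈ Mb ↔ ∃ z ∈ M, mp φ e z = w := by
    intro w
    rw [hMb, Ideal.mem_map_iff_of_surjective _ (mp_surj e D)]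
  have hub : io fb (u.map φ) ∈ Mb := by
    rw [hmem]
    exact ⟨_, L.mem, mp_io _ _ _⟩
  obtain ⟨h₀, hh₀⟩ : ∃ h₀, Mb.comap (io fb) = Ideal.span {h₀} :=
    (IsPrincipalIdealRing.principal (Mb.comap (io fb))).principal
  let I1 : Ideal k[X] :=
    { carrier := {P | ∃ z ∈ Mb, c1 fb z = P}
      add_mem' := by
        rintro _ _ ⟨z, hz, rfl⟩ ⟨w, hw, rfl⟩
        exact ⟨z + w, Ideal.add_mem _ hz hw, (co_add _ _).2⟩
      zero_mem' := by
        refine ⟨0, Ideal.zero_mem _, ?_⟩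
        have := (co_io (h := fb) (0 : k[X])).2
        rwa [map_zero] at this
      smul_mem' := by
        rintro A _ ⟨z, hz, rfl⟩
        exact ⟨io fb A * z, Ideal.mul_mem_left _ _ hz, (co_io_mul _ _).2⟩ }
  obtain ⟨h₁, hh₁⟩ : ∃ h₁, I1 = Ideal.span {h₁} :=
    (IsPrincipalIdealRing.principal I1).principal
  have hI1 : ∀ P, P ∈ I1 ↔ ∃ z ∈ Mb, c1 fb z = P := fun P => Iff.rfl
  obtain ⟨w₂, hw₂, hw₂'⟩ := (hI1 h₁).1 (by rw [hh₁]; exact Ideal.mem_span_singleton_self _)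
  have hw₁ : io fb h₀ ∈ Mb := by
    have : h₀ ∈ Mb.comap (io fb) := by
      rw [hh₀]
      exact Ideal.mem_span_singleton_self _
    exact this
  obtain ⟨m₁, hm₁, hm₁'⟩ := (hmem _).1 hw₁
  obtain ⟨m₂, hm₂, hm₂'⟩ := (hmem _).1 hw₂
  have hh0 : h₀ ≠ 0 := by
    rintro rfl
    have h1 : u.map φ ∈ Mb.comap (io fb) := hub
    rw [hh₀, Ideal.mem_span_singleton, zero_dvd_iff] at h1
    exact L.prim h1
  have hh1 : h₁ ≠ 0 := by
    rintro rfl
    have h1 : u.map φ ∈ I1 := by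
      rw [hI1]
      refine ⟨io fb (u.map φ) * yy fb, Ideal.mul_mem_right _ _ hub, ?_⟩
      have := (co (h := fb) (z := io fb (u.map φ) * yy fb) (A := 0) (B := u.map φ)
        (by rw [map_zero]; ring)).2
      exact this
    rw [hh₁, Ideal.mem_span_singleton, zero_dvd_iff] at h1
    exact L.prim h1
  refine ⟨m₁, hm₁, m₂, hm₂, ?_, ?_, ?_⟩
  · rw [hm₁']
    intro h0
    have h1 := (co_io (h := fb) h₀).1
    rw [h0] at h1
    have h2 := (co_io (h := fb) (0 : k[X])).1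
    rw [map_zero] at h2
    rw [h2] at h1
    exact hh0 h1.symm
  · unfold dt
    rw [Polynomial.map_sub, Polynomial.map_mul, Polynomial.map_mul, ← (co_mp φ e m₁).1,
      ← (co_mp φ e m₁).2, ← (co_mp φ e m₂).1, ← (co_mp φ e m₂).2, hm₁', hm₂', (co_io _).1,
      (co_io _).2, hw₂', zero_mul, zero_sub, neg_ne_zero]
    exact mul_ne_zero hh0 hh1
  · intro z hz
    have hzb : mp φ e z ∈ Mb := (hmem _).2 ⟨z, hz, rfl⟩
    have h1 : c1 fb (mp φ e z) ∈ I1 := (hI1 _).2 ⟨_, hzb, rfl⟩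
    rw [hh₁, Ideal.mem_span_singleton] at h1
    obtain ⟨Bb, hBb⟩ := h1
    have h2 : mp φ e z - io fb Bb * w₂ ∈ Mb := Ideal.sub_mem _ hzb (Ideal.mul_mem_left _ _ hw₂)
    have h3 : mp φ e z - io fb Bb * w₂ = io fb (c0 fb (mp φ e z) - Bb * c0 fb w₂) := by
      have e1 := rep fb (mp φ e z)
      have e2 := rep fb w₂
      conv_lhs => rw [e1, e2]
      rw [hBb, hw₂', map_sub, map_mul, map_mul]
      ring
    rw [h3] at h2
    have h4 : c0 fb (mp φ e z) - Bb * c0 fb w₂ ∈ Mb.comap (io fb) := h2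
    rw [hh₀, Ideal.mem_span_singleton] at h4
    obtain ⟨Ab, hAb⟩ := h4
    obtain ⟨A, hA⟩ := lift_poly D Ab
    obtain ⟨B, hB⟩ := lift_poly D Bb
    have h5 : mp φ e (z - io f A * m₁ - io f B * m₂) = 0 := by
      rw [map_sub, map_sub, map_mul, map_mul, mp_io, mp_io, hA, hB, hm₁', hm₂']
      have h6 : mp φ e z = io fb Bb * w₂ + io fb (h₀ * Ab) := by
        rw [← hAb, ← h3]
        ring
      rw [h6, map_mul]
      ring
    obtain ⟨z', hz'⟩ := (mp_zero_iff e D _).1 h5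
    refine ⟨A, B, z', L.sat z' ?_, ?_⟩
    · rw [← hz']
      exact Ideal.sub_mem _ (Ideal.sub_mem _ hz (Ideal.mul_mem_left _ _ hm₁))
        (Ideal.mul_mem_left _ _ hm₂)
    · rw [← hz']
      ring

lemma iterate_basis {m₁ m₂ : CR f} (hb : ∀ z ∈ M, ∃ (A B : O[X]) (z' : CR f), z' ∈ M ∧
      z = io f A * m₁ + io f B * m₂ + io f (C π) * z') (n : ℕ) :
    ∀ z ∈ M, ∃ (A B : O[X]) (z' : CR f), z' ∈ M ∧
      z = io f A * m₁ + io f B * m₂ + io f (C π ^ n) * z' := by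
  induction n with
  | zero =>
    intro z hz
    refine ⟨0, 0, z, hz, ?_⟩
    rw [pow_zero, map_one, map_zero]
    ring
  | succ n ih =>
    intro z hz
    obtain ⟨A, B, z', hz', h1⟩ := ih z hz
    obtain ⟨A', B', z'', hz'', h2⟩ := hb z' hz'
    refine ⟨A + C π ^ n * A', B + C π ^ n * B', z'', hz'', ?_⟩
    rw [h1, h2, pow_succ (C π) n]
    simp only [map_add, map_mul]
    ring

/-- Krull's intersection theorem -/
lemma krull {R : Type} [CommRing R] [IsNoetherianRing R] (p a x : R)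
    (h : ∀ n : ℕ, ∃ b c, x = a * b + p ^ n * c) : ∃ t b, (1 - p * t) * x = a * b := by
  have h1 : (Ideal.Quotient.mk (Ideal.span {a}) x) ∈
      (⨅ i : ℕ, Ideal.span {p} ^ i • ⊤ : Submodule R (R ⧸ Ideal.span {a})) := by
    rw [Submodule.mem_iInf]
    intro n
    obtain ⟨b, c, hbc⟩ := h n
    have h2 : Ideal.Quotient.mk (Ideal.span {a}) x =
        p ^ n • Ideal.Quotient.mk (Ideal.span {a}) c := by
      rw [hbc, map_add, map_mul, Ideal.Quotient.eq_zero_iff_mem.2 (Ideal.mem_span_singleton_self a),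
        zero_mul, zero_add, map_mul]
      rfl
    rw [h2]
    exact Submodule.smul_mem_smul (Ideal.pow_mem_pow (Ideal.mem_span_singleton_self p) n) trivial
  rw [Ideal.mem_iInf_smul_pow_eq_bot_iff] at h1
  obtain ⟨⟨r, hr⟩, h3⟩ := h1
  rw [Ideal.mem_span_singleton] at hr
  obtain ⟨t, rfl⟩ := hr
  have h4 : Ideal.Quotient.mk (Ideal.span {a}) ((1 - p * t) * x) = 0 := by
    have h5 : (p * t) • Ideal.Quotient.mk (Ideal.span {a}) x =
        Ideal.Quotient.mk (Ideal.span {a}) (p * t * x) := rfl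
    rw [sub_mul, one_mul, map_sub, ← h5]
    exact sub_eq_zero.2 h3.symm
  rw [Ideal.Quotient.eq_zero_iff_mem, Ideal.mem_span_singleton] at h4
  obtain ⟨b, hb⟩ := h4
  exact ⟨t, b, hb⟩

lemma pow_dvd_poly (D : DV π φ) {P Q T : O[X]} (hP : P.map φ ≠ 0) (n : ℕ)
    (h : P * Q = C π ^ n * T) : C π ^ n ∣ Q := by
  have h1 : ¬ C π ∣ P := fun hd => hP ((map_zero_iff D P).2 hd)
  exact D.prime'.pow_dvd_of_dvd_mul_left n h1 ⟨T, h⟩

/-- the basis modulo `π` has the expected determinant -/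
lemma unit_det [IsNoetherianRing O] (D : DV π φ) (L : Lat π φ M u) {m₁ m₂ : CR f} (hm₁ : m₁ ∈ M)
    (hm₂ : m₂ ∈ M) (hd : (dt m₁ m₂).map φ ≠ 0) (hb : ∀ z ∈ M, ∃ (A B : O[X]) (z' : CR f), z' ∈ M ∧
      z = io f A * m₁ + io f B * m₂ + io f (C π) * z') :
    ∃ ε : O[X], dt m₁ m₂ = u * ε ∧ IsUnit (ε.map φ) := by
  have hu0 : u ≠ 0 := by
    rintro rfl
    exact L.prim (Polynomial.map_zero φ)
  have hdt : ∀ z ∈ M, ∀ w ∈ M, ∃ t, dt z w = u * t := by
    intro z hz w hw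
    obtain ⟨t, ht⟩ := L.nrm z hz w hw
    refine ⟨c1 f t, ?_⟩
    rw [dt_eq, ht, (co_io_mul _ _).2]
  obtain ⟨ε, hε⟩ := hdt m₁ hm₁ m₂ hm₂
  have hε0 : ε.map φ ≠ 0 := by
    intro h0
    rw [hε, Polynomial.map_mul, h0, mul_zero] at hd
    exact hd rfl
  have hε1 : ε ≠ 0 := by
    rintro rfl
    exact hε0 (Polynomial.map_zero φ)
  refine ⟨ε, hε, ?_⟩
  have key : ∀ z ∈ M, ∃ t A B : O[X], io f (1 - C π * t) * z = io f A * m₁ + io f B * m₂ := by
    intro z hz
    obtain ⟨a, ha⟩ := hdt z hz m₂ hm₂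
    obtain ⟨b, hb'⟩ := hdt m₁ hm₁ z hz
    have h1 : io f ε * z = io f a * m₁ + io f b * m₂ := by
      have h2 := cramer z m₁ m₂
      rw [hε, ha, hb'] at h2
      have h3 : io f u * (io f ε * z) = io f u * (io f a * m₁ + io f b * m₂) := by
        simp only [map_mul] at h2
        linear_combination h2
      exact io_cancel hu0 h3
    have ha2 : ∀ n : ℕ, ∃ b' c', a = ε * b' + C π ^ n * c' := by
      intro n
      obtain ⟨A, B, z', hz', h2⟩ := iterate_basis hb n z hz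
      obtain ⟨c', hc'⟩ := hdt z' hz' m₂ hm₂
      refine ⟨A, c', ?_⟩
      apply mul_left_cancel₀ hu0
      rw [← ha, h2, dt_lin, hε, hc', dt_self]
      ring
    have hb2 : ∀ n : ℕ, ∃ b' c', b = ε * b' + C π ^ n * c' := by
      intro n
      obtain ⟨A, B, z', hz', h2⟩ := iterate_basis hb n z hz
      obtain ⟨c', hc'⟩ := hdt z' hz' m₁ hm₁
      refine ⟨B, -c', ?_⟩
      apply mul_left_cancel₀ hu0
      rw [← hb', dt_swap, h2, dt_lin, dt_self, dt_swap, hε, hc']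
      ring
    obtain ⟨t₁, a', ha'⟩ := krull _ _ _ ha2
    obtain ⟨t₂, b'', hb''⟩ := krull _ _ _ hb2
    refine ⟨t₁ + t₂ - C π * t₁ * t₂, (1 - C π * t₂) * a', (1 - C π * t₁) * b'', ?_⟩
    have h4 : io f ε * (io f (1 - C π * (t₁ + t₂ - C π * t₁ * t₂)) * z) =
        io f ε * (io f ((1 - C π * t₂) * a') * m₁ + io f ((1 - C π * t₁) * b'') * m₂) := by
      have h5 : (1 - C π * (t₁ + t₂ - C π * t₁ * t₂)) = (1 - C π * t₁) * (1 - C π * t₂) := by ring
      have h6 : io f ε * (io f ((1 - C π * t₂) * a') * m₁ + io f ((1 - C π * t₁) * b'') * m₂) =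
          io f (1 - C π * t₂) * io f (ε * a') * m₁ + io f (1 - C π * t₁) * io f (ε * b'') * m₂ := by
        simp only [map_mul]
        ring
      rw [h5, h6, ← ha', ← hb'']
      simp only [map_mul]
      linear_combination (io f (1 - C π * t₁)) * (io f (1 - C π * t₂)) * h1
    exact io_cancel hε1 h4
  obtain ⟨z₁, hz₁, z₂, hz₂, n, hn⟩ := L.det
  obtain ⟨t₁, A₁, B₁, h1⟩ := key z₁ hz₁
  obtain ⟨t₂, A₂, B₂, h2⟩ := key z₂ hz₂
  have h3 : (1 - C π * t₁) * (1 - C π * t₂) * (C π ^ n * u) = (A₁ * B₂ - B₁ * A₂) * (u * ε) := by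
    rw [← hn, ← hε, ← dt_lin2, ← h1, ← h2]
    unfold dt
    simp only [(co_io_mul _ _).1, (co_io_mul _ _).2]
    ring
  have h4 : ε * (A₁ * B₂ - B₁ * A₂) = C π ^ n * ((1 - C π * t₁) * (1 - C π * t₂)) := by
    apply mul_left_cancel₀ hu0
    linear_combination -h3
  obtain ⟨T, hT⟩ := pow_dvd_poly D hε0 n h4
  have h5 : ε * T = (1 - C π * t₁) * (1 - C π * t₂) := by
    apply mul_left_cancel₀ (pow_ne_zero n (C_ne_zero.2 D.ne) : (C π : O[X]) ^ n ≠ 0)
    rw [← h4, hT]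
    ring
  have h6 := congrArg (Polynomial.map φ) h5
  have hπ : φ π = 0 := (D.ker π).2 dvd_rfl
  rw [Polynomial.map_mul, Polynomial.map_mul, Polynomial.map_sub, Polynomial.map_sub,
    Polynomial.map_mul, Polynomial.map_mul, map_C, hπ, C_0, zero_mul, zero_mul, Polynomial.map_one,
    sub_zero, mul_one] at h6
  exact IsUnit.of_mul_eq_one _ h6

/-- `f` is regular -/
def Rgl (f : O[X]) (π : O) (φ : O →+* k) : Prop :=
  ∃ (s r q h : O[X]) (c : O), φ c ≠ 0 ∧
    f = s ^ 2 + X * r ^ 2 + C π * C c * (1 - r * q) + C π ^ 2 * h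

lemma sq_two {A : Type} [CommRing A] (h2 : (2 : A) = 0) (x y : A) : (x - y) ^ 2 = x ^ 2 - y ^ 2 := by
  linear_combination (-x * y + y ^ 2) * h2

/-- the norms of the basis are coprime modulo `π` -/
lemma coprime_norms (D : DV π φ) (h2 : (2 : k) = 0) (R : Rgl f π φ) {ε v a₁ a₂ : O[X]}
    (hε : IsUnit (ε.map φ)) (ha₁ : a₁.map φ ≠ 0) (h : a₁ * a₂ = v ^ 2 - f * ε ^ 2) :
    IsCoprime (a₁.map φ) (a₂.map φ) := by
  have hπ : φ π = 0 := (D.ker π).2 dvd_rfl
  have h2' : (2 : k[X]) = 0 := by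
    have := congrArg (C : k → k[X]) h2
    rwa [C_0, map_ofNat] at this
  obtain ⟨s, r, q, hh, c, hc, hf⟩ := R
  apply isCoprime_of_irreducible_dvd
  · rintro ⟨h0, -⟩
    exact ha₁ h0
  · rintro Pb hP ⟨b₁, hb₁⟩ ⟨d₁, hd₁⟩
    -- modulo `π`
    have hfb : f.map φ = s.map φ ^ 2 + X * r.map φ ^ 2 := by
      rw [hf]
      simp only [Polynomial.map_add, Polynomial.map_mul, Polynomial.map_pow, map_X, map_C, hπ, C_0,
        zero_mul, add_zero, ne_eq, OfNat.ofNat_ne_zero, not_false_eq_true, zero_pow]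
    have hm := congrArg (Polynomial.map φ) h
    rw [Polynomial.map_mul, Polynomial.map_sub, Polynomial.map_mul, Polynomial.map_pow,
      Polynomial.map_pow, hfb, hb₁, hd₁] at hm
    have e1 : (v.map φ - ε.map φ * s.map φ) ^ 2 - X * (ε.map φ * r.map φ) ^ 2 =
        Pb ^ 2 * (b₁ * d₁) := by
      rw [sq_two h2']
      linear_combination -hm
    have e2 := congrArg derivative e1
    simp only [derivative_sub, derivative_mul, derivative_pow, derivative_X, Nat.cast_ofNat,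
      map_ofNat, h2', zero_mul, one_mul, mul_zero, add_zero, zero_sub, zero_add] at e2
    have e3 : Pb ^ 2 ∣ (ε.map φ * r.map φ) ^ 2 := by
      refine ⟨-(derivative b₁ * d₁ + b₁ * derivative d₁), ?_⟩
      linear_combination -e2
    have e4 : Pb ∣ r.map φ := by
      have h1 : Pb ∣ (ε.map φ * r.map φ) := hP.prime.dvd_of_dvd_pow (dvd_trans (dvd_pow_self _ two_ne_zero) e3)
      rcases hP.prime.dvd_or_dvd h1 with h3 | h3
      · exact absurd (isUnit_of_dvd_unit h3 hε) hP.not_isUnit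
      · exact h3
    have e5 : Pb ∣ v.map φ - ε.map φ * s.map φ := by
      apply hP.prime.dvd_of_dvd_pow (n := 2)
      have h1 : (v.map φ - ε.map φ * s.map φ) ^ 2 = Pb ^ 2 * (b₁ * d₁) +
          X * (ε.map φ * r.map φ) ^ 2 := by linear_combination e1
      rw [h1]
      exact dvd_add (dvd_trans (dvd_pow_self _ two_ne_zero) (dvd_mul_right _ _))
        (dvd_mul_of_dvd_right (dvd_trans (dvd_pow_self _ two_ne_zero) e3) _)
    -- lifting
    obtain ⟨P, hPP⟩ := lift_poly D Pb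
    have hl : ∀ (A : O[X]), Pb ∣ A.map φ → ∃ A₁ A₂ : O[X], A = P * A₁ + C π * A₂ := by
      rintro A ⟨Ab, hAb⟩
      obtain ⟨A₁, hA₁⟩ := lift_poly D Ab
      obtain ⟨A₂, hA₂⟩ := (map_zero_iff D (A - P * A₁)).1 (by
        rw [Polynomial.map_sub, Polynomial.map_mul, hPP, hA₁, hAb, sub_self])
      exact ⟨A₁, A₂, by rw [← hA₂]; ring⟩
    obtain ⟨r₁, r₂, hr⟩ := hl r e4
    obtain ⟨z₁, z₂, hz⟩ := hl (v - ε * s) (by
      rw [Polynomial.map_sub, Polynomial.map_mul]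
      exact e5)
    obtain ⟨x₁, x₂, hx⟩ := hl a₁ ⟨b₁, hb₁⟩
    obtain ⟨y₁, y₂, hy⟩ := hl a₂ ⟨d₁, hd₁⟩
    obtain ⟨t, ht⟩ := (map_zero_iff D (2 : O[X])).1 (by
      rw [Polynomial.map_ofNat]
      exact h2')
    have hv : v = ε * s + (P * z₁ + C π * z₂) := by linear_combination hz
    obtain ⟨A, B, T₀, key⟩ : ∃ A B T₀ : O[X], C π * (ε ^ 2 * C c) = C π ^ 2 * A +
        C π * P * B + P ^ 2 * T₀ := by
      refine ⟨t * ε * s * z₂ + z₂ ^ 2 - x₂ * y₂ - ε ^ 2 * X * r₂ ^ 2 + ε ^ 2 * C c * q * r₂ -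
        ε ^ 2 * hh, t * ε * s * z₁ + 2 * z₁ * z₂ - x₁ * y₂ - x₂ * y₁ - 2 * ε ^ 2 * X * r₁ * r₂ +
          ε ^ 2 * C c * q * r₁, z₁ ^ 2 - x₁ * y₁ - ε ^ 2 * X * r₁ ^ 2, ?_⟩
      rw [hx, hy, hv, hf, hr] at h
      linear_combination h + (ε * s * (P * z₁ + C π * z₂)) * ht
    have k1 := congrArg (Polynomial.map φ) key
    simp only [Polynomial.map_add, Polynomial.map_mul, Polynomial.map_pow, map_C, hπ, C_0,
      zero_mul, add_zero, ne_eq, OfNat.ofNat_ne_zero, not_false_eq_true, zero_pow, hPP, zero_add]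
      at k1
    have k2 : T₀.map φ = 0 := by
      rcases mul_eq_zero.1 k1.symm with h3 | h3
      · exact absurd (pow_eq_zero_iff two_ne_zero |>.1 h3) hP.ne_zero
      · exact h3
    obtain ⟨T, hT⟩ := (map_zero_iff D _).1 k2
    rw [hT] at key
    have k3 : ε ^ 2 * C c = C π * A + P * B + P ^ 2 * T := by
      apply mul_left_cancel₀ (C_ne_zero.2 D.ne : (C π : O[X]) ≠ 0)
      linear_combination key
    have k4 := congrArg (Polynomial.map φ) k3
    simp only [Polynomial.map_add, Polynomial.map_mul, Polynomial.map_pow, map_C, hπ, C_0,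
      zero_mul, hPP, zero_add] at k4
    have k5 : Pb ∣ ε.map φ ^ 2 * C (φ c) := by
      rw [k4]
      exact dvd_add (dvd_mul_right _ _)
        (dvd_trans (dvd_pow_self _ two_ne_zero) (dvd_mul_right _ _))
    exact hP.not_isUnit (isUnit_of_dvd_unit k5 ((hε.pow 2).mul (isUnit_C.2 (isUnit_iff_ne_zero.2 hc))))

/-- **The affine part.** -/
theorem exists_rho [IsNoetherianRing O] (D : DV π φ) (h2 : (2 : k) = 0) (R : Rgl f π φ)
    (hodd : Odd fb.natDegree) (L : Lat π φ M u) : ∃ ρ ∈ M ^ 2, mp φ e ρ = io fb (u.map φ) := by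
  have hdom : IsDomain (CR fb) := isDomain_CR hodd
  have hu0 : u ≠ 0 := by
    rintro rfl
    exact L.prim (Polynomial.map_zero φ)
  obtain ⟨m₁, hm₁, m₂, hm₂, h1, h3, hb⟩ := exists_basis e D L
  obtain ⟨ε, hε, hεu⟩ := unit_det D L hm₁ hm₂ h3 hb
  obtain ⟨t₁, ht₁⟩ := L.nrm m₁ hm₁ m₁ hm₁
  obtain ⟨t₂, ht₂⟩ := L.nrm m₂ hm₂ m₂ hm₂
  obtain ⟨t, ht⟩ := L.nrm m₁ hm₁ m₂ hm₂
  have hn : ∀ (m t' : CR f), m * cj f m = io f u * t' → nm f m = u * c0 f t' := by
    intro m t' hm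
    have := congrArg (c0 f) hm
    rw [mul_cj, (co_io _).1, (co_io_mul _ _).1] at this
    exact this
  have hn₁ := hn m₁ t₁ ht₁
  have hn₂ := hn m₂ t₂ ht₂
  have hε' : c1 f t = ε := by
    apply mul_left_cancel₀ hu0
    rw [← hε, dt_eq, ht, (co_io_mul _ _).2]
  have hrel : c0 f t₁ * c0 f t₂ = c0 f t ^ 2 - f * ε ^ 2 := by
    apply mul_left_cancel₀ (pow_ne_zero 2 hu0)
    have h4 := nm_mul f m₁ (cj f m₂)
    rw [ht, nm_mul, nm_io, nm_cj, hn₁, hn₂] at h4
    rw [← hε']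
    unfold nm at h4
    linear_combination -h4
  have ha₁ : (c0 f t₁).map φ ≠ 0 := by
    intro h0
    have h4 := nm_mp φ e m₁
    rw [hn₁, Polynomial.map_mul, h0, mul_zero] at h4
    have h5 := mul_cj fb (mp φ e m₁)
    rw [h4, map_zero] at h5
    rcases mul_eq_zero.1 h5 with h6 | h6
    · exact h1 h6
    · apply h1
      rw [← cj_cj fb (mp φ e m₁), h6, map_zero]
  obtain ⟨α, β, hαβ⟩ := coprime_norms D h2 R hεu ha₁ hrel
  obtain ⟨a, ha⟩ := lift_poly D α
  obtain ⟨b, hb'⟩ := lift_poly D β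
  refine ⟨io f a * m₁ ^ 2 + io f b * m₂ ^ 2, ?_, ?_⟩
  · exact Ideal.add_mem _ (Ideal.mul_mem_left _ _ (Ideal.pow_mem_pow hm₁ 2))
      (Ideal.mul_mem_left _ _ (Ideal.pow_mem_pow hm₂ 2))
  · have h2' : (2 : CR fb) = 0 := by
      have h3 : (2 : k[X]) = 0 := by
        have := congrArg (C : k → k[X]) h2
        rwa [C_0, map_ofNat] at this
      have := congrArg (io fb) h3
      rwa [map_ofNat, map_zero] at this
    have hsq : ∀ m : CR f, (mp φ e m) ^ 2 = io fb ((nm f m).map φ) := by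
      intro m
      rw [← nm_mp φ e, ← mul_cj]
      have h4 : cj fb (mp φ e m) = mp φ e m := by
        conv_lhs => rw [rep fb (mp φ e m)]
        conv_rhs => rw [rep fb (mp φ e m)]
        rw [map_add, map_mul, cj_io, cj_io, cj_yy]
        linear_combination (-(io fb (c1 fb (mp φ e m)) * yy fb)) * h2'
      rw [h4, sq]
    rw [map_add, map_mul, map_mul, map_pow, map_pow, mp_io, mp_io, hsq, hsq, ha, hb', hn₁, hn₂,
      Polynomial.map_mul, Polynomial.map_mul, ← map_mul, ← map_mul, ← map_add]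
    congr 1
    linear_combination (u.map φ) * hαβ

end Pool.Agent.K9h33.ORQ
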