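import Mathlib

/-!
The coordinate rings `R[x, y] / (y ^ 2 - h(x))` over commutative rings `R`.
-/

set_option autoImplicit false

namespace Pool.Agent.K9h33.ORQ

open Polynomial

section ring

variable {R : Type} [CommRing R] (h : R[X])

/-- the coordinate ring -/
abbrev CR : Type := AdjoinRoot (X ^ 2 - C h : R[X][X])

/-- the polynomials in `x` -/
noncomputable abbrev io : R[X] →+* CR h := AdjoinRoot.of _

/-- the function `y` -/
noncomputable abbrev yy : CR h := AdjoinRoot.root _

lemma yy_sq : yy h ^ 2 = io h h := by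
  have := AdjoinRoot.eval₂_root (X ^ 2 - C h : R[X][X])
  rw [eval₂_sub, eval₂_X_pow, eval₂_C, sub_eq_zero] at this
  exact this

lemma mon2 : (X ^ 2 - C h : R[X][X]).Monic := monic_X_pow_sub_C _ two_ne_zero

/-- lifting -/
noncomputable def lft {S : Type} [CommRing S] (φ : R[X] →+* S) (s : S) (hs : s ^ 2 = φ h) :
    CR h →+* S :=
  AdjoinRoot.lift φ s (by rw [eval₂_sub, eval₂_X_pow, eval₂_C, hs, sub_self])

lemma lft_io {S : Type} [CommRing S] (φ : R[X] →+* S) (s : S) (hs : s ^ 2 = φ h) (A : R[X]) :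
    lft h φ s hs (io h A) = φ A := by
  unfold lft
  rw [AdjoinRoot.lift_of]

lemma lft_yy {S : Type} [CommRing S] (φ : R[X] →+* S) (s : S) (hs : s ^ 2 = φ h) :
    lft h φ s hs (yy h) = s := by
  unfold lft
  rw [AdjoinRoot.lift_root]

variable [Nontrivial R]

lemma nd2 : (X ^ 2 - C h : R[X][X]).natDegree = 2 := natDegree_X_pow_sub_C

lemma exists_rep (z : CR h) : ∃ AB : R[X] × R[X], z = io h AB.1 + io h AB.2 * yy h := by
  obtain ⟨P, rfl⟩ := AdjoinRoot.mk_surjective z
  have h1 : AdjoinRoot.mk (X ^ 2 - C h : R[X][X]) P =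
      AdjoinRoot.mk (X ^ 2 - C h : R[X][X]) (P %ₘ (X ^ 2 - C h)) := by
    rw [AdjoinRoot.mk_eq_mk]
    refine ⟨P /ₘ (X ^ 2 - C h), ?_⟩
    have := modByMonic_add_div P (X ^ 2 - C h)
    linear_combination -this
  have h2 : (P %ₘ (X ^ 2 - C h)).natDegree ≤ 1 := by
    have := natDegree_modByMonic_lt P (mon2 h) (by
      intro h0
      have := congrArg natDegree h0
      rw [nd2, natDegree_one] at this
      exact two_ne_zero this)
    rw [nd2] at this
    omega
  obtain ⟨c, d, hcd⟩ := exists_eq_X_add_C_of_natDegree_le_one h2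
  refine ⟨(d, c), ?_⟩
  rw [h1, hcd, map_add, map_mul, AdjoinRoot.mk_C, AdjoinRoot.mk_C, AdjoinRoot.mk_X, add_comm]

lemma rep_inj {A B A' B' : R[X]} (e : io h A + io h B * yy h = io h A' + io h B' * yy h) :
    A = A' ∧ B = B' := by
  have h1 : AdjoinRoot.mk (X ^ 2 - C h : R[X][X]) (C (B - B') * X + C (A - A')) = 0 := by
    rw [map_add, map_mul, AdjoinRoot.mk_C, AdjoinRoot.mk_C, AdjoinRoot.mk_X, map_sub, map_sub]
    linear_combination e
  rw [AdjoinRoot.mk_eq_zero] at h1
  have h2 : (C (B - B') * X + C (A - A') : R[X][X]) = 0 := by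
    by_contra h3
    obtain ⟨q, hq⟩ := h1
    have hq0 : q ≠ 0 := by
      rintro rfl
      rw [mul_zero] at hq
      exact h3 hq
    have h4 := (mon2 h).natDegree_mul' hq0
    rw [← hq, nd2] at h4
    have h5 : (C (B - B') * X + C (A - A') : R[X][X]).natDegree ≤ 1 := natDegree_linear_le
    omega
  have h3 := congrArg (fun P : R[X][X] => P.coeff 0) h2
  have h4 := congrArg (fun P : R[X][X] => P.coeff 1) h2
  simp only [coeff_add, coeff_C_mul, coeff_X_zero, mul_zero, zero_add, coeff_C_zero, coeff_zero]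
    at h3
  simp only [coeff_add, coeff_C_mul, coeff_X_one, mul_one, coeff_C_succ, add_zero, coeff_zero]
    at h4
  exact ⟨sub_eq_zero.1 h3, sub_eq_zero.1 h4⟩

/-- the coordinates -/
noncomputable def c0 (z : CR h) : R[X] := (exists_rep h z).choose.1

/-- the coordinates -/
noncomputable def c1 (z : CR h) : R[X] := (exists_rep h z).choose.2

lemma rep (z : CR h) : z = io h (c0 h z) + io h (c1 h z) * yy h := (exists_rep h z).choose_spec

variable {h}

lemma co {z : CR h} {A B : R[X]} (e : z = io h A + io h B * yy h) : c0 h z = A ∧ c1 h z = B := by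
  apply rep_inj h
  rw [← rep]
  exact e

lemma co_mul (z w : CR h) : c0 h (z * w) = c0 h z * c0 h w + h * c1 h z * c1 h w ∧
    c1 h (z * w) = c0 h z * c1 h w + c1 h z * c0 h w := by
  apply co
  conv_lhs => rw [rep h z, rep h w]
  simp only [map_add, map_mul]
  linear_combination (io h (c1 h z)) * (io h (c1 h w)) * yy_sq h

lemma co_add (z w : CR h) : c0 h (z + w) = c0 h z + c0 h w ∧ c1 h (z + w) = c1 h z + c1 h w := by
  apply co
  conv_lhs => rw [rep h z, rep h w]
  simp only [map_add]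
  ring

lemma co_io (A : R[X]) : c0 h (io h A) = A ∧ c1 h (io h A) = 0 := by
  apply co
  rw [map_zero]
  ring

lemma co_io_mul (A : R[X]) (z : CR h) : c0 h (io h A * z) = A * c0 h z ∧
    c1 h (io h A * z) = A * c1 h z := by
  apply co
  conv_lhs => rw [rep h z]
  simp only [map_mul]
  ring

lemma ext' {z w : CR h} (h0 : c0 h z = c0 h w) (h1 : c1 h z = c1 h w) : z = w := by
  rw [rep h z, rep h w, h0, h1]

variable (h)

/-- the conjugation -/
noncomputable def cj : CR h →+* CR h := lft h (io h) (-yy h) (by rw [neg_sq, yy_sq])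

lemma cj_io (A : R[X]) : cj h (io h A) = io h A := lft_io _ _ _ _ _

lemma cj_yy : cj h (yy h) = -yy h := lft_yy _ _ _ _

lemma co_cj (z : CR h) : c0 h (cj h z) = c0 h z ∧ c1 h (cj h z) = - c1 h z := by
  apply co
  conv_lhs => rw [rep h z]
  rw [map_add, map_mul, cj_io, cj_io, cj_yy, map_neg]
  ring

lemma cj_cj (z : CR h) : cj h (cj h z) = z := by
  apply ext'
  · rw [(co_cj h _).1, (co_cj h _).1]
  · rw [(co_cj h _).2, (co_cj h _).2, neg_neg]

/-- the norm -/
noncomputable def nm (z : CR h) : R[X] := c0 h z ^ 2 - h * c1 h z ^ 2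

lemma mul_cj (z : CR h) : z * cj h z = io h (nm h z) := by
  apply ext'
  · rw [(co_mul _ _).1, (co_cj h _).1, (co_cj h _).2, (co_io _).1, nm]
    ring
  · rw [(co_mul _ _).2, (co_cj h _).1, (co_cj h _).2, (co_io _).2]
    ring

lemma nm_mul (z w : CR h) : nm h (z * w) = nm h z * nm h w := by
  unfold nm
  rw [(co_mul _ _).1, (co_mul _ _).2]
  ring

lemma nm_io (A : R[X]) : nm h (io h A) = A ^ 2 := by
  unfold nm
  rw [(co_io _).1, (co_io _).2]
  ring

end ring

section map

variable {R S : Type} [CommRing R] [CommRing S] {h : R[X]} {h' : S[X]} (φ : R →+* S)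
  (e : h.map φ = h')

/-- the homomorphism of coordinate rings -/
noncomputable def mp : CR h →+* CR h' :=
  lft h ((io h').comp (mapRingHom φ)) (yy h') (by
    rw [yy_sq, RingHom.comp_apply, coe_mapRingHom, e])

lemma mp_io (A : R[X]) : mp φ e (io h A) = io h' (A.map φ) := by
  unfold mp
  rw [lft_io, RingHom.comp_apply, coe_mapRingHom]

lemma mp_yy : mp φ e (yy h) = yy h' := by
  unfold mp
  rw [lft_yy]

variable [Nontrivial R] [Nontrivial S]

lemma co_mp (z : CR h) : c0 h' (mp φ e z) = (c0 h z).map φ ∧ c1 h' (mp φ e z) = (c1 h z).map φ := by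
  apply co
  conv_lhs => rw [rep h z]
  rw [map_add, map_mul, mp_io, mp_io, mp_yy]

lemma mp_cj (z : CR h) : mp φ e (cj h z) = cj h' (mp φ e z) := by
  apply ext'
  · rw [(co_mp φ e _).1, (co_cj _ _).1, (co_cj _ _).1, (co_mp φ e _).1]
  · rw [(co_mp φ e _).2, (co_cj _ _).2, (co_cj _ _).2, (co_mp φ e _).2, Polynomial.map_neg]

lemma nm_mp (z : CR h) : nm h' (mp φ e z) = (nm h z).map φ := by
  unfold nm
  rw [(co_mp φ e _).1, (co_mp φ e _).2, Polynomial.map_sub, Polynomial.map_mul, Polynomial.map_pow,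
    Polynomial.map_pow, e]

lemma mp_inj (hφ : Function.Injective φ) : Function.Injective (mp φ e) := by
  intro z w hzw
  have h0 := congrArg (c0 h') hzw
  have h1 := congrArg (c1 h') hzw
  rw [(co_mp φ e _).1, (co_mp φ e _).1] at h0
  rw [(co_mp φ e _).2, (co_mp φ e _).2] at h1
  exact ext' (Polynomial.map_injective φ hφ h0) (Polynomial.map_injective φ hφ h1)

end map

/-- the coordinate ring is a domain -/
theorem isDomain_CR {R : Type} [CommRing R] [IsDomain R] [UniqueFactorizationMonoid R] {h : R[X]}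
    (hd : Odd h.natDegree) : IsDomain (CR h) := by
  have h1 : Irreducible (X ^ 2 - C h : R[X][X]) := by
    rw [(mon2 h).irreducible_iff_roots_eq_zero_of_degree_le_three (by rw [nd2]) (by rw [nd2]; omega)]
    rw [Multiset.eq_zero_iff_forall_notMem]
    intro r hr
    rw [mem_roots (mon2 h).ne_zero, IsRoot.def, eval_sub, eval_pow, eval_X, eval_C, sub_eq_zero] at hr
    have h2 := congrArg natDegree hr
    rw [natDegree_pow] at h2
    rw [← h2] at hd
    exact (Nat.not_odd_iff_even.2 (even_two_mul _)) hd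
  exact AdjoinRoot.isDomain_of_prime h1.prime

end Pool.Agent.K9h33.ORQ
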