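import Mathlib

/-!
The Picard group.
-/

set_option autoImplicit false

namespace Pool.Agent.K9h33.ORQ

open nonZeroDivisors

variable {R : Type} [CommRing R] [IsDomain R]

/-- every class is the class of an integral ideal -/
lemma rep_class (c : ClassGroup R) : ∃ (I : Ideal R)
    (U : (FractionalIdeal R⁰ (FractionRing R))ˣ), I ≠ ⊥ ∧
      (U : FractionalIdeal R⁰ (FractionRing R)) = I ∧ ClassGroup.mk (FractionRing R) U = c := by
  obtain ⟨A, rfl⟩ : ∃ A : (FractionalIdeal R⁰ (FractionRing R))ˣ,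
      ClassGroup.mk (FractionRing R) A = c :=
    ClassGroup.induction (FractionRing R) (fun A => ⟨A, rfl⟩) c
  obtain ⟨a, I, ha, hI⟩ := FractionalIdeal.exists_eq_spanSingleton_mul
    (A : FractionalIdeal R⁰ (FractionRing R))
  have ha' : algebraMap R (FractionRing R) a ≠ 0 := by
    rw [Ne, FaithfulSMul.algebraMap_eq_zero_iff]
    exact ha
  obtain ⟨x, hx⟩ : ∃ x : (FractionRing R)ˣ, (x : FractionRing R) = algebraMap R (FractionRing R) a :=
    ⟨Units.mk0 _ ha', rfl⟩
  have hU : ((toPrincipalIdeal R (FractionRing R) x * A :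
      (FractionalIdeal R⁰ (FractionRing R))ˣ) : FractionalIdeal R⁰ (FractionRing R)) = I := by
    rw [Units.val_mul, coe_toPrincipalIdeal, hI, hx, ← mul_assoc,
      FractionalIdeal.spanSingleton_mul_spanSingleton, mul_inv_cancel₀ ha',
      FractionalIdeal.spanSingleton_one, one_mul]
  refine ⟨I, toPrincipalIdeal R (FractionRing R) x * A, ?_, hU, ?_⟩
  · rintro rfl
    have h1 : A ≠ (0 : FractionalIdeal R⁰ (FractionRing R)) := A.ne_zero
    apply h1
    rw [hI]
    simp
  · rw [map_mul]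
    have h1 : ClassGroup.mk (FractionRing R) (toPrincipalIdeal R (FractionRing R) x) = 1 := by
      rw [ClassGroup.mk_eq_one_iff, coe_toPrincipalIdeal]
      exact ⟨⟨(x : FractionRing R), by simp⟩⟩
    rw [h1, one_mul]

/-- if the Picard group is trivial, the invertible ideals are principal -/
theorem princ_of_pic (hr : ∀ P : CommRing.Pic R, P = 1) (I I' : Ideal R) (u : R) (hu : u ≠ 0)
    (hI : I * I' = Ideal.span {u}) : ∃ x : R, I = Ideal.span {x} := by
  have hu' : algebraMap R (FractionRing R) u ≠ 0 := by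
    rw [Ne, FaithfulSMul.algebraMap_eq_zero_iff]
    exact hu
  have hmul : (I : FractionalIdeal R⁰ (FractionRing R)) *
      ((I' : FractionalIdeal R⁰ (FractionRing R)) *
        FractionalIdeal.spanSingleton R⁰ (algebraMap R (FractionRing R) u)⁻¹) = 1 := by
    rw [← mul_assoc, ← FractionalIdeal.coeIdeal_mul, hI, FractionalIdeal.coeIdeal_span_singleton,
      FractionalIdeal.spanSingleton_mul_spanSingleton, mul_inv_cancel₀ hu',
      FractionalIdeal.spanSingleton_one]
  obtain ⟨U, hU⟩ : ∃ U : (FractionalIdeal R⁰ (FractionRing R))ˣ,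
      (U : FractionalIdeal R⁰ (FractionRing R)) = I := ⟨Units.mkOfMulEqOne _ _ hmul, rfl⟩
  have h1 : ClassGroup.mk (FractionRing R) U = 1 := by
    apply (ClassGroup.equivPic R).injective
    exact (hr _).trans (hr _).symm
  obtain ⟨x, -, hx⟩ := (ClassGroup.mk_eq_one_of_coe_ideal hU).1 h1
  exact ⟨x, hx⟩

/-- if every ideal which is equivalent to `2 ^ n`-th powers is principal and every class is a
square, the Picard group is trivial -/
theorem triv (hs : Function.Surjective fun P : CommRing.Pic R => P ^ 2)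
    (hp : ∀ I : Ideal R, I ≠ ⊥ → (∀ n : ℕ, ∃ I' : Ideal R, I' ≠ ⊥ ∧ ∃ w₀ : R,
      I * I' ^ 2 ^ (n + 1) = Ideal.span {w₀}) → ∃ x, I = Ideal.span {x}) :
    ∀ P : CommRing.Pic R, P = 1 := by
  have hs' : ∀ (n : ℕ) (c : ClassGroup R), ∃ c', c' ^ 2 ^ n = c := by
    intro n
    induction n with
    | zero => exact fun c => ⟨c, by rw [pow_zero, pow_one]⟩
    | succ n ih =>
      intro c
      obtain ⟨P, hP⟩ := hs (ClassGroup.equivPic R c)
      obtain ⟨c', hc'⟩ := ih ((ClassGroup.equivPic R).symm P)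
      refine ⟨c', ?_⟩
      rw [pow_succ, pow_mul, hc']
      apply (ClassGroup.equivPic R).injective
      rw [map_pow, MulEquiv.apply_symm_apply]
      exact hP
  intro P
  obtain ⟨I, U, hI, hUI, hU⟩ := rep_class ((ClassGroup.equivPic R).symm P)
  have h1 : ∃ x, I = Ideal.span {x} := by
    apply hp I hI
    intro n
    obtain ⟨c', hc'⟩ := hs' (n + 1) ((ClassGroup.equivPic R).symm P)⁻¹
    obtain ⟨I', U', hI', hUI', hU'⟩ := rep_class c'
    refine ⟨I', hI', ?_⟩
    have h2 : ClassGroup.mk (FractionRing R) (U * U' ^ 2 ^ (n + 1)) = 1 := by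
      rw [map_mul, map_pow, hU, hU', hc', mul_inv_cancel]
    have h3 : ((U * U' ^ 2 ^ (n + 1) : (FractionalIdeal R⁰ (FractionRing R))ˣ) :
        FractionalIdeal R⁰ (FractionRing R)) = ((I * I' ^ 2 ^ (n + 1) : Ideal R) :
        FractionalIdeal R⁰ (FractionRing R)) := by
      rw [Units.val_mul, Units.val_pow_eq_pow_val, hUI, hUI', FractionalIdeal.coeIdeal_mul,
        FractionalIdeal.coeIdeal_pow]
    obtain ⟨x, -, hx⟩ := (ClassGroup.mk_eq_one_of_coe_ideal h3).1 h2
    exact ⟨x, hx⟩
  obtain ⟨x, hx⟩ := h1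
  have h4 : ClassGroup.mk (FractionRing R) U = 1 := by
    refine (ClassGroup.mk_eq_one_of_coe_ideal hUI).2 ⟨x, ?_, hx⟩
    rintro rfl
    apply hI
    rw [hx, Ideal.span_singleton_eq_bot]
  rw [h4] at hU
  have h5 := congrArg (ClassGroup.equivPic R) hU
  rw [map_one, MulEquiv.apply_symm_apply] at h5
  exact h5.symm

end Pool.Agent.K9h33.ORQ
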