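import Pool.Agent.K9h33.ORQ.Nf

/-!
Classes of ideals of the coordinate ring over a field: reduction.
-/

set_option autoImplicit false

namespace Pool.Agent.K9h33.ORQ

open Polynomial

/-- equivalence of ideals -/
def Eqv {R : Type} [CommRing R] (I I' : Ideal R) : Prop :=
  ∃ x x' : R, x ≠ 0 ∧ x' ≠ 0 ∧ Ideal.span {x} * I = Ideal.span {x'} * I'

section dom

variable {R : Type} [CommRing R] [IsDomain R] {I I' I'' : Ideal R}

lemma Eqv.symm' (h : Eqv I I') : Eqv I' I := by
  obtain ⟨x, x', hx, hx', h⟩ := h
  exact ⟨x', x, hx', hx, h.symm⟩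

lemma Eqv.trans' (h : Eqv I I') (h' : Eqv I' I'') : Eqv I I'' := by
  obtain ⟨x, x', hx, hx', h⟩ := h
  obtain ⟨y, y', hy, hy', h'⟩ := h'
  refine ⟨x * y, x' * y', mul_ne_zero hx hy, mul_ne_zero hx' hy', ?_⟩
  rw [← Ideal.span_singleton_mul_span_singleton, ← Ideal.span_singleton_mul_span_singleton,
    mul_right_comm, h, mul_right_comm, mul_assoc, mul_assoc, ← h', mul_left_comm]

lemma Eqv.princ (h : Eqv I I') {J : Ideal R} {w : R} (hw : I * J = Ideal.span {w}) :
    ∃ w', I' * J = Ideal.span {w'} := by
  obtain ⟨x, x', hx, hx', h⟩ := h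
  have h1 : Ideal.span {x'} * (I' * J) = Ideal.span {x * w} := by
    rw [← mul_assoc, ← h, mul_assoc, hw, Ideal.span_singleton_mul_span_singleton]
  have h2 : x * w ∈ Ideal.span {x'} * (I' * J) := by
    rw [h1]
    exact Ideal.mem_span_singleton_self _
  obtain ⟨w', hw', e⟩ := Ideal.mem_span_singleton_mul.1 h2
  refine ⟨w', ?_⟩
  apply (Ideal.span_singleton_mul_right_inj hx').1
  rw [h1, Ideal.span_singleton_mul_span_singleton, e]

end dom

variable {K : Type} [Field K] {h : K[X]}

lemma UV_shift (U V t : K[X]) : UV h U (V + U * t) = UV h U V := by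
  unfold UV
  apply le_antisymm
  · rw [Ideal.span_le]
    intro x hx
    simp only [Set.mem_insert_iff, Set.mem_singleton_iff] at hx
    rcases hx with rfl | rfl
    · exact Ideal.subset_span (by simp)
    · have e : yy h - io h (V + U * t) = (yy h - io h V) - io h t * io h U := by
        rw [map_add, map_mul]
        ring
      rw [SetLike.mem_coe, e]
      exact Ideal.sub_mem _ (Ideal.subset_span (by simp))
        (Ideal.mul_mem_left _ _ (Ideal.subset_span (by simp)))
  · rw [Ideal.span_le]
    intro x hx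
    simp only [Set.mem_insert_iff, Set.mem_singleton_iff] at hx
    rcases hx with rfl | rfl
    · exact Ideal.subset_span (by simp)
    · have e : yy h - io h V = (yy h - io h (V + U * t)) + io h t * io h U := by
        rw [map_add, map_mul]
        ring
      rw [SetLike.mem_coe, e]
      exact Ideal.add_mem _ (Ideal.subset_span (by simp))
        (Ideal.mul_mem_left _ _ (Ideal.subset_span (by simp)))

lemma UV_map_cj (U V : K[X]) : (UV h U V).map (cj h) = UV h U (-V) := by
  unfold UV
  rw [Ideal.map_span, Set.image_pair, cj_io, map_sub, cj_io, cj_yy]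
  apply le_antisymm
  · rw [Ideal.span_le]
    intro x hx
    simp only [Set.mem_insert_iff, Set.mem_singleton_iff] at hx
    rcases hx with rfl | rfl
    · exact Ideal.subset_span (by simp)
    · have e : -yy h - io h V = -(yy h - io h (-V)) := by
        rw [map_neg]
        ring
      rw [SetLike.mem_coe, e]
      exact (Ideal.neg_mem_iff _).2 (Ideal.subset_span (by simp))
  · rw [Ideal.span_le]
    intro x hx
    simp only [Set.mem_insert_iff, Set.mem_singleton_iff] at hx
    rcases hx with rfl | rfl
    · exact Ideal.subset_span (by simp)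
    · have e : yy h - io h (-V) = -(-yy h - io h V) := by
        rw [map_neg]
        ring
      rw [SetLike.mem_coe, e]
      exact (Ideal.neg_mem_iff _).2 (Ideal.subset_span (by simp))

lemma UV_top {U V : K[X]} (hU : U ≠ 0) (hd : U.natDegree = 0) : UV h U V = ⊤ := by
  rw [eq_C_of_natDegree_eq_zero hd]
  have h0 : U.coeff 0 ≠ 0 := by
    intro h0
    apply hU
    rw [eq_C_of_natDegree_eq_zero hd, h0, C_0]
  have h1 : IsUnit (io h (C (U.coeff 0))) := (isUnit_C.2 (isUnit_iff_ne_zero.2 h0)).map _
  exact Ideal.eq_top_of_isUnit_mem _ (Ideal.subset_span (by simp)) h1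

/-- the divisor of `y - V` -/
theorem UV_mul' (h2 : (2 : K) ≠ 0) (hsq : Squarefree h) {U V W : K[X]} (hW : h - V ^ 2 = U * W) :
    UV h U V * UV h W V = Ideal.span {yy h - io h V} := by
  have hyy : (yy h - io h V) * (yy h + io h V) = io h U * io h W := by
    rw [← map_mul, ← hW, map_sub, map_pow, ← yy_sq]
    ring
  unfold UV
  apply le_antisymm
  · rw [Ideal.span_mul_span', Ideal.span_le]
    rintro _ ⟨x, hx, y, hy, rfl⟩
    rw [SetLike.mem_coe, Ideal.mem_span_singleton]
    simp only [Set.mem_insert_iff, Set.mem_singleton_iff] at hx hy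
    rcases hx with rfl | rfl
    · rcases hy with rfl | rfl
      · exact ⟨_, hyy.symm⟩
      · exact dvd_mul_left _ _
    · exact dvd_mul_right _ _
  · rw [Ideal.span_singleton_le_iff_mem]
    obtain ⟨I, hI⟩ : ∃ I, I = Ideal.span {io h U, yy h - io h V} *
        Ideal.span {io h W, yy h - io h V} := ⟨_, rfl⟩
    rw [← hI]
    obtain ⟨z, hz⟩ : ∃ z, z = yy h - io h V := ⟨_, rfl⟩
    rw [← hz] at hI hyy ⊢
    have m1 : z * io h U ∈ I := by
      rw [hI, mul_comm]
      exact Ideal.mul_mem_mul (Ideal.subset_span (by simp)) (Ideal.subset_span (by simp))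
    have m2 : z * io h W ∈ I := by
      rw [hI]
      exact Ideal.mul_mem_mul (Ideal.subset_span (by simp)) (Ideal.subset_span (by simp))
    have m3 : z * z ∈ I := by
      rw [hI]
      exact Ideal.mul_mem_mul (Ideal.subset_span (by simp)) (Ideal.subset_span (by simp))
    have m4 : io h U * io h W ∈ I := by
      rw [hI]
      exact Ideal.mul_mem_mul (Ideal.subset_span (by simp)) (Ideal.subset_span (by simp))
    have m5 : z * io h V ∈ I := by
      have e1 : z * io h V = io h (C ((2 : K)⁻¹)) * (io h U * io h W - z * z) := by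
        have e2 : io h U * io h W - z * z = io h (C (2 : K)) * (z * io h V) := by
          rw [← hyy, hz, show (C (2 : K) : K[X]) = 2 from rfl, map_ofNat]
          ring
        have e3 : io h (C ((2 : K)⁻¹)) * io h (C (2 : K)) = 1 := by
          rw [← map_mul, ← C_mul, inv_mul_cancel₀ h2, C_1, map_one]
        rw [e2, ← mul_assoc, e3, one_mul]
      rw [e1]
      exact Ideal.mul_mem_left _ _ (Ideal.sub_mem _ m4 m3)
    obtain ⟨d, hd⟩ : ∃ d, (Ideal.span {U, V, W} : Ideal K[X]) = Ideal.span {d} :=
      (IsPrincipalIdealRing.principal _).principal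
    have hdU : d ∣ U := Ideal.mem_span_singleton.1 (by rw [← hd]; exact Ideal.subset_span (by simp))
    have hdV : d ∣ V := Ideal.mem_span_singleton.1 (by rw [← hd]; exact Ideal.subset_span (by simp))
    have hdW : d ∣ W := Ideal.mem_span_singleton.1 (by rw [← hd]; exact Ideal.subset_span (by simp))
    have hdu : IsUnit d := by
      apply hsq
      have e2 : h = U * W + V * V := by linear_combination hW
      rw [e2]
      exact dvd_add (mul_dvd_mul hdU hdW) (mul_dvd_mul hdV hdV)
    have h1 : (1 : K[X]) ∈ (Ideal.span {U, V, W} : Ideal K[X]) := by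
      rw [hd, Ideal.mem_span_singleton]
      exact hdu.dvd
    have key : ∀ A ∈ (Ideal.span {U, V, W} : Ideal K[X]), z * io h A ∈ I := by
      intro A hA
      induction hA using Submodule.span_induction with
      | mem x hx =>
        simp only [Set.mem_insert_iff, Set.mem_singleton_iff] at hx
        rcases hx with rfl | rfl | rfl
        · exact m1
        · exact m5
        · exact m2
      | zero => rw [map_zero, mul_zero]; exact Ideal.zero_mem _
      | add x y _ _ hx hy => rw [map_add, mul_add]; exact Ideal.add_mem _ hx hy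
      | smul a x _ hx =>
        rw [smul_eq_mul, map_mul, mul_left_comm]
        exact Ideal.mul_mem_left _ _ hx
    have h3 := key 1 h1
    rwa [map_one, mul_one] at h3

/-- the inverse class -/
theorem UV_swap (h2 : (2 : K) ≠ 0) (hsq : Squarefree h) {U V W : K[X]}
    (hW : h - V ^ 2 = U * W) (hW0 : W ≠ 0) : Eqv (UV h U V) (UV h W (-V)) := by
  refine ⟨io h W, yy h - io h V, ?_, ?_, ?_⟩
  · intro h0
    have h1 := (co_io (h := h) W).1
    have h3 := (co_io (h := h) (0 : K[X])).1
    rw [h0] at h1
    rw [map_zero, h1] at h3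
    exact hW0 h3
  · intro h0
    have h1 := (co_yy (h := h) V).2
    have h3 := (co_io (h := h) (0 : K[X])).2
    rw [h0] at h1
    rw [map_zero, h1] at h3
    exact one_ne_zero h3
  · rw [← UV_mul' h2 hsq hW, ← UV_mul h2 hsq (V := V) ⟨U, by rw [hW, mul_comm]⟩, UV_map_cj,
      mul_comm, mul_assoc]

/-- reduction -/
theorem reduce (hdom : IsDomain (CR h)) (h2 : (2 : K) ≠ 0) (hsq : Squarefree h) {g : ℕ}
    (hd : h.natDegree = 2 * g + 1) (d : ℕ) : ∀ U V : K[X], U ≠ 0 → U ∣ h - V ^ 2 →
    U.natDegree = d → ∃ U' V' : K[X], U' ≠ 0 ∧ U' ∣ h - V' ^ 2 ∧ U'.natDegree ≤ g ∧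
      V'.degree < U'.degree ∧ Eqv (UV h U V) (UV h U' V') := by
  induction d using Nat.strong_induction_on with
  | _ d ih =>
    intro U V hU hUV hUd
    obtain ⟨V₁, hV₁⟩ : ∃ V₁, V₁ = V % U := ⟨_, rfl⟩
    have hVV : V = V₁ + U * (V / U) := by rw [hV₁, EuclideanDomain.mod_add_div]
    have hV₁d : V₁.degree < U.degree := by
      rw [hV₁]
      exact degree_mod_lt V hU
    have hUV₁ : U ∣ h - V₁ ^ 2 := by
      have e1 : h - V₁ ^ 2 = (h - V ^ 2) + U * ((V / U) * (2 * V₁ + U * (V / U))) := by
        linear_combination (V + V₁ + U * (V / U)) * hVV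
      rw [e1]
      exact dvd_add hUV (dvd_mul_right _ _)
    have e0 : UV h U V = UV h U V₁ := by
      conv_lhs => rw [hVV]
      exact UV_shift _ _ _
    rw [e0]
    rcases le_or_gt d g with hdg | hdg
    · refine ⟨U, V₁, hU, hUV₁, by omega, hV₁d, 1, 1, one_ne_zero, one_ne_zero, rfl⟩
    · obtain ⟨W, hW⟩ := hUV₁
      have hV₁n : V₁.natDegree ≤ d - 1 := by
        by_cases h0 : V₁ = 0
        · rw [h0, natDegree_zero]
          exact Nat.zero_le _
        · have := natDegree_lt_natDegree h0 hV₁d
          omega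
      have h1 : (h - V₁ ^ 2).natDegree ≤ max (2 * g + 1) (2 * d - 2) := by
        refine (natDegree_sub_le _ _).trans ?_
        rw [hd, natDegree_pow]
        apply max_le_max le_rfl
        omega
      have hne : h - V₁ ^ 2 ≠ 0 := by
        intro h0
        have h3 : h = V₁ ^ 2 := sub_eq_zero.1 h0
        have h4 := congrArg natDegree h3
        rw [hd, natDegree_pow] at h4
        omega
      have hW0 : W ≠ 0 := by
        rintro rfl
        rw [mul_zero] at hW
        exact hne hW
      have h3 : U.natDegree + W.natDegree ≤ max (2 * g + 1) (2 * d - 2) := by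
        rw [← natDegree_mul hU hW0, ← hW]
        exact h1
      have hWd : W.natDegree < d := by
        rcases le_total (2 * g + 1) (2 * d - 2) with h4 | h4
        · rw [max_eq_right h4] at h3
          omega
        · rw [max_eq_left h4] at h3
          omega
      obtain ⟨U', V', a1, a2, a3, a4, a5⟩ := ih _ hWd W (-V₁) hW0
        ⟨U, by rw [neg_sq, hW, mul_comm]⟩ rfl
      exact ⟨U', V', a1, a2, a3, a4, (UV_swap h2 hsq hW hW0).trans' a5⟩

end Pool.Agent.K9h33.ORQ
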