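import Pool.Agent.K9h33.ORQ.Bas

/-!
Discrete valuation rings: divisibility by the uniformizer in the coordinate ring.
-/

set_option autoImplicit false

namespace Pool.Agent.K9h33.ORQ

open Polynomial

/-- `O` is a discrete valuation ring with the uniformizer `π` and the residue field `k`, of
characteristic two -/
structure DV {O k : Type} [CommRing O] [Field k] (π : O) (φ : O →+* k) : Prop where
  surj : Function.Surjective φ
  ker : ∀ x, φ x = 0 ↔ π ∣ x
  unit : ∀ x, φ x ≠ 0 → IsUnit x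
  sep : ∀ x, x ≠ 0 → ∃ n, ¬ π ^ n ∣ x
  ne : π ≠ 0
  two : (2 : k) = 0

variable {O k : Type} [CommRing O] [IsDomain O] [Field k] {π : O} {φ : O →+* k}

lemma map_zero_iff (D : DV π φ) (P : O[X]) : P.map φ = 0 ↔ C π ∣ P := by
  rw [C_dvd_iff_dvd_coeff]
  constructor
  · intro h n
    rw [← D.ker, ← coeff_map, h, coeff_zero]
  · intro h
    ext n
    rw [coeff_map, coeff_zero, D.ker]
    exact h n

lemma lift_poly (D : DV π φ) (P : k[X]) : ∃ Q : O[X], Q.map φ = P :=
  Polynomial.map_surjective φ D.surj P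

variable {f : O[X]} {fb : k[X]} (e : f.map φ = fb)

lemma mp_zero_iff (D : DV π φ) (z : CR f) : mp φ e z = 0 ↔ io f (C π) ∣ z := by
  constructor
  · intro h
    have h0 : (c0 f z).map φ = 0 := by
      rw [← (co_mp φ e z).1, h]
      have := (co_io (h := fb) (0 : k[X])).1
      rwa [map_zero] at this
    have h1 : (c1 f z).map φ = 0 := by
      rw [← (co_mp φ e z).2, h]
      have := (co_io (h := fb) (0 : k[X])).2
      rwa [map_zero] at this
    rw [map_zero_iff D] at h0 h1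
    obtain ⟨a, ha⟩ := h0
    obtain ⟨b, hb⟩ := h1
    refine ⟨io f a + io f b * yy f, ?_⟩
    conv_lhs => rw [rep f z]
    rw [ha, hb, map_mul, map_mul]
    ring
  · rintro ⟨w, rfl⟩
    have hπ : φ π = 0 := (D.ker π).2 dvd_rfl
    rw [map_mul, mp_io, map_C, hπ, C_0, map_zero, zero_mul]

lemma mp_surj (D : DV π φ) (w : CR fb) : ∃ z : CR f, mp φ e z = w := by
  obtain ⟨A, hA⟩ := lift_poly D (c0 fb w)
  obtain ⟨B, hB⟩ := lift_poly D (c1 fb w)
  refine ⟨io f A + io f B * yy f, ?_⟩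
  rw [map_add, map_mul, mp_io, mp_io, mp_yy, hA, hB, ← rep]

/-- `π` is a nonzerodivisor -/
lemma pi_inj (D : DV π φ) {z w : CR f} (h : io f (C π) * z = io f (C π) * w) : z = w := by
  have h0 := congrArg (c0 f) h
  have h1 := congrArg (c1 f) h
  rw [(co_io_mul _ _).1, (co_io_mul _ _).1] at h0
  rw [(co_io_mul _ _).2, (co_io_mul _ _).2] at h1
  have hπ : (C π : O[X]) ≠ 0 := C_ne_zero.2 D.ne
  exact ext' (mul_left_cancel₀ hπ h0) (mul_left_cancel₀ hπ h1)

/-- division by a power of `π` -/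
lemma pow_dvd_of (D : DV π φ) (hdom : IsDomain (CR fb)) {u z : CR f} (hu : mp φ e u ≠ 0) (n : ℕ) :
    ∀ w, u * z = io f (C π) ^ n * w → io f (C π) ^ n ∣ z := by
  induction n with
  | zero =>
    intro w _
    rw [pow_zero]
    exact one_dvd _
  | succ n ih =>
    intro w h
    obtain ⟨z', hz'⟩ := ih (io f (C π) * w) (by rw [h]; ring)
    have h1 : io f (C π) ^ n * (u * z') = io f (C π) ^ n * (io f (C π) * w) := by
      rw [hz'] at h
      linear_combination h
    have h2 : u * z' = io f (C π) * w := by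
      clear h hz' ih
      induction n with
      | zero => simpa using h1
      | succ n ih' =>
        apply ih'
        apply pi_inj D
        linear_combination h1
    have h3 : mp φ e (u * z') = 0 := (mp_zero_iff e D _).2 ⟨w, h2⟩
    rw [map_mul] at h3
    rcases mul_eq_zero.1 h3 with h4 | h4
    · exact absurd h4 hu
    · obtain ⟨z'', hz''⟩ := (mp_zero_iff e D _).1 h4
      exact ⟨z'', by rw [hz', hz'']; ring⟩

lemma pow_pi_inj (D : DV π φ) (n : ℕ) {z w : CR f} (h : io f (C π) ^ n * z = io f (C π) ^ n * w) :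
    z = w := by
  induction n with
  | zero => simpa using h
  | succ n ih =>
    apply ih
    apply pi_inj D
    linear_combination h

lemma sep_poly (D : DV π φ) {P : O[X]} (hP : P ≠ 0) : ∃ (n : ℕ) (Q : O[X]), P = C π ^ n * Q ∧
    Q.map φ ≠ 0 := by
  classical
  obtain ⟨m, hm⟩ : ∃ m, P.coeff m ≠ 0 := by
    by_contra h
    push Not at h
    exact hP (Polynomial.ext fun n => by rw [h n, coeff_zero])
  have hex : ∃ n, ¬ (C π) ^ n ∣ P := by
    obtain ⟨n, hn⟩ := D.sep _ hm
    refine ⟨n, fun hd => hn ?_⟩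
    rw [← C_pow, C_dvd_iff_dvd_coeff] at hd
    exact hd m
  have hs := Nat.find_spec hex
  have hmin := fun n => @Nat.find_min _ _ hex n
  obtain ⟨n, hn⟩ : ∃ n, n = Nat.find hex := ⟨_, rfl⟩
  rw [← hn] at hs hmin
  rcases n with _ | n
  · exact absurd (by rw [pow_zero]; exact one_dvd _) hs
  · have h1 := hmin n (Nat.lt_succ_self n)
    rw [not_not] at h1
    obtain ⟨Q, hQ⟩ := h1
    refine ⟨n, Q, hQ, fun h0 => hs ?_⟩
    rw [map_zero_iff D] at h0
    obtain ⟨Q', hQ'⟩ := h0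
    exact ⟨Q', by rw [hQ, hQ']; ring⟩

lemma sep_cr (D : DV π φ) {z : CR f} (hz : z ≠ 0) : ∃ (n : ℕ) (w : CR f),
    z = io f (C π) ^ n * w ∧ mp φ e w ≠ 0 := by
  classical
  have hex : ∃ n, ¬ (io f (C π)) ^ n ∣ z := by
    by_contra hc
    push Not at hc
    apply hz
    have hd : ∀ n, C π ^ n ∣ c0 f z ∧ C π ^ n ∣ c1 f z := by
      intro n
      obtain ⟨w, hw⟩ := hc n
      rw [← map_pow] at hw
      refine ⟨⟨c0 f w, ?_⟩, ⟨c1 f w, ?_⟩⟩
      · rw [hw, (co_io_mul _ _).1]
      · rw [hw, (co_io_mul _ _).2]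
    have h0 : ∀ P : O[X], (∀ n, C π ^ n ∣ P) → P = 0 := by
      intro P hP
      by_contra hP0
      obtain ⟨n, Q, hQ, hQ0⟩ := sep_poly D hP0
      obtain ⟨T, hT⟩ := hP (n + 1)
      apply hQ0
      rw [map_zero_iff D]
      refine ⟨T, ?_⟩
      have hπ : (C π : O[X]) ^ n ≠ 0 := pow_ne_zero _ (C_ne_zero.2 D.ne)
      apply mul_left_cancel₀ hπ
      rw [← hQ, hT]
      ring
    rw [rep f z, h0 _ fun n => (hd n).1, h0 _ fun n => (hd n).2, map_zero]
    ring
  have hs := Nat.find_spec hex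
  have hmin := fun n => @Nat.find_min _ _ hex n
  obtain ⟨n, hn⟩ : ∃ n, n = Nat.find hex := ⟨_, rfl⟩
  rw [← hn] at hs hmin
  rcases n with _ | n
  · exact absurd (by rw [pow_zero]; exact one_dvd _) hs
  · have h1 := hmin n (Nat.lt_succ_self n)
    rw [not_not] at h1
    obtain ⟨Q, hQ⟩ := h1
    refine ⟨n, Q, hQ, fun h0 => hs ?_⟩
    rw [mp_zero_iff e D] at h0
    obtain ⟨Q', hQ'⟩ := h0
    exact ⟨Q', by rw [hQ, hQ']; ring⟩

end Pool.Agent.K9h33.ORQ
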