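import Pool.Agent.K9h33.ORQ.Fin

/-!
Algebraic points of degree at most `2 g`.
-/

set_option autoImplicit false

namespace Pool.Agent.K9h33.ORQ

open Polynomial IntermediateField

/-- if the Picard group is trivial, the algebraic points of degree at most `2 g` come from the
line -/
theorem no_alg {F : Type} [Field F] (h2 : (2 : F) ≠ 0) {g : ℕ} (hg : 1 ≤ g) {h : F[X]}
    (hd : h.natDegree = 2 * g + 1) (hsq : Squarefree h)
    (hP : ∀ P : CommRing.Pic (CR h), P = 1) {L : Type} [Field L] [Algebra F L] {a b : L}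
    (ha : IsIntegral F a) (hda : (minpoly F a).natDegree ≤ 2 * g) (hb : b ∈ F⟮a⟯)
    (hab : b ^ 2 = aeval a h) : False := by
  have hdom : IsDomain (CR h) := isDomain_CR (by rw [hd]; exact ⟨g, rfl⟩)
  obtain ⟨V, hV⟩ : ∃ V : F[X], aeval a V = b := by
    have h1 : b ∈ Algebra.adjoin F {a} := by
      have h3 := IntermediateField.adjoin_simple_toSubalgebra_of_isAlgebraic ha.isAlgebraic
      rw [← h3]
      exact hb
    rw [Algebra.adjoin_singleton_eq_range_aeval] at h1
    exact h1
  obtain ⟨U, hU⟩ : ∃ U, U = minpoly F a := ⟨_, rfl⟩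
  have hU0 : U ≠ 0 := by
    rw [hU]
    exact minpoly.ne_zero ha
  have hUi : Irreducible U := by
    rw [hU]
    exact minpoly.irreducible ha
  rw [← hU] at hda
  have hdv : U ∣ h - V ^ 2 := by
    rw [hU]
    apply minpoly.dvd
    rw [map_sub, map_pow, hV, hab, sub_self]
  have hu : io h U ≠ 0 := by
    intro h0
    have h1 := (co_io (h := h) U).1
    have h3 := (co_io (h := h) (0 : F[X])).1
    rw [h0] at h1
    rw [map_zero, h1] at h3
    exact hU0 h3
  obtain ⟨w, hw⟩ := princ_of_pic hP (UV h U V) _ _ hu (UV_mul h2 hsq hdv)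
  have h4 : Ideal.span {io h U} = Ideal.span {io h (nm h w)} := by
    have h5 := congrArg (Ideal.map (cj h)) hw
    rw [Ideal.map_span, Set.image_singleton] at h5
    rw [← mul_cj, ← Ideal.span_singleton_mul_span_singleton, ← hw, ← h5, UV_mul h2 hsq hdv]
  rw [Ideal.span_singleton_eq_span_singleton] at h4
  have h5 : Associated U (nm h w) :=
    associated_of_dvd_dvd (io_dvd h4.dvd) (io_dvd h4.symm.dvd)
  have h6 : (nm h w).natDegree ≤ 2 * g := by
    rw [← natDegree_eq_of_degree_eq (degree_eq_degree_of_associated h5)]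
    exact hda
  have hf0 : h ≠ 0 := by
    rintro rfl
    rw [natDegree_zero] at hd
    omega
  have h1 : c1 h w = 0 := by
    by_contra hc
    unfold nm at h6
    have e1 : (h * c1 h w ^ 2).natDegree = 2 * g + 1 + 2 * (c1 h w).natDegree := by
      rw [natDegree_mul hf0 (pow_ne_zero 2 hc), hd, natDegree_pow]
    have e2 : (c0 h w ^ 2).natDegree = 2 * (c0 h w).natDegree := natDegree_pow _ _
    rcases lt_trichotomy (c0 h w ^ 2).natDegree (h * c1 h w ^ 2).natDegree with h2 | h2 | h2
    · rw [natDegree_sub_eq_right_of_natDegree_lt h2] at h6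
      omega
    · omega
    · rw [natDegree_sub_eq_left_of_natDegree_lt h2] at h6
      omega
  have h7 : nm h w = c0 h w ^ 2 := by
    unfold nm
    rw [h1, zero_pow two_ne_zero, mul_zero, sub_zero]
  rw [h7] at h5
  have h8 : Irreducible (c0 h w ^ 2) := h5.irreducible hUi
  exact not_irreducible_pow (by norm_num) h8

/-- if the Picard group is trivial, there are no affine points over extensions of odd degree less
than `2 g` -/
theorem no_odd {F : Type} [Field F] (h2 : (2 : F) ≠ 0) {g : ℕ} (hg : 1 ≤ g) {h : F[X]}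
    (hd : h.natDegree = 2 * g + 1) (hsq : Squarefree h)
    (hP : ∀ P : CommRing.Pic (CR h), P = 1) {L : Type} [Field L] [Algebra F L]
    (hodd : Odd (Module.finrank F L)) (hlt : Module.finrank F L < 2 * g) {a b : L}
    (hab : b ^ 2 = aeval a h) : False := by
  have hfin : FiniteDimensional F L := Module.finite_of_finrank_pos hodd.pos
  have ha : IsIntegral F a := IsIntegral.of_finite F a
  have hda : (minpoly F a).natDegree ∣ Module.finrank F L := minpoly.degree_dvd ha
  refine no_alg h2 hg hd hsq hP ha ((Nat.le_of_dvd hodd.pos hda).trans hlt.le) ?_ hab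
  -- `b` is in the field of `a`
  obtain ⟨t, ht⟩ : ∃ t : F⟮a⟯, (t : L) = aeval a h := by
    refine ⟨aeval (AdjoinSimple.gen F a) h, ?_⟩
    have h1 := aeval_algebraMap_apply L (AdjoinSimple.gen F a) h
    rw [AdjoinSimple.algebraMap_gen] at h1
    exact h1.symm
  have hbi : IsIntegral F⟮a⟯ b := IsIntegral.of_finite _ b
  have hdvd : minpoly F⟮a⟯ b ∣ X ^ 2 - C t := by
    apply minpoly.dvd
    rw [map_sub, map_pow, aeval_X, aeval_C, hab, ← ht]
    exact sub_self _
  have hdeg : (minpoly F⟮a⟯ b).natDegree ≤ 2 := by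
    have h1 := natDegree_le_of_dvd hdvd (monic_X_pow_sub_C t two_ne_zero).ne_zero
    rwa [natDegree_X_pow_sub_C] at h1
  have hdd : (minpoly F⟮a⟯ b).natDegree ∣ Module.finrank F L := by
    refine dvd_trans (minpoly.degree_dvd hbi) ?_
    exact ⟨_, (Module.finrank_mul_finrank F F⟮a⟯ L).symm.trans (mul_comm _ _)⟩
  have hoddd : Odd (minpoly F⟮a⟯ b).natDegree := Odd.of_dvd_nat hodd hdd
  have h1 : (minpoly F⟮a⟯ b).natDegree = 1 := by
    obtain ⟨m, hm⟩ := hoddd
    omega
  rw [minpoly.natDegree_eq_one_iff] at h1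
  obtain ⟨s, hs⟩ := h1
  rw [← hs]
  exact s.2

end Pool.Agent.K9h33.ORQ
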