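import Pool.Agent.N352.PF.Cnt
import Pool.Agent.N783.PF.Loc

/-!
Statements: the family of project PF with prescribed residues at the prime ideals over `2`.
-/

set_option autoImplicit false

open Polynomial NumberField IsDedekindDomain
open scoped Classical

namespace Pool.Agent.K9h33.ORQ

open Pool.Agent.N352.PJ (dd)
open Pool.Agent.N352.PF (rv)
open Pool.Agent.N783.PF (Cg sp rd Ht GoodS GoodF Fam fF SelZero Min)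

/-- `f` is regular at the prime ideal `𝔭` over `2` -/
def Rg {F : Type} [Field F] [NumberField F] (𝔭 : Ideal (𝓞 F)) (f : (𝓞 F)[X]) : Prop :=
  ∃ (s r q : (𝓞 F)[X]) (c : 𝓞 F), c ∈ 𝔭 ∧ c ∉ 𝔭 ^ 2 ∧
    ∀ j, (f - (s ^ 2 + X * r ^ 2 + C c * (1 - r * q))).coeff j ∈ 𝔭 ^ 2

/-- one prime ideal -/
def S_FV : Prop := ∀ (F : Type) [Field F] [NumberField F] (g : ℕ), 1 ≤ g →
  ∀ v : HeightOneSpectrum (𝓞 F), ∃ f : (𝓞 F)[X], f.Monic ∧ f.natDegree = 2 * g + 1 ∧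
    f.coeff (2 * g) ∈ v.asIdeal ^ 2 ∧ (rv v f).Separable ∧
    ((2 : 𝓞 F) ∈ v.asIdeal → Irreducible (rv v f) ∧ Rg v.asIdeal f)

/-- `S_GF` with regularity at the prime ideals over `2` -/
def S_GFR : Prop := ∀ (F : Type) [Field F] [NumberField F] (g M : ℕ), 1 ≤ g →
  ∃ (W : ℕ) (f₁ : (𝓞 F)[X]), f₁.Monic ∧ f₁.natDegree = 2 * g + 1 ∧ f₁.coeff (2 * g) = 0 ∧ 0 < W ∧
    4 ∣ W ∧
    (∀ v : HeightOneSpectrum (𝓞 F), (2 : 𝓞 F) ∈ v.asIdeal → Irreducible (rv v f₁)) ∧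
    (∀ v : HeightOneSpectrum (𝓞 F), (2 : 𝓞 F) ∈ v.asIdeal → Rg v.asIdeal f₁) ∧
    (∀ v : HeightOneSpectrum (𝓞 F), (W : 𝓞 F) ∈ v.asIdeal → (rv v f₁).Separable) ∧
    ∀ p : ℕ, p.Prime → p ≤ M → p ∣ W

/-- `S_FAM` with regularity at the prime ideals over `2` -/
def S_FAMR : Prop := ∀ (F : Type) [Field F] [NumberField F] (g : ℕ), 1 ≤ g →
  ∀ K : ℕ, ∃ (W : ℕ) (f₁ : (𝓞 F)[X]), K ≤ W ∧ GoodF g W f₁ ∧ 4 ∣ W ∧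
  (∀ 𝔭 : Ideal (𝓞 F), 𝔭.IsPrime → (2 : 𝓞 F) ∈ 𝔭 → Rg 𝔭 f₁) ∧
  ∃ c : ℝ, 0 < c ∧ ∀ (S : Finset ℕ) (𝔮 : ℕ → Ideal (𝓞 F)) (h P : ℕ → (𝓞 F)[X]),
    GoodS g W S 𝔮 h P → ∃ B₀ : ℕ, ∀ B ≥ B₀,
    c * (B : ℝ) ^ (Module.finrank ℚ F * dd g) ≤
      (((∏ q ∈ S, q ^ (2 * g)) ^ Module.finrank ℚ F : ℕ) : ℝ) *
      ({f : (𝓞 F)[X] | Fam g B W f₁ S P f}.ncard : ℝ)

/-- `f` is regular at all the prime ideals over `2` and irreducible modulo them -/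
def R2 {F : Type} [Field F] [NumberField F] (f : (𝓞 F)[X]) : Prop :=
  ∀ 𝔭 : Ideal (𝓞 F), 𝔭.IsPrime → (2 : 𝓞 F) ∈ 𝔭 → Rg 𝔭 f

/-- `S_MAIN` with regularity at the prime ideals over `2` -/
def S_MAINR : Prop := ∀ (g : ℕ) (F : Type) [Field F] [NumberField F], 1 ≤ g →
  ∃ c : ℝ, 0 < c ∧ ∃ B₀ : ℕ, ∀ B ≥ B₀,
  {f : (𝓞 F)[X] | Ht g B f}.Finite ∧ c * ({f : (𝓞 F)[X] | Ht g B f}.ncard : ℝ) ≤
    ({f : (𝓞 F)[X] | Ht g B f ∧ Irreducible (fF f) ∧ SelZero f ∧ Min g f ∧ R2 f}.ncard : ℝ)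

end Pool.Agent.K9h33.ORQ
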