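import Pool.Agent.K9h33.ORQ.Nfi
import Pool.Agent.K9h33.ORQ.Cg

/-!
Trivial Jacobians: the Picard group of the coordinate ring is trivial and there are no affine points.
-/

set_option autoImplicit false

namespace Pool.Agent.K9h33.ORQ

open Polynomial NumberField IsDedekindDomain
open Pool.Agent.N783.PF (fF)

/-- a prime ideal over `2` -/
lemma exists_v (F : Type) [Field F] [NumberField F] : ∃ v : HeightOneSpectrum (𝓞 F),
    (2 : 𝓞 F) ∈ v.asIdeal := by
  have h2 : (Ideal.span {(2 : ℤ)}).IsMaximal :=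
    PrincipalIdealRing.isMaximal_of_irreducible Int.prime_two.irreducible
  obtain ⟨Q, hQ, hQ2⟩ := Ideal.exists_maximal_ideal_liesOver_of_isIntegral (S := 𝓞 F)
    (Ideal.span {(2 : ℤ)})
  have h3 : (2 : 𝓞 F) ∈ Q := by
    have h4 : (2 : ℤ) ∈ Q.under ℤ := by
      rw [← hQ2.over]
      exact Ideal.mem_span_singleton_self _
    have h5 : algebraMap ℤ (𝓞 F) 2 ∈ Q := h4
    rwa [map_ofNat] at h5
  refine ⟨⟨Q, hQ.isPrime, ?_⟩, h3⟩
  rintro rfl
  rw [Ideal.mem_bot] at h3
  exact two_ne_zero h3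

/-- the Picard group is trivial -/
theorem pic_triv {F : Type} [Field F] [NumberField F] {g : ℕ} {f : (𝓞 F)[X]} (hm : f.Monic)
    (hd : f.natDegree = 2 * g + 1) (hi : Irreducible (fF f)) (hR : R2 f) {h : F[X]} (hh : h = fF f)
    (hs : Function.Surjective fun P : CommRing.Pic (CR h) => P ^ 2) :
    ∀ P : CommRing.Pic (CR h), P = 1 := by
  obtain ⟨v, hv⟩ := exists_v F
  have hdh : h.natDegree = 2 * g + 1 := by rw [hh, hm.natDegree_map, hd]
  have hdom : IsDomain (CR h) := isDomain_CR (by rw [hdh]; exact ⟨g, rfl⟩)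
  exact triv hs fun I hI hdiv => nf_cls hm hd hi v hv (hR _ v.isPrime hv) hh hI hdiv

/-- if the Picard group is trivial, there are no affine points -/
theorem no_point {F : Type} [Field F] (h2 : (2 : F) ≠ 0) {g : ℕ} (hg : 1 ≤ g) {h : F[X]}
    (hd : h.natDegree = 2 * g + 1) (hsq : Squarefree h)
    (hP : ∀ P : CommRing.Pic (CR h), P = 1) {a b : F} (hab : b ^ 2 = h.eval a) : False := by
  have hdom : IsDomain (CR h) := isDomain_CR (by rw [hd]; exact ⟨g, rfl⟩)
  have hdv : X - C a ∣ h - C b ^ 2 := by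
    rw [dvd_iff_isRoot, IsRoot.def, eval_sub, eval_pow, eval_C, hab, sub_self]
  have hu : io h (X - C a) ≠ 0 := by
    intro h0
    have h1 := (co_io (h := h) (X - C a)).1
    have h3 := (co_io (h := h) (0 : F[X])).1
    rw [h0] at h1
    rw [map_zero, h1] at h3
    exact X_sub_C_ne_zero a h3
  obtain ⟨w, hw⟩ := princ_of_pic hP (UV h (X - C a) (C b)) _ _ hu (UV_mul h2 hsq hdv)
  have h4 : Ideal.span {io h (X - C a)} = Ideal.span {io h (nm h w)} := by
    have h5 := congrArg (Ideal.map (cj h)) hw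
    rw [Ideal.map_span, Set.image_singleton] at h5
    rw [← mul_cj, ← Ideal.span_singleton_mul_span_singleton, ← hw, ← h5, UV_mul h2 hsq hdv]
  rw [Ideal.span_singleton_eq_span_singleton] at h4
  have h5 : Associated (X - C a) (nm h w) :=
    associated_of_dvd_dvd (io_dvd h4.dvd) (io_dvd h4.symm.dvd)
  have h6 : (nm h w).natDegree = 1 := by
    rw [← natDegree_eq_of_degree_eq (degree_eq_degree_of_associated h5), natDegree_X_sub_C]
  obtain ⟨h7, h8⟩ := deg_nm hd hg (z := w) (by rw [h6])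
  rw [nm, h7, zero_pow two_ne_zero, mul_zero, sub_zero, natDegree_pow, h8] at h6
  omega

end Pool.Agent.K9h33.ORQ
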