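import Pool.Agent.K9h33.ORQ.Cla

/-!
Every nontrivial class is represented by an ideal with a squarefree norm of degree at most `2 g`.
-/

set_option autoImplicit false

namespace Pool.Agent.K9h33.ORQ

open Polynomial

variable {K : Type} [Field K] [CharZero K] {h : K[X]}

/-- the discriminant of the pencil does not vanish -/
lemma disc_ne {g : ℕ} (hd : h.natDegree = 2 * g + 1) {U V W : K[X]} (hW : h - V ^ 2 = U * W)
    (hU : U ≠ 0) (hW0 : W ≠ 0) (hU1 : 1 ≤ U.natDegree) (hW1 : 1 ≤ W.natDegree)
    (hne : U.natDegree ≠ W.natDegree) :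
    U * (W * derivative U - derivative W * U) ^ 2 + 4 * V * (V * derivative U - derivative V * U) *
      (W * derivative U - derivative W * U) - 4 * W * (V * derivative U - derivative V * U) ^ 2 ≠ 0 := by
  intro h0
  obtain ⟨α, hα⟩ : ∃ α, α = V * derivative U - derivative V * U := ⟨_, rfl⟩
  obtain ⟨β, hβ⟩ : ∃ β, β = W * derivative U - derivative W * U := ⟨_, rfl⟩
  rw [← hα, ← hβ] at h0
  have h1 : (U * β + 2 * V * α) ^ 2 = 4 * α ^ 2 * h := by
    linear_combination U * h0 - 4 * α ^ 2 * hW
  have hα0 : α = 0 := by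
    by_contra hc
    have h3 := congrArg natDegree h1
    have h4 : (4 : K[X]) ≠ 0 := by norm_num
    have h5 : h ≠ 0 := by
      rintro rfl
      rw [natDegree_zero] at hd
      omega
    have h6 : (4 : K[X]) = C 4 := rfl
    rw [natDegree_pow, natDegree_mul (mul_ne_zero h4 (pow_ne_zero 2 hc)) h5, h6, natDegree_C_mul
      (by norm_num), natDegree_pow, hd] at h3
    omega
  rw [hα0] at h1
  have h2 : U * β = 0 := by
    have : (U * β) ^ 2 = 0 := by linear_combination h1
    exact eq_zero_of_pow_eq_zero this
  have hβ0 : β = 0 := (mul_eq_zero.1 h2).resolve_left hU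
  rw [hβ0] at hβ
  have h3 : W * derivative U = derivative W * U := by linear_combination -hβ
  have h4 := congrArg leadingCoeff h3
  have hdl : ∀ P : K[X], 1 ≤ P.natDegree → (derivative P).leadingCoeff =
      P.leadingCoeff * (P.natDegree : K) := by
    intro P hP
    have e1 : (derivative P).natDegree = P.natDegree - 1 := natDegree_derivative P
    rw [leadingCoeff, e1, coeff_derivative, leadingCoeff]
    have e2 : P.natDegree - 1 + 1 = P.natDegree := by omega
    rw [e2]
    congr 1
    have : ((P.natDegree - 1 + 1 : ℕ) : K) = (P.natDegree : K) := by rw [e2]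
    push_cast at this
    exact this
  rw [leadingCoeff_mul, leadingCoeff_mul, hdl U hU1, hdl W hW1] at h4
  have h5 : W.leadingCoeff * U.leadingCoeff ≠ 0 :=
    mul_ne_zero (leadingCoeff_ne_zero.2 hW0) (leadingCoeff_ne_zero.2 hU)
  have h6 : (U.natDegree : K) = (W.natDegree : K) := by
    apply mul_left_cancel₀ h5
    linear_combination h4
  exact hne (by exact_mod_cast h6)

/-- a squarefree member of the pencil -/
theorem exists_a (hsq : Squarefree h) {g : ℕ} (hd : h.natDegree = 2 * g + 1) {U V W : K[X]}
    (hW : h - V ^ 2 = U * W) (hU : U ≠ 0) (hW0 : W ≠ 0) (hU1 : 1 ≤ U.natDegree)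
    (hW1 : 1 ≤ W.natDegree) (hne : U.natDegree ≠ W.natDegree) :
    ∃ a : K, Squarefree (W - 2 * C a * V - C (a ^ 2) * U) := by
  obtain ⟨L, _, _, _, hL⟩ : ∃ (L : Type) (_ : Field L) (_ : Algebra K L) (_ : CharZero L),
      IsAlgClosed L := ⟨AlgebraicClosure K, inferInstance, inferInstance,
        charZero_of_injective_algebraMap (algebraMap K (AlgebraicClosure K)).injective,
        inferInstance⟩
  obtain ⟨i, hi⟩ : ∃ i, i = algebraMap K L := ⟨_, rfl⟩
  obtain ⟨R, hR⟩ : ∃ R, R = U * (W * derivative U - derivative W * U) ^ 2 +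
      4 * V * (V * derivative U - derivative V * U) *
      (W * derivative U - derivative W * U) - 4 * W * (V * derivative U - derivative V * U) ^ 2 :=
    ⟨_, rfl⟩
  have hR0 : R ≠ 0 := by
    rw [hR]
    exact disc_ne hd hW hU hW0 hU1 hW1 hne
  have hRi : R.map i ≠ 0 := (Polynomial.map_ne_zero_iff i.injective).2 hR0
  have hsep : IsCoprime h (derivative h) := (PerfectField.separable_iff_squarefree).2 hsq
  obtain ⟨q, hq⟩ : ∃ q : L → L[X], ∀ x, q x = C (eval₂ i x W) - C (2 * eval₂ i x V) * X -
      C (eval₂ i x U) * X ^ 2 := ⟨_, fun _ => rfl⟩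
  have hq0 : ∀ x, q x ≠ 0 := by
    intro x h0
    rw [hq] at h0
    have e0 := congrArg (fun P : L[X] => P.coeff 0) h0
    have e1 := congrArg (fun P : L[X] => P.coeff 1) h0
    have e2 := congrArg (fun P : L[X] => P.coeff 2) h0
    simp [coeff_X, coeff_C, coeff_X_pow] at e0 e1 e2
    obtain ⟨A, B, hAB⟩ := hsep
    have hh : h = V ^ 2 + U * W := by linear_combination hW
    have e3 := congrArg (eval₂ i x) hAB
    rw [hh, derivative_add, derivative_mul, derivative_pow] at e3
    simp only [eval₂_add, eval₂_mul, eval₂_pow, eval₂_one, e0, e1, e2] at e3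
    simp at e3
  classical
  obtain ⟨bad, hbad⟩ : ∃ bad : L[X], bad = ∏ x ∈ (R.map i).roots.toFinset, q x := ⟨_, rfl⟩
  have hbad0 : bad ≠ 0 := by
    rw [hbad]
    exact Finset.prod_ne_zero_iff.2 fun x _ => hq0 x
  obtain ⟨a, ha⟩ : ∃ a : K, eval (i a) bad ≠ 0 := by
    by_contra hc
    push Not at hc
    have h1 : Set.range i ⊆ (bad.roots.toFinset : Set L) := by
      rintro _ ⟨a, rfl⟩
      rw [Finset.mem_coe, Multiset.mem_toFinset, mem_roots hbad0]
      exact hc a
    exact (Set.infinite_range_of_injective i.injective) ((Finset.finite_toSet _).subset h1)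
  refine ⟨a, ?_⟩
  rw [← PerfectField.separable_iff_squarefree]
  obtain ⟨G, hG⟩ : ∃ G, G = W - 2 * C a * V - C (a ^ 2) * U := ⟨_, rfl⟩
  rw [← hG]
  have h1 : IsCoprime G (derivative G) := by
    refine (Polynomial.isCoprime_iff_aeval_ne_zero_of_isAlgClosed K L G (derivative G)).2 ?_
    intro x
    by_contra hc
    push Not at hc
    obtain ⟨c1, c2⟩ := hc
    rw [aeval_def, ← hi, hG] at c1 c2
    rw [derivative_sub, derivative_sub, derivative_C_mul, mul_assoc, show (2 : K[X]) = C 2 from rfl,
      derivative_C_mul, derivative_C_mul] at c2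
    rw [mul_assoc, show (2 : K[X]) = C 2 from rfl] at c1
    simp only [eval₂_sub, eval₂_mul, eval₂_C] at c1 c2
    simp only [map_pow, map_ofNat] at c1 c2
    have hRx : eval₂ i x R = 0 := by
      rw [hR]
      rw [show (4 : K[X]) = C 4 from rfl]
      simp only [eval₂_sub, eval₂_add, eval₂_mul, eval₂_pow, eval₂_C]
      simp only [map_ofNat]
      generalize eval₂ i x U = u at *
      generalize eval₂ i x V = v at *
      generalize eval₂ i x W = w at *
      generalize eval₂ i x (derivative U) = u' at *
      generalize eval₂ i x (derivative V) = v' at *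
      generalize eval₂ i x (derivative W) = w' at *
      generalize i a = t at *
      have e1 : w * u' - w' * u = 2 * t * (v * u' - v' * u) := by
        linear_combination u' * c1 - u * c2
      rw [e1]
      linear_combination (-4 * (v * u' - v' * u) ^ 2) * c1
    apply ha
    rw [hbad, eval_prod]
    apply Finset.prod_eq_zero (i := x)
    · rw [Multiset.mem_toFinset, mem_roots hRi, IsRoot.def, eval_map]
      exact hRx
    · rw [hq]
      simp only [eval_sub, eval_mul, eval_C, eval_X, eval_pow]
      linear_combination c1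
  exact h1

end Pool.Agent.K9h33.ORQ
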