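import Pool.Agent.N823.PF.Gf
import Pool.Agent.K9h33.ORQ.St

/-!
The conditions at the small prime ideals, with regularity at the prime ideals over `2`. Adapted from
`N823/PF/Gf.lean` (helper823) and `K9h33/ORP/Gf3.lean` (helper33).
-/

set_option autoImplicit false

open Polynomial NumberField IsDedekindDomain

namespace Pool.Agent.K9h33.ORQ

open Pool.Agent.N352.PF

/-- regularity depends on the coefficients modulo `𝔭 ^ 2` only -/
theorem rg_congr {F : Type} [Field F] [NumberField F] {𝔭 : Ideal (𝓞 F)} {f f' : (𝓞 F)[X]}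
    (h : ∀ j, (f - f').coeff j ∈ 𝔭 ^ 2) (hf : Rg 𝔭 f') : Rg 𝔭 f := by
  obtain ⟨s, r, q, c, hc, hc2, hj⟩ := hf
  refine ⟨s, r, q, c, hc, hc2, fun j => ?_⟩
  have e : f - (s ^ 2 + X * r ^ 2 + C c * (1 - r * q)) =
      (f - f') + (f' - (s ^ 2 + X * r ^ 2 + C c * (1 - r * q))) := by ring
  rw [e, coeff_add]
  exact Ideal.add_mem _ (h j) (hj j)

/-- even and odd indices -/
lemma sum_even_odd {A : Type} [AddCommMonoid A] (u : ℕ → A) (g : ℕ) :
    ∑ i ∈ Finset.range (2 * g), u i =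
      ∑ i ∈ Finset.range g, u (2 * i) + ∑ i ∈ Finset.range g, u (2 * i + 1) := by
  induction g with
  | zero => simp
  | succ g ih =>
    rw [show 2 * (g + 1) = 2 * g + 1 + 1 by ring, Finset.sum_range_succ, Finset.sum_range_succ, ih,
      Finset.sum_range_succ, Finset.sum_range_succ]
    abel

/-- a polynomial of degree less than `n` -/
lemma natDegree_sum_lt (R : Type) [CommRing R] (a : ℕ → R) (n : ℕ) :
    (∑ i ∈ Finset.range (n + 1), C (a i) * X ^ i : R[X]).natDegree ≤ n := by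
  refine natDegree_sum_le_of_forall_le _ _ fun i hi => ?_
  refine (natDegree_C_mul_X_pow_le _ _).trans ?_
  have := Finset.mem_range.1 hi
  omega

/-- square roots of the coefficients -/
lemma sq_sum (k : Type) [CommRing k] [Nontrivial k] (h2 : (2 : k) = 0) (a : ℕ → k) (n : ℕ) :
    (∑ i ∈ Finset.range n, C (a i) * X ^ i : k[X]) ^ 2 =
      ∑ i ∈ Finset.range n, C (a i ^ 2) * X ^ (2 * i) := by
  have : CharP k 2 := CharTwo.of_one_ne_zero_of_two_eq_zero one_ne_zero h2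
  rw [sum_pow_char]
  refine Finset.sum_congr rfl fun i _ => ?_
  rw [mul_pow, ← C_pow, ← pow_mul, mul_comm i 2]

/-- the coefficients of a monic polynomial of odd degree -/
lemma monic_split (R : Type) [CommRing R] (g : ℕ) (f : R[X]) (hm : f.Monic)
    (hd : f.natDegree = 2 * g + 1) (hc : f.coeff (2 * g) = 0) :
    f = (∑ i ∈ Finset.range g, C (f.coeff (2 * i)) * X ^ (2 * i)) +
      X * (X ^ (2 * g) + ∑ i ∈ Finset.range g, C (f.coeff (2 * i + 1)) * X ^ (2 * i)) := by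
  conv_lhs => rw [hm.as_sum, hd, Finset.sum_range_succ, hc, C_0, zero_mul, add_zero, sum_even_odd]
  rw [mul_add, Finset.mul_sum, ← pow_succ']
  have : ∀ i ∈ Finset.range g, C (f.coeff (2 * i + 1)) * X ^ (2 * i + 1) =
      X * (C (f.coeff (2 * i + 1)) * X ^ (2 * i)) := fun i _ => by ring
  rw [Finset.sum_congr rfl this]
  ring

/-- the degree and the coefficient of the polynomial -/
lemma deg_and_coeff (R : Type) [CommRing R] [Nontrivial R] (n : ℕ) (s T : R[X]) (c d : R)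
    (hs : s.natDegree ≤ n) (hT : T.natDegree ≤ n) :
    (s ^ 2 + X * (X ^ (n + 1) + T) ^ 2 +
      C c * (1 - (X ^ (n + 1) + T) * (C d * X ^ (n + 1))) : R[X]).Monic ∧
    (s ^ 2 + X * (X ^ (n + 1) + T) ^ 2 +
      C c * (1 - (X ^ (n + 1) + T) * (C d * X ^ (n + 1))) : R[X]).natDegree = 2 * (n + 1) + 1 ∧
    (s ^ 2 + X * (X ^ (n + 1) + T) ^ 2 +
      C c * (1 - (X ^ (n + 1) + T) * (C d * X ^ (n + 1))) : R[X]).coeff (2 * (n + 1)) =
      2 * T.coeff n - c * d := by
  have hs2 : (s ^ 2).natDegree ≤ 2 * n := natDegree_pow_le_of_le 2 hs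
  have hT2 : (T ^ 2).natDegree ≤ 2 * n := natDegree_pow_le_of_le 2 hT
  obtain ⟨P, hP⟩ : ∃ P : R[X], P = s ^ 2 + X * (2 * T * X ^ (n + 1) + T ^ 2) +
    C c * (1 - (X ^ (n + 1) + T) * (C d * X ^ (n + 1))) := ⟨_, rfl⟩
  have he : s ^ 2 + X * (X ^ (n + 1) + T) ^ 2 +
      C c * (1 - (X ^ (n + 1) + T) * (C d * X ^ (n + 1))) = X ^ (2 * (n + 1) + 1) + P := by
    rw [hP]
    ring
  have h1 : ((X ^ (n + 1) + T) * (C d * X ^ (n + 1)) : R[X]).natDegree ≤ 2 * (n + 1) := by
    refine natDegree_mul_le_of_le (m := n + 1) (n := n + 1) ?_ (natDegree_C_mul_X_pow_le _ _) |>.trans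
      (by omega)
    refine natDegree_add_le_of_degree_le (natDegree_X_pow_le _) (hT.trans (by omega))
  have h2 : (2 * T * X ^ (n + 1) + T ^ 2 : R[X]).natDegree ≤ 2 * n + 1 := by
    refine natDegree_add_le_of_degree_le ?_ (hT2.trans (by omega))
    refine (natDegree_mul_le_of_le (m := n) (n := n + 1) ?_ (natDegree_X_pow_le _)).trans (by omega)
    have : (2 * T : R[X]) = C 2 * T := by rw [map_ofNat]
    rw [this]
    exact (natDegree_C_mul_le _ _).trans hT
  have hPd : P.natDegree ≤ 2 * (n + 1) := by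
    rw [hP]
    refine natDegree_add_le_of_degree_le (natDegree_add_le_of_degree_le (hs2.trans (by omega)) ?_) ?_
    · refine (natDegree_mul_le_of_le natDegree_X_le h2).trans (by omega)
    · refine (natDegree_C_mul_le _ _).trans ?_
      refine (natDegree_sub_le_of_le (m := 0) natDegree_one.le h1).trans (by omega)
  have hPd2 : P.degree < ((2 * (n + 1) + 1 : ℕ) : WithBot ℕ) :=
    lt_of_le_of_lt (degree_le_of_natDegree_le hPd)
      (by exact_mod_cast (by omega : 2 * (n + 1) < 2 * (n + 1) + 1))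
  refine ⟨?_, ?_, ?_⟩
  · rw [he]
    exact monic_X_pow_add hPd2
  · rw [he, natDegree_add_eq_left_of_degree_lt (by rw [degree_X_pow]; exact hPd2), natDegree_X_pow]
  · rw [he, coeff_add, coeff_X_pow, if_neg (by omega), zero_add, hP, coeff_add, coeff_add,
      coeff_eq_zero_of_natDegree_lt (lt_of_le_of_lt hs2 (by omega : 2 * n < 2 * (n + 1))), zero_add,
      show 2 * (n + 1) = (2 * n + 1) + 1 by ring, coeff_X_mul, coeff_add,
      coeff_eq_zero_of_natDegree_lt (lt_of_le_of_lt hT2 (by omega : 2 * n < 2 * n + 1)), add_zero,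
      show 2 * n + 1 = n + (n + 1) by ring, coeff_mul_X_pow, coeff_C_mul, coeff_sub, coeff_one,
      if_neg (by omega), zero_sub, ← mul_assoc,
      show n + (n + 1) + 1 = (n + 1) + (n + 1) by ring, coeff_mul_X_pow, coeff_mul_C, coeff_add,
      coeff_X_pow, if_pos rfl,
      coeff_eq_zero_of_natDegree_lt (lt_of_le_of_lt hT (by omega : n < n + 1)), add_zero, one_mul]
    have : (2 * T : R[X]).coeff n = 2 * T.coeff n := by
      have e : (2 * T : R[X]) = C 2 * T := by rw [map_ofNat]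
      rw [e, coeff_C_mul]
    rw [this]
    ring

/-- the reduction of the polynomial -/
lemma red_eq {R k : Type} [CommRing R] [CommRing k] [Nontrivial k] (φ : R →+* k) (h2 : (2 : k) = 0)
    (n : ℕ) (fb : k[X]) (hf1 : fb.Monic) (hf2 : fb.natDegree = 2 * (n + 1) + 1)
    (hf3 : fb.coeff (2 * (n + 1)) = 0) (a : ℕ → R) (ha : ∀ i, φ (a i) ^ 2 = fb.coeff i) (c : R)
    (hc : φ c = 0) (Q : R[X]) :
    ((∑ i ∈ Finset.range (n + 1), C (a (2 * i)) * X ^ i) ^ 2 +
      X * (X ^ (n + 1) + ∑ i ∈ Finset.range (n + 1), C (a (2 * i + 1)) * X ^ i) ^ 2 +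
      C c * Q : R[X]).map φ = fb := by
  have hb := monic_split _ (n + 1) fb hf1 hf2 hf3
  have hm : ∀ u : ℕ → R, (∑ i ∈ Finset.range (n + 1), C (u i) * X ^ i : R[X]).map φ =
      ∑ i ∈ Finset.range (n + 1), C (φ (u i)) * X ^ i := fun u => by
    rw [Polynomial.map_sum]
    refine Finset.sum_congr rfl fun i _ => ?_
    rw [Polynomial.map_mul, map_C, Polynomial.map_pow, map_X]
  have hs := sq_sum k h2 (fun i => φ (a (2 * i))) (n + 1)
  have hT := sq_sum k h2 (fun i => φ (a (2 * i + 1))) (n + 1)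
  simp only [ha] at hs hT
  have h20 : (2 : k[X]) = 0 := by
    have := congrArg (C : k → k[X]) h2
    rwa [C_0, map_ofNat] at this
  rw [Polynomial.map_add, Polynomial.map_add, Polynomial.map_mul φ, Polynomial.map_mul φ, map_C, hc,
    C_0, zero_mul, add_zero, Polynomial.map_pow, Polynomial.map_pow, Polynomial.map_add,
    Polynomial.map_pow, map_X, hm (fun i => a (2 * i)), hm (fun i => a (2 * i + 1)), hs]
  conv_rhs => rw [hb]
  rw [← hT]
  congr 2
  linear_combination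
    (X ^ (n + 1) * ∑ i ∈ Finset.range (n + 1), C (φ (a (2 * i + 1))) * X ^ i) * h20

/-- square roots modulo a prime ideal over `2` -/
lemma exists_sqrt {F : Type} [Field F] [NumberField F] (v : HeightOneSpectrum (𝓞 F))
    (h2 : (2 : 𝓞 F) ∈ v.asIdeal) (x : 𝓞 F ⧸ v.asIdeal) :
    ∃ y : 𝓞 F, Ideal.Quotient.mk v.asIdeal y ^ 2 = x := by
  have hmax : v.asIdeal.IsMaximal := v.isMaximal
  letI : Field (𝓞 F ⧸ v.asIdeal) := Ideal.Quotient.field v.asIdeal
  have hfin : Finite (𝓞 F ⧸ v.asIdeal) := Ideal.finiteQuotientOfFreeOfNeBot v.asIdeal v.ne_bot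
  have h20 : (2 : 𝓞 F ⧸ v.asIdeal) = 0 := by
    have h6 := Ideal.Quotient.eq_zero_iff_mem.2 h2
    rwa [map_ofNat] at h6
  have : CharP (𝓞 F ⧸ v.asIdeal) 2 :=
    CharTwo.of_one_ne_zero_of_two_eq_zero one_ne_zero h20
  obtain ⟨z, hz⟩ := (frobeniusEquiv (𝓞 F ⧸ v.asIdeal) 2).surjective x
  obtain ⟨y, hy⟩ := Ideal.Quotient.mk_surjective z
  refine ⟨y, ?_⟩
  rw [hy, ← hz, frobeniusEquiv_apply, frobenius_def]

/-- a prime ideal over `2` -/
theorem fv2 (F : Type) [Field F] [NumberField F] (n : ℕ) (v : HeightOneSpectrum (𝓞 F))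
    (h2 : (2 : 𝓞 F) ∈ v.asIdeal) (fb : (𝓞 F ⧸ v.asIdeal)[X]) (hf1 : fb.Monic)
    (hf2 : fb.natDegree = 2 * (n + 1) + 1) (hf3 : fb.coeff (2 * (n + 1)) = 0) :
    ∃ f : (𝓞 F)[X], f.Monic ∧ f.natDegree = 2 * (n + 1) + 1 ∧
      f.coeff (2 * (n + 1)) ∈ v.asIdeal ^ 2 ∧ rv v f = fb ∧ Rg v.asIdeal f := by
  have hnt : Nontrivial (𝓞 F ⧸ v.asIdeal) := Ideal.Quotient.nontrivial_iff.mpr v.isPrime.ne_top
  have h20 : (2 : 𝓞 F ⧸ v.asIdeal) = 0 := by
    have h6 := Ideal.Quotient.eq_zero_iff_mem.2 h2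
    rwa [map_ofNat] at h6
  choose σ hσ using exists_sqrt v h2
  obtain ⟨s, hs⟩ : ∃ s : (𝓞 F)[X],
    s = ∑ i ∈ Finset.range (n + 1), C (σ (fb.coeff (2 * i))) * X ^ i := ⟨_, rfl⟩
  obtain ⟨T, hT⟩ : ∃ T : (𝓞 F)[X],
    T = ∑ i ∈ Finset.range (n + 1), C (σ (fb.coeff (2 * i + 1))) * X ^ i := ⟨_, rfl⟩
  have hsd : s.natDegree ≤ n := by
    rw [hs]
    exact natDegree_sum_lt _ _ _
  have hTd : T.natDegree ≤ n := by
    rw [hT]
    exact natDegree_sum_lt _ _ _
  obtain ⟨c, hc1, hc2⟩ := Ideal.exists_mem_pow_notMem_pow_succ v.asIdeal v.ne_bot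
    v.isPrime.ne_top 1
  have hp := v.isPrime
  obtain ⟨d, e, he, hde⟩ := Ideal.exists_mul_add_mem_pow_succ (P := v.asIdeal) v.ne_bot (i := 1)
    c (2 * T.coeff n) hc1 hc2 (by rw [pow_one]; exact Ideal.mul_mem_right _ _ h2)
  rw [pow_one] at hc1
  have hc0 : Ideal.Quotient.mk v.asIdeal c = 0 := Ideal.Quotient.eq_zero_iff_mem.2 hc1
  obtain ⟨m1, m2, m3⟩ := deg_and_coeff (𝓞 F) n s T c d hsd hTd
  have hred := red_eq (Ideal.Quotient.mk v.asIdeal) h20 n fb hf1 hf2 hf3
    (fun i => σ (fb.coeff i)) (fun i => hσ _) c hc0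
    (1 - (X ^ (n + 1) + T) * (C d * X ^ (n + 1)))
  rw [← hs, ← hT] at hred
  refine ⟨_, m1, m2, ?_, hred, s, X ^ (n + 1) + T, C d * X ^ (n + 1), c, hc1, hc2, fun j => ?_⟩
  · rw [m3, ← hde, add_sub_cancel_left]
    exact he
  · rw [sub_self, coeff_zero]
    exact Ideal.zero_mem _

/-- one prime ideal -/
theorem fv : S_FV := by
  intro F _ _ g hg v
  obtain ⟨fb, hf1, hf2, hf3, hf4, hf5⟩ := Pool.Agent.N823.PF.exists_v F g hg v
  by_cases h2 : (2 : 𝓞 F) ∈ v.asIdeal
  · obtain ⟨n, rfl⟩ : ∃ n, g = n + 1 := ⟨g - 1, by omega⟩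
    obtain ⟨f, h3, h4, h5, h6, h7⟩ := fv2 F n v h2 fb hf1 hf2 hf3
    refine ⟨f, h3, h4, h5, ?_, fun _ => ⟨?_, h7⟩⟩
    · rw [h6]
      exact hf4
    · rw [h6]
      exact hf5 h2
  · choose σ hσ using Ideal.Quotient.mk_surjective (I := v.asIdeal)
    have hPd : (∑ i ∈ Finset.range (2 * g), C (σ (fb.coeff i)) * X ^ i : (𝓞 F)[X]).degree <
        ((2 * g : ℕ) : WithBot ℕ) := by
      refine lt_of_le_of_lt (degree_sum_le _ _) ?_
      rw [Finset.sup_lt_iff (WithBot.bot_lt_coe _)]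
      intro i hi
      refine lt_of_le_of_lt (degree_C_mul_X_pow_le _ _) ?_
      exact_mod_cast Finset.mem_range.mp hi
    have hPd2 : (∑ i ∈ Finset.range (2 * g), C (σ (fb.coeff i)) * X ^ i : (𝓞 F)[X]).degree <
        ((2 * g + 1 : ℕ) : WithBot ℕ) :=
      hPd.trans (by exact_mod_cast (by omega : 2 * g < 2 * g + 1))
    refine ⟨X ^ (2 * g + 1) + ∑ i ∈ Finset.range (2 * g), C (σ (fb.coeff i)) * X ^ i,
      monic_X_pow_add hPd2, ?_, ?_, ?_, fun h => absurd h h2⟩
    · rw [natDegree_add_eq_left_of_degree_lt (by rw [degree_X_pow]; exact hPd2), natDegree_X_pow]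
    · rw [coeff_add, coeff_X_pow, if_neg (by omega), coeff_eq_zero_of_degree_lt hPd, add_zero]
      exact Ideal.zero_mem _
    · have hmap : rv v (X ^ (2 * g + 1) + ∑ i ∈ Finset.range (2 * g), C (σ (fb.coeff i)) * X ^ i) =
          fb := by
        conv_rhs => rw [hf1.as_sum, hf2]
        rw [rv, Polynomial.map_add, Polynomial.map_pow, map_X, Polynomial.map_sum]
        congr 1
        rw [Finset.sum_range_succ, hf3, C_0, zero_mul, add_zero]
        refine Finset.sum_congr rfl fun i _ => ?_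
        rw [Polynomial.map_mul, map_C, Polynomial.map_pow, map_X, hσ]
      rw [hmap]
      exact hf4

theorem gfR : S_GFR := by
  intro F _ _ g M hg
  classical
  set W : ℕ := 2 * primorial (max M 2) with hW
  have hWp : ∀ p : ℕ, p.Prime → p ≤ max M 2 → p ∣ primorial (max M 2) := fun p hp h =>
    (hp.dvd_primorial_iff).mpr h
  have hW0 : 0 < W := Nat.mul_pos two_pos (primorial_pos _)
  choose f hf1 hf2 hf3 hf4 hf5 using fv F g hg
  have hWne : Ideal.span {(W : 𝓞 F)} ≠ 0 := by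
    rw [Ne, Ideal.zero_eq_bot, Ideal.span_singleton_eq_bot]
    exact_mod_cast hW0.ne'
  have hfinS := Ideal.finite_factors hWne
  set T : Finset (HeightOneSpectrum (𝓞 F)) := hfinS.toFinset with hT
  have hmem : ∀ v : HeightOneSpectrum (𝓞 F), (W : 𝓞 F) ∈ v.asIdeal → v ∈ T := by
    intro v hv
    rw [hT, Set.Finite.mem_toFinset, Set.mem_ofPred_eq, Ideal.dvd_span_singleton]
    exact hv
  have hcrt : ∀ j : ℕ, ∃ a : 𝓞 F, ∀ v ∈ T, a - (f v).coeff j ∈ v.asIdeal ^ 2 := by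
    intro j
    obtain ⟨a, ha⟩ := IsDedekindDomain.exists_forall_sub_mem_ideal (s := T)
      (fun v => v.asIdeal) (fun _ => 2) (fun v _ => v.prime)
      (fun v _ w _ hvw h => hvw (HeightOneSpectrum.ext h)) (fun v => (f v).coeff j)
    exact ⟨a, fun v hv => ha v hv⟩
  choose a ha using hcrt
  set P : (𝓞 F)[X] := ∑ i ∈ Finset.range (2 * g), C (a i) * X ^ i with hP
  have hPd : P.degree < ((2 * g : ℕ) : WithBot ℕ) := by
    rw [hP]
    refine lt_of_le_of_lt (degree_sum_le _ _) ?_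
    rw [Finset.sup_lt_iff (WithBot.bot_lt_coe _)]
    intro i hi
    refine lt_of_le_of_lt (degree_C_mul_X_pow_le _ _) ?_
    exact_mod_cast Finset.mem_range.mp hi
  have hPd2 : P.degree < ((2 * g + 1 : ℕ) : WithBot ℕ) :=
    hPd.trans (by exact_mod_cast (by omega : 2 * g < 2 * g + 1))
  have hnd : (X ^ (2 * g + 1) + P).natDegree = 2 * g + 1 := by
    rw [natDegree_add_eq_left_of_degree_lt (by rw [degree_X_pow]; exact hPd2), natDegree_X_pow]
  have hmon : (X ^ (2 * g + 1) + P).Monic := monic_X_pow_add hPd2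
  have hPc : ∀ j < 2 * g, P.coeff j = a j := by
    intro j hj
    rw [hP, finsetSum_coeff]
    simp only [coeff_C_mul, coeff_X_pow]
    rw [Finset.sum_eq_single j]
    · simp
    · intro b _ hb
      rw [if_neg (Ne.symm hb), mul_zero]
    · intro hn
      exact absurd (Finset.mem_range.2 hj) hn
  have htr : (X ^ (2 * g + 1) + P).coeff (2 * g) = 0 := by
    rw [coeff_add, coeff_X_pow, if_neg (by omega), coeff_eq_zero_of_degree_lt hPd, add_zero]
  have hcon : ∀ v ∈ T, ∀ j, (X ^ (2 * g + 1) + P - f v).coeff j ∈ v.asIdeal ^ 2 := by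
    intro v hv j
    rw [coeff_sub]
    rcases lt_trichotomy j (2 * g) with hj | hj | hj
    · rw [coeff_add, coeff_X_pow, if_neg (by omega), zero_add, hPc j hj]
      exact ha j v hv
    · rw [hj, htr, zero_sub]
      exact (Ideal.neg_mem_iff _).2 (hf3 v)
    · rcases Nat.lt_or_ge (2 * g + 1) j with hj2 | hj2
      · rw [coeff_eq_zero_of_natDegree_lt (by rw [hnd]; exact hj2),
          coeff_eq_zero_of_natDegree_lt (by rw [hf2 v]; exact hj2), sub_zero]
        exact Ideal.zero_mem _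
      · have hj3 : j = 2 * g + 1 := by omega
        have e1 : (X ^ (2 * g + 1) + P).coeff j = 1 := by
          have := hmon.coeff_natDegree
          rw [hnd] at this
          rw [hj3, this]
        have e2 : (f v).coeff j = 1 := by
          have := (hf1 v).coeff_natDegree
          rw [hf2 v] at this
          rw [hj3, this]
        rw [e1, e2, sub_self]
        exact Ideal.zero_mem _
  have hmap : ∀ v ∈ T, rv v (X ^ (2 * g + 1) + P) = rv v (f v) := by
    intro v hv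
    refine Polynomial.ext fun j => ?_
    rw [coeff_map, coeff_map]
    refine Ideal.Quotient.eq.2 ?_
    rw [← coeff_sub]
    exact Ideal.pow_le_self two_ne_zero (hcon v hv j)
  have h2W : 2 ∣ W := ⟨_, hW⟩
  have h4W : 4 ∣ W := by
    obtain ⟨m, hm⟩ := hWp 2 Nat.prime_two (le_max_right _ _)
    refine ⟨m, ?_⟩
    rw [hW, hm]
    ring
  have h2v : ∀ v : HeightOneSpectrum (𝓞 F), (2 : 𝓞 F) ∈ v.asIdeal → (W : 𝓞 F) ∈ v.asIdeal := by
    intro v hv
    obtain ⟨m, hm⟩ := h2W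
    rw [hm, Nat.cast_mul, Nat.cast_ofNat]
    exact Ideal.mul_mem_right _ _ hv
  refine ⟨W, X ^ (2 * g + 1) + P, hmon, hnd, htr, hW0, h4W, ?_, ?_, ?_,
    fun p hp hpM => (hWp p hp (hpM.trans (le_max_left _ _))).trans (Dvd.intro_left _ rfl)⟩
  · intro v hv
    rw [hmap v (hmem v (h2v v hv))]
    exact (hf5 v hv).1
  · intro v hv
    exact rg_congr (hcon v (hmem v (h2v v hv))) (hf5 v hv).2
  · intro v hv
    rw [hmap v (hmem v hv)]
    exact hf4 v

end Pool.Agent.K9h33.ORQ
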