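import Pool.Agent.K9h33.ORQ.Glob

/-!
The ideal of an affine point is not equivalent to a high power of two.
-/

set_option autoImplicit false

namespace Pool.Agent.K9h33.ORQ

open Polynomial

section fld

variable {K : Type} [Field K] {h : K[X]}

lemma io_dvd {A B : K[X]} (hd : io h A ∣ io h B) : A ∣ B := by
  obtain ⟨t, ht⟩ := hd
  refine ⟨c0 h t, ?_⟩
  have := congrArg (c0 h) ht
  rwa [(co_io _).1, (co_io_mul _ _).1] at this

/-- the norm of the quotient of a principal ideal -/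
theorem norm_gen (hdom : IsDomain (CR h)) (h2 : (2 : K) ≠ 0) (hsq : Squarefree h) {a b : K}
    (hab : b ^ 2 = h.eval a) (N : ℕ) {I : Ideal (CR h)} (hI : I ≠ ⊥) {w₀ : CR h}
    (hw : UV h (X - C a) (C b) * I ^ N = Ideal.span {w₀}) :
    ∃ (U V : K[X]) (μ : K) (w₁ : CR h), U ≠ 0 ∧ U ∣ h - V ^ 2 ∧ μ ≠ 0 ∧ w₁ ∈ UV h U V ^ N ∧
      nm h w₁ = C μ * ((X - C a) * U ^ N) := by
  obtain ⟨c, U, V, hc, hU, hUV, rfl⟩ := normal_form I hI hdom
  have hioc : io h c ≠ 0 := by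
    intro h0
    have := (co_io (h := h) c).1
    rw [h0] at this
    have h3 := (co_io (h := h) (0 : K[X])).1
    rw [map_zero, this] at h3
    exact hc h3
  rw [mul_pow, Ideal.span_singleton_pow] at hw
  have h1 : w₀ ∈ Ideal.span {io h c ^ N} * (UV h (X - C a) (C b) * UV h U V ^ N) := by
    rw [mul_left_comm, hw]
    exact Ideal.mem_span_singleton_self _
  obtain ⟨w₁, hw₁, rfl⟩ := Ideal.mem_span_singleton_mul.1 h1
  have h3 : UV h (X - C a) (C b) * UV h U V ^ N = Ideal.span {w₁} := by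
    rw [← Ideal.span_singleton_mul_span_singleton, mul_left_comm] at hw
    exact (Ideal.span_singleton_mul_right_inj (pow_ne_zero N hioc)).1 hw
  have hP : X - C a ∣ h - C b ^ 2 := by
    rw [dvd_iff_isRoot, IsRoot.def, eval_sub, eval_pow, eval_C, hab, sub_self]
  have h4 : Ideal.span {io h ((X - C a) * U ^ N)} = Ideal.span {io h (nm h w₁)} := by
    have h5 := congrArg (Ideal.map (cj h)) h3
    rw [Ideal.map_mul, Ideal.map_pow, Ideal.map_span, Set.image_singleton] at h5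
    rw [← mul_cj, ← Ideal.span_singleton_mul_span_singleton, ← h3, ← h5, map_mul, map_pow,
      ← Ideal.span_singleton_mul_span_singleton, ← Ideal.span_singleton_pow, ← UV_mul h2 hsq hP,
      ← UV_mul h2 hsq hUV, mul_pow]
    exact mul_mul_mul_comm _ _ _ _
  rw [Ideal.span_singleton_eq_span_singleton] at h4
  have h5 : Associated ((X - C a) * U ^ N) (nm h w₁) :=
    associated_of_dvd_dvd (io_dvd h4.dvd) (io_dvd h4.symm.dvd)
  obtain ⟨μ, hμ⟩ := h5
  obtain ⟨m, hm, hm'⟩ := Polynomial.isUnit_iff.1 μ.isUnit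
  refine ⟨U, V, m, w₁, hU, hUV, hm.ne_zero, ?_, ?_⟩
  · have h6 : w₁ ∈ UV h (X - C a) (C b) * UV h U V ^ N := by
      rw [h3]
      exact Ideal.mem_span_singleton_self _
    have h7 : UV h (X - C a) (C b) * UV h U V ^ N ≤ UV h U V ^ N := Ideal.mul_le_right
    exact h7 h6
  · rw [← hμ, ← hm']
    ring

end fld

variable {O k K : Type} [CommRing O] [IsDomain O] [IsNoetherianRing O] [Field k] [Field K] {π : O}
  {φ : O →+* k} {j : O →+* K} {f : O[X]} {fK : K[X]} {fb : k[X]} {g : ℕ}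

/-- primitive form of a polynomial -/
lemma prim_poly (D : DV π φ) (hj : Function.Injective j)
    (hK : ∀ x : K, ∃ (n : ℕ) (y : O), j π ^ n * x = j y) {P : K[X]} (hP : P ≠ 0) :
    ∃ (Q : O[X]) (c : K), Q.map φ ≠ 0 ∧ c ≠ 0 ∧ Q.map j = C c * P := by
  have hjπ : j π ≠ 0 := by
    rw [Ne, map_eq_zero_iff j hj]
    exact D.ne
  obtain ⟨n, Q, hQ⟩ := sc_poly hK P
  have hQ0 : Q ≠ 0 := by
    rintro rfl
    rw [Polynomial.map_zero] at hQ
    exact mul_ne_zero (pow_ne_zero n (C_ne_zero.2 hjπ)) hP hQ.symm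
  obtain ⟨m, Q', hQ', hQ'0⟩ := sep_poly D hQ0
  refine ⟨Q', (j π ^ m)⁻¹ * j π ^ n, hQ'0, mul_ne_zero (inv_ne_zero (pow_ne_zero m hjπ))
    (pow_ne_zero n hjπ), ?_⟩
  rw [hQ', Polynomial.map_mul, Polynomial.map_pow, map_C] at hQ
  have h1 : (C ((j π ^ m)⁻¹) * C (j π) ^ m : K[X]) = 1 := by
    rw [← C_pow, ← C_mul, inv_mul_cancel₀ (pow_ne_zero m hjπ), C_1]
  rw [C_mul, mul_assoc, C_pow, ← hQ, ← mul_assoc, h1, one_mul]

/-- primitive form of an element -/
lemma prim_cr (D : DV π φ) (eK : f.map j = fK) (e : f.map φ = fb) (hj : Function.Injective j)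
    (hK : ∀ x : K, ∃ (n : ℕ) (y : O), j π ^ n * x = j y) {z : CR fK} (hz : z ≠ 0) :
    ∃ (w : CR f) (c : K), mp φ e w ≠ 0 ∧ c ≠ 0 ∧ mp j eK w = io fK (C c) * z := by
  have hjπ : j π ≠ 0 := by
    rw [Ne, map_eq_zero_iff j hj]
    exact D.ne
  obtain ⟨n, w, hw⟩ := sc_cr eK hK z
  have h1 : ∀ m : ℕ, io fK (C ((j π ^ m)⁻¹)) * io fK (C (j π)) ^ m = 1 := by
    intro m
    have h3 : io fK (C (j π)) ^ m = io fK (C (j π ^ m)) := by rw [C_pow, map_pow]
    rw [h3, ← map_mul, ← C_mul, inv_mul_cancel₀ (pow_ne_zero m hjπ), C_1, map_one]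
  have hw0 : w ≠ 0 := by
    rintro rfl
    rw [map_zero] at hw
    apply hz
    have h2 := h1 n
    calc z = io fK (C ((j π ^ n)⁻¹)) * (io fK (C (j π)) ^ n * z) := by rw [← mul_assoc, h2, one_mul]
      _ = 0 := by rw [← hw, mul_zero]
  obtain ⟨m, w', hw', hw'0⟩ := sep_cr e D hw0
  refine ⟨w', (j π ^ m)⁻¹ * j π ^ n, hw'0, mul_ne_zero (inv_ne_zero (pow_ne_zero m hjπ))
    (pow_ne_zero n hjπ), ?_⟩
  rw [hw', J_pi] at hw
  rw [C_mul, map_mul, mul_assoc, C_pow, map_pow, ← hw, ← mul_assoc, h1, one_mul]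

/-- the valuation ring property -/
lemma val_ring (D : DV π φ) (hj : Function.Injective j)
    (hK : ∀ x : K, ∃ (n : ℕ) (y : O), j π ^ n * x = j y) (a : K) :
    (∃ a', a = j a') ∨ ∃ α : O, α ≠ 0 ∧ φ α = 0 ∧ a * j α = 1 := by
  have hjπ : j π ≠ 0 := by
    rw [Ne, map_eq_zero_iff j hj]
    exact D.ne
  obtain ⟨n, y, hy⟩ := hK a
  by_cases hy0 : y = 0
  · left
    refine ⟨0, ?_⟩
    rw [hy0, map_zero] at hy
    rw [map_zero]
    exact (mul_eq_zero.1 hy).resolve_left (pow_ne_zero n hjπ)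
  have h1 : (C y : O[X]) ≠ 0 := C_ne_zero.2 hy0
  obtain ⟨m, Q, hQ, hQ0⟩ := sep_poly D h1
  have h2 := congrArg (fun P : O[X] => P.coeff 0) hQ
  simp only [coeff_C_zero, ← C_pow, coeff_C_mul] at h2
  have h3 : φ (Q.coeff 0) ≠ 0 := by
    intro h0
    apply hQ0
    ext i
    rcases i with _ | i
    · rw [coeff_map, h0, coeff_zero]
    · have h4 := congrArg (fun P : O[X] => P.coeff (i + 1)) hQ
      simp only [coeff_C_succ, ← C_pow, coeff_C_mul] at h4
      have h5 : Q.coeff (i + 1) = 0 :=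
        (mul_eq_zero.1 h4.symm).resolve_left (pow_ne_zero m D.ne)
      rw [coeff_map, h5, map_zero, coeff_zero]
  obtain ⟨q, hq⟩ : ∃ q, q = Q.coeff 0 := ⟨_, rfl⟩
  rw [← hq] at h2 h3
  rw [h2, map_mul, map_pow] at hy
  rcases le_or_gt n m with hnm | hnm
  · left
    refine ⟨π ^ (m - n) * q, ?_⟩
    apply mul_left_cancel₀ (pow_ne_zero n hjπ)
    rw [hy, map_mul, map_pow, ← mul_assoc, ← pow_add, Nat.add_sub_cancel' hnm]
  · right
    obtain ⟨qi, hqi⟩ := (D.unit q h3).exists_right_inv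
    refine ⟨π ^ (n - m) * qi, ?_, ?_, ?_⟩
    · refine mul_ne_zero (pow_ne_zero _ D.ne) ?_
      rintro rfl
      rw [mul_zero] at hqi
      exact zero_ne_one hqi
    · have hπ : φ π = 0 := (D.ker π).2 dvd_rfl
      rw [map_mul, map_pow, hπ, zero_pow (by omega), zero_mul]
    · apply mul_left_cancel₀ (pow_ne_zero m hjπ)
      have h6 : j q * j qi = 1 := by rw [← map_mul, hqi, map_one]
      have h7 : j π ^ m * j π ^ (n - m) = j π ^ n := by rw [← pow_add, Nat.add_sub_cancel' hnm.le]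
      rw [map_mul, map_pow, mul_one]
      calc j π ^ m * (a * (j π ^ (n - m) * j qi)) = (j π ^ m * j π ^ (n - m)) * a * j qi := by ring
        _ = j π ^ m * (j q * j qi) := by rw [h7, hy]; ring
        _ = j π ^ m := by rw [h6, mul_one]

/-- Gauss: the constant -/
lemma const_lem (D : DV π φ) (hj : Function.Injective j)
    (hK : ∀ x : K, ∃ (n : ℕ) (y : O), j π ^ n * x = j y) {P T : O[X]} (hP : P.map φ ≠ 0)
    (hT : T.map φ ≠ 0) {ν : K} (h : T.map j = C ν * P.map j) :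
    ∃ ν' : O, φ ν' ≠ 0 ∧ T = C ν' * P := by
  obtain ⟨m, ν', hν⟩ := hK ν
  have h1 : P * C ν' = C π ^ m * T := by
    apply Polynomial.map_injective j hj
    rw [Polynomial.map_mul, Polynomial.map_mul, Polynomial.map_pow, map_C, map_C, ← hν, h, C_mul,
      C_pow]
    ring
  obtain ⟨Q, hQ⟩ := pow_dvd_poly D hP m h1
  have h2 := congrArg (fun P : O[X] => P.coeff 0) hQ
  simp only [coeff_C_zero, ← C_pow, coeff_C_mul] at h2
  have hπm : (C (π ^ m) : O[X]) ≠ 0 := C_ne_zero.2 (pow_ne_zero m D.ne)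
  have h3 : T = C (Q.coeff 0) * P := by
    apply mul_left_cancel₀ hπm
    rw [h2, C_mul] at h1
    rw [C_pow] at *
    rw [← h1]
    ring
  refine ⟨Q.coeff 0, ?_, h3⟩
  intro h0
  apply hT
  rw [h3, Polynomial.map_mul, map_C, h0, C_0, zero_mul]

/-- **Main theorem of the section** -/
theorem glob (D : DV π φ) (eK : f.map j = fK) (e : f.map φ = fb) (hj : Function.Injective j)
    (hK : ∀ x : K, ∃ (n : ℕ) (y : O), j π ^ n * x = j y) (h2 : (2 : K) ≠ 0) (hm : f.Monic)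
    (hd : f.natDegree = 2 * g + 1) (hg : 1 ≤ g) (R : Rgl f π φ) (hsq : Squarefree fK) {a b : K}
    (hab : b ^ 2 = fK.eval a) : ∃ n : ℕ, ∀ I : Ideal (CR fK), I ≠ ⊥ → ∀ w₀ : CR fK,
      UV fK (X - C a) (C b) * I ^ 2 ^ (n + 1) ≠ Ideal.span {w₀} := by
  have hdb : fb.natDegree = 2 * g + 1 := by rw [← e, hm.natDegree_map, hd]
  have hdK : fK.natDegree = 2 * g + 1 := by rw [← eK, hm.natDegree_map, hd]
  have hdomb : IsDomain (CR fb) := isDomain_CR (by rw [hdb]; exact ⟨g, rfl⟩)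
  have hdomK : IsDomain (CR fK) := isDomain_CR (by rw [hdK]; exact ⟨g, rfl⟩)
  obtain ⟨ξ, S⟩ := exists_ser hm hd
  -- common preparations
  have main : ∀ (n : ℕ) (I : Ideal (CR fK)), I ≠ ⊥ → ∀ w₀ : CR fK,
      UV fK (X - C a) (C b) * I ^ 2 ^ (n + 1) = Ideal.span {w₀} →
      ∃ (M : Ideal (CR f)) (u : O[X]) (w : CR f) (ν : K), Lat π φ M u ∧ mp φ e w ≠ 0 ∧
        (∃ m : ℕ, io f (C π) ^ m * w ∈ M ^ 2 ^ (n + 1)) ∧
        (nm f w).map j = C ν * ((X - C a) * (u.map j) ^ 2 ^ (n + 1)) := by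
    intro n I hI w₀ hw₀
    obtain ⟨U, V, μ, w₁, hU, hUV, hμ, hw₁, hn⟩ := norm_gen hdomK h2 hsq hab _ hI hw₀
    obtain ⟨U', c, hU', hc, hUU'⟩ := prim_poly D hj hK hU
    have hw₁0 : w₁ ≠ 0 := by
      rintro rfl
      have h3 : nm fK (0 : CR fK) = 0 := by
        have h4 := nm_io fK (0 : K[X])
        rwa [map_zero, zero_pow two_ne_zero] at h4
      rw [h3] at hn
      exact mul_ne_zero (C_ne_zero.2 hμ) (mul_ne_zero (X_sub_C_ne_zero a)
        (pow_ne_zero _ hU)) hn.symm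
    obtain ⟨w, s, hw, hs, hws⟩ := prim_cr D eK e hj hK hw₁0
    refine ⟨(UV fK U V).comap (mp j eK), U', w, s ^ 2 * μ * ((c ^ 2 ^ (n + 1))⁻¹),
      lat_UV eK hK hj e hdomb D h2 hsq hUV hU' hc hUU', hw, ?_, ?_⟩
    · obtain ⟨n₁, w', hw', hw'e⟩ := sc_pow eK hK (sc_comap eK hK (UV fK U V)) (2 ^ (n + 1)) w₁ hw₁
      obtain ⟨m, s', hs'⟩ := hK s
      refine ⟨n₁ + m, ?_⟩
      have h3 : io f (C π) ^ (n₁ + m) * w = io f (C s') * w' := by
        apply mp_inj j eK hj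
        rw [J_pi, map_mul, hw'e, hws, mp_io, map_C, ← hs', C_mul, C_pow, map_mul, map_pow, pow_add]
        ring
      rw [h3]
      exact Ideal.mul_mem_left _ _ hw'
    · rw [← nm_mp j eK, hws, nm_mul, nm_io, hn, hUU', mul_pow, ← C_pow, ← C_pow, C_mul, C_mul]
      have h4 : (C ((c ^ 2 ^ (n + 1))⁻¹) * C (c ^ 2 ^ (n + 1)) : K[X]) = 1 := by
        rw [← C_mul, inv_mul_cancel₀ (pow_ne_zero _ hc), C_1]
      linear_combination (-(C (s ^ 2) * C μ * (X - C a) * U ^ 2 ^ (n + 1))) * h4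
  rcases val_ring D hj hK a with ⟨a', rfl⟩ | ⟨α, hα0, hα, haα⟩
  · refine ⟨0, fun I hI w₀ hw₀ => ?_⟩
    obtain ⟨M, u, w, ν, L, hw, hwM, hnm⟩ := main 0 I hI w₀ hw₀
    have hT : (nm f w).map φ ≠ 0 := by
      intro h0
      rw [← nm_mp φ e] at h0
      have h3 := mul_cj fb (mp φ e w)
      rw [h0, map_zero] at h3
      rcases mul_eq_zero.1 h3 with h4 | h4
      · exact hw h4
      · apply hw
        rw [← cj_cj fb (mp φ e w), h4, map_zero]
    have hP : ((X - C a') * u ^ 2 ^ (0 + 1)).map φ ≠ 0 := by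
      rw [Polynomial.map_mul, Polynomial.map_pow, Polynomial.map_sub, map_X, map_C]
      exact mul_ne_zero (X_sub_C_ne_zero _) (pow_ne_zero _ L.prim)
    obtain ⟨ν', hν', hnm'⟩ := const_lem D hj hK hP hT (ν := ν) (by
      rw [hnm, Polynomial.map_mul, Polynomial.map_pow, Polynomial.map_sub, map_X, map_C])
    obtain ⟨ρ, -, ε, -, -, hε⟩ := affine D e hdb R L 0 hwM (P := C ν' * (X - C a')) (by
      rw [hnm', mul_assoc])
    rw [Polynomial.map_mul, Polynomial.map_sub, map_X, map_C, map_C] at hε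
    have hdeg : (C (φ ν') * (X - C (φ a'))).natDegree = 1 := by
      rw [natDegree_C_mul hν', natDegree_X_sub_C]
    obtain ⟨h5, h6⟩ := deg_nm hdb hg (z := mp φ e ε) (by rw [hε, hdeg])
    rw [nm, h5, zero_pow two_ne_zero, mul_zero, sub_zero] at hε
    rw [← hε, natDegree_pow, h6] at hdeg
    omega
  · obtain ⟨n, hn⟩ := D.sep α hα0
    refine ⟨n, fun I hI w₀ hw₀ => ?_⟩
    obtain ⟨M, u, w, ν, L, hw, hwM, hnm⟩ := main n I hI w₀ hw₀
    have hT : (nm f w).map φ ≠ 0 := by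
      intro h0
      rw [← nm_mp φ e] at h0
      have h3 := mul_cj fb (mp φ e w)
      rw [h0, map_zero] at h3
      rcases mul_eq_zero.1 h3 with h4 | h4
      · exact hw h4
      · apply hw
        rw [← cj_cj fb (mp φ e w), h4, map_zero]
    have hP : ((1 - C α * X) * u ^ 2 ^ (n + 1)).map φ ≠ 0 := by
      rw [Polynomial.map_mul, Polynomial.map_pow, Polynomial.map_sub, Polynomial.map_mul, map_X,
        map_C, hα, C_0, zero_mul, sub_zero, Polynomial.map_one, one_mul]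
      exact pow_ne_zero _ L.prim
    obtain ⟨ν', hν', hnm'⟩ := const_lem D hj hK hP hT (ν := -(ν * a)) (by
      rw [hnm, Polynomial.map_mul, Polynomial.map_pow, Polynomial.map_sub, Polynomial.map_mul,
        map_X, map_C, Polynomial.map_one]
      have h3 : (C a * C (j α) : K[X]) = 1 := by rw [← C_mul, haα, C_1]
      rw [C_neg, C_mul]
      linear_combination (-(C ν * X * (u.map j) ^ 2 ^ (n + 1))) * h3)
    have h7 := near D e hd S hdb hg R L n hw hwM hν' hα hα0 (by rw [hnm', mul_assoc])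
    exact hn (dvd_trans (pow_dvd_pow π (Nat.le_succ n)) h7)

end Pool.Agent.K9h33.ORQ
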