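import Pool.Agent.K9h33.ORQ.Loc

/-!
Functions with poles of order at most `2 g`, modulo powers of `π`.
-/

set_option autoImplicit false

namespace Pool.Agent.K9h33.ORQ

open Polynomial

section one

variable {R : Type} [CommRing R] [IsDomain R] {f : R[X]} {g : ℕ} {ξ : PowerSeries R}

/-- functions with poles of order at most `2 g` are polynomials in `x` -/
lemma pole' (hd : f.natDegree = 2 * g + 1) (S : Ser f g ξ) (hdom : IsDomain (CR f)) {z : CR f}
    (hz : z ≠ 0) {d : ℕ} (hdg : d ≤ 2 * g) (h0 : ∀ i, 2 * i ≤ d → (c0 f z).coeff i = 0)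
    {G : PowerSeries R} (h : tau R PowerSeries.X ^ d * T hd S z = tau R G) : False := by
  have hn : nm f z ≠ 0 := by
    intro h1
    have h2 := mul_cj f z
    rw [h1, map_zero] at h2
    rcases mul_eq_zero.1 h2 with h3 | h3
    · exact hz h3
    · apply hz
      rw [← cj_cj f z, h3, map_zero]
  obtain ⟨G₂, hG₂⟩ : ∃ G₂ : PowerSeries R, tau R PowerSeries.X ^ (2 * d) *
      T hd S (io f (nm f z)) = tau R G₂ := by
    refine ⟨PowerSeries.C ((-1 : R) ^ d) * (G * PowerSeries.rescale (-1 : R) G), ?_⟩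
    have h2 := congrArg (sg R) h
    rw [map_mul, map_pow, sg_tau, sg_tau, rescale_X', map_neg, neg_pow] at h2
    have hs : tau R (PowerSeries.C ((-1 : R) ^ d)) = (-1) ^ d := by
      rw [map_pow, map_pow, map_neg, map_neg, map_one, map_one]
    have hs2 : ((-1 : Om R) ^ d) * (-1) ^ d = 1 := by
      rw [← mul_pow, neg_one_mul, neg_neg, one_pow]
    rw [← T_nm, map_mul, map_mul, hs, two_mul, pow_add, ← h, ← h2]
    linear_combination (-(tau R PowerSeries.X ^ d * tau R PowerSeries.X ^ d * T hd S z *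
      sg R (T hd S z))) * hs2
  have hdeg : (nm f z).natDegree ≤ d := by
    by_contra hc
    obtain ⟨N, hN⟩ : ∃ N, (nm f z).natDegree = N := ⟨_, rfl⟩
    obtain ⟨G', hG', hc'⟩ := T_hom hd S (P := nm f z) (le_of_eq hN)
    obtain ⟨i, hi⟩ : ∃ i, 2 * N = i + 1 + 2 * d := ⟨2 * N - 2 * d - 1, by omega⟩
    have h2 : tau R G' = tau R (PowerSeries.X ^ (i + 1) * G₂) := by
      rw [map_mul, map_pow, ← hG₂, ← hG', hi, pow_add]
      ring
    have h3 := tau_inj R h2
    rw [h3, map_mul, map_pow, PowerSeries.constantCoeff_X, zero_pow (by omega), zero_mul] at hc'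
    rw [← hN] at hc'
    exact hn (leadingCoeff_eq_zero.1 hc'.symm)
  have hf0 : f ≠ 0 := by
    rintro rfl
    rw [natDegree_zero] at hd
    omega
  unfold nm at hdeg
  have h1 : c1 f z = 0 := by
    by_contra hc
    have e1 : (f * c1 f z ^ 2).natDegree = 2 * g + 1 + 2 * (c1 f z).natDegree := by
      rw [natDegree_mul hf0 (pow_ne_zero 2 hc), hd, natDegree_pow]
    have e2 : (c0 f z ^ 2).natDegree = 2 * (c0 f z).natDegree := natDegree_pow _ _
    rcases lt_trichotomy (c0 f z ^ 2).natDegree (f * c1 f z ^ 2).natDegree with h2 | h2 | h2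
    · rw [natDegree_sub_eq_right_of_natDegree_lt h2] at hdeg
      omega
    · omega
    · rw [natDegree_sub_eq_left_of_natDegree_lt h2] at hdeg
      omega
  rw [h1, zero_pow two_ne_zero, mul_zero, sub_zero, natDegree_pow] at hdeg
  have h2 : c0 f z = 0 := leadingCoeff_eq_zero.1 (h0 _ hdeg)
  apply hz
  rw [rep f z, h1, h2, map_zero]
  ring

end one

variable {O k : Type} [CommRing O] [IsDomain O] [Field k] {π : O} {φ : O →+* k}
variable {f : O[X]} {fb : k[X]} {g : ℕ} {ξ : PowerSeries O}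

/-- the expansion and divisibility by `π` -/
lemma T_dvd (D : DV π φ) (e : f.map φ = fb) (hd : f.natDegree = 2 * g + 1) (S : Ser f g ξ)
    (hdb : fb.natDegree = 2 * g + 1) {K : ℕ} {z : CR f} {c : Om O} (h : T hd S z = pp π ^ K * c) :
    ∃ z', z = io f (C π) ^ K * z' := by
  have Sb := S.red (φ := φ) e
  have hdomb : IsDomain (CR fb) := isDomain_CR (by rw [hdb]; exact ⟨g, rfl⟩)
  by_cases h0 : z = 0
  · exact ⟨0, by rw [h0, mul_zero]⟩
  obtain ⟨m, z', h1, h2⟩ := sep_cr e D h0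
  rcases le_or_gt K m with hKm | hKm
  · obtain ⟨j, rfl⟩ := Nat.exists_eq_add_of_le hKm
    exact ⟨io f (C π) ^ j * z', by rw [h1, pow_add]; ring⟩
  · exfalso
    obtain ⟨j, rfl⟩ := Nat.exists_eq_add_of_lt hKm
    have h3 : T hd S z' = pp π ^ (j + 1) * c := by
      apply mul_left_cancel₀ (pow_ne_zero m (pp_ne D))
      have h4 : T hd S z = pp π ^ m * T hd S z' := by
        rw [h1, map_mul, map_pow, T_C]
      rw [← h4, h, show m + j + 1 = m + (j + 1) by ring, pow_add]
      ring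
    have h6 := congrArg (rdc φ) h3
    have hq : rdc φ (pp π) = 0 := (rdc_zero_iff D _).2 dvd_rfl
    rw [map_mul, map_pow, hq, zero_pow (Nat.succ_ne_zero j), zero_mul, rdc_T e hd S hdb Sb] at h6
    exact T_ne hdb Sb hdomb h2 h6

/-- a function with poles of order at most `2 g` modulo `π ^ K` is a polynomial in `x` modulo
`π ^ K` -/
lemma gen_pole (D : DV π φ) (e : f.map φ = fb) (hd : f.natDegree = 2 * g + 1) (S : Ser f g ξ)
    (hdb : fb.natDegree = 2 * g + 1) {K d : ℕ} (hdg : d ≤ 2 * g) {ε : CR f} {l : PowerSeries O}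
    {ω : Om O} (h : tau O PowerSeries.X ^ d * T hd S ε = tau O l + pp π ^ K * ω) :
    ∃ (A : O[X]) (z : CR f), 2 * A.natDegree ≤ d ∧ ε = io f A + io f (C π) ^ K * z := by
  have Sb := S.red (φ := φ) e
  have hdomb : IsDomain (CR fb) := isDomain_CR (by rw [hdb]; exact ⟨g, rfl⟩)
  obtain ⟨A, hA⟩ : ∃ A : O[X], A = ∑ i ∈ Finset.range (d / 2 + 1), C ((c0 f ε).coeff i) * X ^ i :=
    ⟨_, rfl⟩
  have hAd : A.natDegree ≤ d / 2 := by
    rw [hA]
    apply natDegree_sum_le_of_forall_le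
    intro i hi
    rw [Finset.mem_range] at hi
    exact (natDegree_C_mul_X_pow_le _ _).trans (by omega)
  have hAc : ∀ i, 2 * i ≤ d → A.coeff i = (c0 f ε).coeff i := by
    intro i hi
    rw [hA, finsetSum_coeff, Finset.sum_eq_single i]
    · rw [coeff_C_mul, coeff_X_pow, if_pos rfl, mul_one]
    · intro j _ hj
      rw [coeff_C_mul, coeff_X_pow, if_neg (Ne.symm hj), mul_zero]
    · intro hi'
      exfalso
      apply hi'
      rw [Finset.mem_range]
      omega
  obtain ⟨G, hG, -⟩ := T_hom hd S hAd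
  obtain ⟨ε', hε'⟩ : ∃ ε', ε' = ε - io f A := ⟨_, rfl⟩
  have hc : ∀ i, 2 * i ≤ d → (c0 f ε').coeff i = 0 := by
    intro i hi
    have h1 : ε = ε' + io f A := by rw [hε']; ring
    have h2 := congrArg (fun z => (c0 f z).coeff i) h1
    simp only [(co_add _ _).1, (co_io _).1, coeff_add, hAc i hi] at h2
    linear_combination -h2
  have hmain : tau O PowerSeries.X ^ d * T hd S ε' =
      tau O (l - PowerSeries.X ^ (d - 2 * (d / 2)) * G) + pp π ^ K * ω := by
    have h1 : tau O PowerSeries.X ^ d * T hd S (io f A) =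
        tau O (PowerSeries.X ^ (d - 2 * (d / 2)) * G) := by
      rw [map_mul, map_pow, ← hG, ← mul_assoc, ← pow_add]
      congr 2
      omega
    rw [hε', map_sub, mul_sub, h, h1, map_sub]
    ring
  refine ⟨A, ?_⟩
  have hdvd : ∃ ε₃, ε' = io f (C π) ^ K * ε₃ := by
    by_cases h0 : ε' = 0
    · exact ⟨0, by rw [h0, mul_zero]⟩
    obtain ⟨m, ε'', h1, h2⟩ := sep_cr e D h0
    rcases le_or_gt K m with hKm | hKm
    · obtain ⟨j, rfl⟩ := Nat.exists_eq_add_of_le hKm
      exact ⟨io f (C π) ^ j * ε'', by rw [h1, pow_add]; ring⟩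
    · exfalso
      obtain ⟨j, rfl⟩ := Nat.exists_eq_add_of_lt hKm
      have h3 : tau O (l - PowerSeries.X ^ (d - 2 * (d / 2)) * G) =
          pp π ^ m * (tau O PowerSeries.X ^ d * T hd S ε'' - pp π ^ (j + 1) * ω) := by
        have h4 : T hd S ε' = pp π ^ m * T hd S ε'' := by
          rw [h1, map_mul, map_pow, T_C]
        rw [h4] at hmain
        rw [show m + j + 1 = m + (j + 1) by ring, pow_add] at hmain
        linear_combination -hmain
      obtain ⟨l₃, -, h5⟩ := tau_dvd D m _ _ h3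
      have h6 := congrArg (rdc φ) h5
      have hq : rdc φ (pp π) = 0 := (rdc_zero_iff D _).2 dvd_rfl
      rw [rdc_tau, map_sub, map_mul, map_mul, map_pow, map_pow, hq, rdc_tau, PowerSeries.map_X,
        rdc_T e hd S hdb Sb, zero_pow (Nat.succ_ne_zero j), zero_mul, sub_zero] at h6
      refine pole' hdb Sb hdomb h2 hdg ?_ h6.symm
      intro i hi
      rw [(co_mp φ e ε'').1, coeff_map]
      have h7 : (c0 f ε'').coeff i = 0 := by
        have h8 := hc i hi
        rw [h1, ← map_pow, ← C_pow, (co_io_mul _ _).1, coeff_C_mul] at h8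
        exact (mul_eq_zero.1 h8).resolve_left (pow_ne_zero m D.ne)
      rw [h7, map_zero]
  obtain ⟨ε₃, h3⟩ := hdvd
  exact ⟨ε₃, by omega, by rw [← h3, hε']; ring⟩

/-- **The local theorem** -/
theorem near2 [IsNoetherianRing O] (D : DV π φ) (e : f.map φ = fb) (hd : f.natDegree = 2 * g + 1)
    (S : Ser f g ξ) (hdb : fb.natDegree = 2 * g + 1) (R : Rgl f π φ) {M : Ideal (CR f)} {u : O[X]}
    (L : Lat π φ M u) (n : ℕ) {w : CR f}
    (hwM : ∃ m : ℕ, io f (C π) ^ m * w ∈ M ^ 2 ^ (n + 1)) {P : O[X]} (hP : P ≠ 0)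
    (hPd : P.natDegree ≤ 2 * g) (hnm : nm f w = P * u ^ 2 ^ (n + 1)) :
    ∃ A : O[X], 2 * A.natDegree ≤ P.natDegree ∧ C (π ^ (n + 1)) ∣ A ^ 2 - P := by
  have Sb := S.red (φ := φ) e
  have hdomb : IsDomain (CR fb) := isDomain_CR (by rw [hdb]; exact ⟨g, rfl⟩)
  have hdom : IsDomain (CR f) := by
    have : Function.Injective (mp (algebraMap O (FractionRing O))
        (rfl : f.map (algebraMap O (FractionRing O)) = _)) :=
      mp_inj _ _ (IsFractionRing.injective O (FractionRing O))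
    have h2 : IsDomain (CR (f.map (algebraMap O (FractionRing O)))) := isDomain_CR (by
      rw [natDegree_map_eq_of_injective (IsFractionRing.injective O (FractionRing O)), hd]
      exact ⟨g, rfl⟩)
    exact this.isDomain
  obtain ⟨ρ, hρM, ε, hρ, hε, -⟩ := affine D e hdb R L n hwM hnm
  obtain ⟨Y, hY0, hY1, hY2⟩ := exists_Y D e hd S hdb L
  obtain ⟨d, hdu, hdY⟩ := norm_Y D e hd S hdb L hY0 hY1 hY2
  obtain ⟨y, hy⟩ : ∃ y, y = tau O Y := ⟨_, rfl⟩
  rw [← hy] at hY1 hdY
  have hyr : rdc φ y ≠ 0 := by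
    rw [hy, rdc_tau]
    intro h
    exact hY0 (tau_inj k (by rw [h, map_zero]))
  have hysr : rdc φ (sg O y) ≠ 0 := by
    rw [rdc_sg]
    intro h
    exact hyr (sg_inj k (by rw [h, map_zero]))
  have hyy : y * sg O y ≠ 0 := by
    intro h0
    have h8 := congrArg (rdc φ) h0
    rw [map_mul, map_zero] at h8
    exact mul_ne_zero hyr hysr h8
  have hJ1 : M.map (T hd S) ≤ Ideal.span {y} := by
    rw [Ideal.map_le_iff_le_comap]
    intro z hz
    rw [Ideal.mem_comap, Ideal.mem_span_singleton]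
    exact hY1 z hz
  have hJp : ∀ (N : ℕ) (z : CR f), z ∈ M ^ N → ∃ c, T hd S z = y ^ N * c := by
    intro N z hz
    have h1 : T hd S z ∈ (M ^ N).map (T hd S) := Ideal.mem_map_of_mem _ hz
    rw [Ideal.map_pow] at h1
    have h2 := Ideal.pow_right_mono hJ1 N h1
    rw [Ideal.span_singleton_pow] at h2
    exact Ideal.mem_span_singleton.1 h2
  -- the expansions
  obtain ⟨m, hm⟩ := hwM
  obtain ⟨c', hc'⟩ := hJp _ _ hm
  rw [map_mul, map_pow, T_C] at hc'
  obtain ⟨l', -, hl'⟩ := gauss D (by rw [map_pow]; exact pow_ne_zero _ hyr) hc'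
  obtain ⟨r, hr⟩ := hJp _ _ hρM
  have h6 : l' * sg O l' = T hd S (io f P) * d ^ 2 ^ (n + 1) := by
    apply mul_left_cancel₀ (pow_ne_zero (2 ^ (n + 1)) hyy)
    have h1 := T_nm hd S w
    rw [hnm, map_mul (io f), map_mul (T hd S), map_pow (io f), map_pow (T hd S), hdY, hl', map_mul,
      map_pow] at h1
    rw [mul_pow] at h1 ⊢
    rw [mul_pow] at h1
    linear_combination h1
  have h7 : l' * sg O r ^ 2 ^ n = d ^ 2 ^ (n + 1) * T hd S ε := by
    apply mul_left_cancel₀ (pow_ne_zero (2 ^ (n + 1)) hyy)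
    have h1 := congrArg (T hd S) hε
    rw [map_mul, map_pow, ← sg_T, hr, map_mul, map_pow, map_mul (T hd S), map_pow (T hd S), hdY,
      hl'] at h1
    have h2 : (sg O y ^ 2 * sg O r) ^ 2 ^ n = sg O y ^ 2 ^ (n + 1) * sg O r ^ 2 ^ n := by
      rw [mul_pow, ← pow_mul, pow_succ' 2 n]
    rw [h2] at h1
    rw [mul_pow] at h1 ⊢
    rw [mul_pow] at h1
    linear_combination h1
  -- `d` is invariant
  have hsd : sg O d = d := by
    have h1 := congrArg (sg O) hdY
    rw [sg_T, cj_io, hdY, map_mul, map_mul, sg_sg] at h1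
    apply mul_left_cancel₀ hyy
    linear_combination -h1
  -- approximation of `r`
  have hsk : ∀ ω : Om k, sg k ω = ω := by
    intro ω
    have hneg : (-1 : k) = 1 := by linear_combination -D.two
    obtain ⟨j, G, hG⟩ := om_rep k ω
    have h1 := congrArg (sg k) hG
    rw [map_mul, map_pow, sg_tau, sg_tau, hneg, PowerSeries.rescale_one, RingHom.id_apply,
      RingHom.id_apply, ← hG] at h1
    exact ((t_unit k).pow j).mul_left_cancel h1
  obtain ⟨z, hz⟩ : ∃ z, r - d = pp π * z := by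
    have h1 : rdc φ (r - d) = 0 := by
      have h2 := congrArg (rdc φ) hr
      have h3 := congrArg (rdc φ) hdY
      rw [map_mul, map_pow, rdc_T e hd S hdb Sb, hρ] at h2
      rw [map_mul, map_mul, rdc_sg, hsk, rdc_T e hd S hdb Sb, mp_io] at h3
      apply mul_left_cancel₀ (pow_ne_zero 2 hyr)
      rw [map_sub]
      linear_combination h3 - h2
    exact (rdc_zero_iff D _).1 h1
  obtain ⟨t2, ht2⟩ : ∃ t2, (2 : Om O) = pp π * t2 := by
    obtain ⟨t', ht'⟩ := (D.ker 2).1 (by rw [map_ofNat]; exact D.two)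
    refine ⟨tau O (PowerSeries.C t'), ?_⟩
    rw [← map_mul, ← map_mul, ← ht', map_ofNat, map_ofNat]
  obtain ⟨z', hz'⟩ := pow_cong ht2 (x := sg O r) (y := d) (z := sg O z) (by
    rw [← sg_pp (π := π), ← map_mul, ← hz, map_sub, hsd]) n
  obtain ⟨δ, hδ⟩ := (hdu.pow (2 ^ n)).exists_right_inv
  have hsδ : sg O δ = δ := by
    have h1 := congrArg (sg O) hδ
    rw [map_mul, map_pow, hsd, map_one] at h1
    linear_combination δ * h1 - (sg O δ) * hδ
  obtain ⟨θ, hθ⟩ : ∃ θ, θ = l' * δ := ⟨_, rfl⟩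
  rw [two_pow_succ, pow_add] at h6 h7
  have h8 : θ * sg O θ = T hd S (io f P) := by
    rw [hθ, map_mul, hsδ]
    linear_combination δ ^ 2 * h6 + T hd S (io f P) * (d ^ 2 ^ n * δ + 1) * hδ
  have h9 : T hd S ε = θ + pp π ^ (n + 1) * (l' * z' * δ ^ 2) := by
    rw [hθ]
    linear_combination (-δ ^ 2) * h7 + (-T hd S ε) * (d ^ 2 ^ n * δ + 1) * hδ +
      (l' * δ) * hδ + (l' * δ ^ 2) * hz'
  -- the poles of `θ`
  have hTP : T hd S (io f P) ≠ 0 := by
    refine T_ne hd S hdom ?_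
    intro h0
    have h1 := (co_io (h := f) P).1
    have h2 := (co_io (h := f) (0 : O[X])).1
    rw [h0] at h1
    rw [map_zero, h1] at h2
    exact hP h2
  have hθ0 : θ ≠ 0 := by
    rintro rfl
    rw [zero_mul] at h8
    exact hTP h8.symm
  obtain ⟨a, b, l, hl, hll⟩ := om_lead O hθ0
  obtain ⟨G, hG, hGc⟩ := T_hom hd S (P := P) le_rfl
  have hθl : tau O PowerSeries.X ^ P.natDegree * θ = tau O l := by
    have e1 := congrArg (sg O) hll
    rw [map_mul, map_mul, map_pow, map_pow, sg_tau, sg_tau, rescale_X', map_neg, neg_pow _ a,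
      neg_pow _ b] at e1
    obtain ⟨sa, hsa⟩ : ∃ sa, sa = (-1 : O) ^ a := ⟨_, rfl⟩
    obtain ⟨sb, hsb⟩ : ∃ sb, sb = (-1 : O) ^ b := ⟨_, rfl⟩
    have hsau : IsUnit sa := by
      rw [hsa]
      exact (isUnit_one.neg).pow a
    have hsbu : IsUnit sb := by
      rw [hsb]
      exact (isUnit_one.neg).pow b
    have hs₁ : tau O (PowerSeries.C sa) = (-1) ^ a := by
      rw [hsa, map_pow, map_pow, map_neg, map_neg, map_one, map_one]
    have hs₂ : tau O (PowerSeries.C sb) = (-1) ^ b := by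
      rw [hsb, map_pow, map_pow, map_neg, map_neg, map_one, map_one]
    have h10 : 2 * a = 2 * b + 2 * P.natDegree := by
      refine (om_uniq O (a := PowerSeries.C sa * G)
        (b := PowerSeries.C sb * (l * PowerSeries.rescale (-1 : O) l)) ?_ ?_ ?_).1
      · rw [map_mul, hGc, PowerSeries.constantCoeff_C]
        exact mul_ne_zero hsau.ne_zero (leadingCoeff_ne_zero.2 hP)
      · rw [map_mul, map_mul, cc_rescale, PowerSeries.constantCoeff_C]
        exact mul_ne_zero hsbu.ne_zero (mul_ne_zero hl hl)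
      · rw [map_mul, map_mul, map_mul, hs₁, hs₂, ← hG, ← h8, pow_add]
        have e2 : tau O PowerSeries.X ^ (2 * a) = tau O PowerSeries.X ^ a *
            tau O PowerSeries.X ^ a := by rw [two_mul, pow_add]
        have e3 : tau O PowerSeries.X ^ (2 * b) = tau O PowerSeries.X ^ b *
            tau O PowerSeries.X ^ b := by rw [two_mul, pow_add]
        rw [e2, e3]
        linear_combination (tau O PowerSeries.X ^ (2 * P.natDegree) * tau O PowerSeries.X ^ a * θ) *
          e1 + ((-1) ^ b * tau O PowerSeries.X ^ b *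
          tau O (PowerSeries.rescale (-1 : O) l) * tau O PowerSeries.X ^ (2 * P.natDegree)) * hll
    have h11 : a = b + P.natDegree := by omega
    apply ((t_unit O).pow b).mul_left_cancel
    rw [← hll, h11, pow_add]
    ring
  -- the polynomial
  obtain ⟨A, z₃, hA, hε3⟩ := gen_pole D e hd S hdb hPd (ε := ε) (l := l) (K := n + 1)
    (ω := tau O PowerSeries.X ^ P.natDegree * (l' * z' * δ ^ 2)) (by
      rw [h9, ← hθl]
      ring)
  refine ⟨A, hA, ?_⟩
  obtain ⟨z₄, hz₄⟩ := T_dvd D e hd S hdb (K := n + 1) (z := io f (nm f ε - P))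
    (c := (l' * z' * δ ^ 2) * sg O θ + θ * sg O (l' * z' * δ ^ 2) +
      pp π ^ (n + 1) * ((l' * z' * δ ^ 2) * sg O (l' * z' * δ ^ 2))) (by
    rw [map_sub, map_sub, ← T_nm, h9, ← h8, map_add, map_mul _ (pp π ^ (n + 1)), map_pow, sg_pp]
    ring)
  have h12 : nm f ε - P = C (π ^ (n + 1)) * c0 f z₄ := by
    have h1 := congrArg (c0 f) hz₄
    rw [(co_io _).1, ← map_pow, (co_io_mul _ _).1, ← C_pow] at h1
    exact h1
  have h13 : c0 f ε = A + C (π ^ (n + 1)) * c0 f z₃ ∧ c1 f ε = C (π ^ (n + 1)) * c1 f z₃ := by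
    rw [hε3, (co_add _ _).1, (co_add _ _).2, (co_io _).1, (co_io _).2, ← map_pow, (co_io_mul _ _).1,
      (co_io_mul _ _).2, ← C_pow, zero_add]
    exact ⟨rfl, rfl⟩
  unfold nm at h12
  rw [h13.1, h13.2] at h12
  refine ⟨c0 f z₄ - (2 * A * c0 f z₃ + C (π ^ (n + 1)) * c0 f z₃ ^ 2 -
    f * C (π ^ (n + 1)) * c1 f z₃ ^ 2), ?_⟩
  linear_combination h12

end Pool.Agent.K9h33.ORQ
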