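import Pool.Agent.K9h33.ORQ.Glo2

/-!
A squarefree polynomial of positive degree is not a limit of squares of polynomials of at most half
the degree, up to units.
-/

set_option autoImplicit false

namespace Pool.Agent.K9h33.ORQ

open Polynomial

lemma sqf_reflect {K : Type} [Field K] {P : K[X]} (hsq : Squarefree P) (hP : P ≠ 0) {N : ℕ}
    (hN : P.natDegree = N) : Squarefree (reflect N P) := by
  intro Q hQ
  obtain ⟨T, hT⟩ := hQ
  have h0 : reflect N P ≠ 0 := by
    rw [Ne, reflect_eq_zero_iff]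
    exact hP
  have hQ0 : Q ≠ 0 := by
    rintro rfl
    rw [zero_mul, zero_mul] at hT
    exact h0 hT
  have hT0 : T ≠ 0 := by
    rintro rfl
    rw [mul_zero] at hT
    exact h0 hT
  have hd : (reflect N P).natDegree ≤ N := by
    have := natDegree_reflect_le (p := P) (N := N)
    rw [hN, max_self] at this
    exact this
  rw [hT, natDegree_mul (mul_ne_zero hQ0 hQ0) hT0, natDegree_mul hQ0 hQ0] at hd
  have h1 : P = reflect Q.natDegree Q * reflect Q.natDegree Q *
      reflect (N - (Q.natDegree + Q.natDegree)) T := by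
    rw [← reflect_mul Q Q le_rfl le_rfl, ← reflect_mul (Q * Q) T
      (by rw [natDegree_mul hQ0 hQ0]) (by omega), ← hT,
      Nat.add_sub_cancel' (by omega), reflect_reflect]
  have h2 : IsUnit (reflect Q.natDegree Q) := hsq _ ⟨_, h1⟩
  have h3 : Q.coeff 0 ≠ 0 := by
    intro h3
    have h4 : (reflect N P).coeff 0 = P.coeff N := by
      rw [coeff_reflect, revAt_le (Nat.zero_le _), Nat.sub_zero]
    rw [hT, mul_coeff_zero, mul_coeff_zero, h3, zero_mul, zero_mul, ← hN] at h4
    exact hP (leadingCoeff_eq_zero.1 h4.symm)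
  have h4 : Q.natDegree = 0 := by
    have h5 := natDegree_eq_zero_of_isUnit h2
    by_contra hc
    have h6 : (reflect Q.natDegree Q).coeff Q.natDegree = 0 := by
      apply coeff_eq_zero_of_natDegree_lt
      omega
    rw [coeff_reflect, revAt_le le_rfl, Nat.sub_self] at h6
    exact h3 h6
  rw [eq_C_of_natDegree_eq_zero h4]
  exact isUnit_C.2 (isUnit_iff_ne_zero.2 h3)

variable {O k K : Type} [CommRing O] [IsDomain O] [Field k] [Field K] {π : O}
  {φ : O →+* k} {j : O →+* K}

lemma lemX [CharZero K] (D : DV π φ) (hj : Function.Injective j)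
    (hK : ∀ x : K, ∃ (n : ℕ) (y : O), j π ^ n * x = j y) {P : O[X]} (hP : P.map φ ≠ 0)
    (hsq : Squarefree (P.map j)) : ∃ m : ℕ, ∀ n, m ≤ n → ∀ (A : O[X]) (l : O), φ l ≠ 0 →
      C (π ^ (n + 1)) ∣ A ^ 2 - C l * P → (P.map φ).natDegree = 0 := by
  obtain ⟨a, b, hab⟩ : IsCoprime (P.map j) (derivative (P.map j)) :=
    (PerfectField.separable_iff_squarefree).2 hsq
  obtain ⟨n₁, a', ha'⟩ := sc_poly hK a
  obtain ⟨n₂, b', hb'⟩ := sc_poly hK b
  have h1 : C π ^ n₂ * a' * P + C π ^ n₁ * b' * derivative P = C π ^ (n₁ + n₂) := by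
    apply Polynomial.map_injective j hj
    simp only [Polynomial.map_add, Polynomial.map_mul, Polynomial.map_pow, map_C, ha', hb',
      ← derivative_map]
    rw [pow_add]
    linear_combination (C (j π) ^ n₁ * C (j π) ^ n₂) * hab
  obtain ⟨m, hm⟩ : ∃ m, m = n₁ + n₂ := ⟨_, rfl⟩
  obtain ⟨a₁, ha₁⟩ : ∃ a₁, a₁ = C π ^ n₂ * a' := ⟨_, rfl⟩
  obtain ⟨b₁, hb₁⟩ : ∃ b₁, b₁ = C π ^ n₁ * b' := ⟨_, rfl⟩
  rw [← hm, ← ha₁, ← hb₁] at h1
  refine ⟨m, fun n hn A l hl hd => ?_⟩
  obtain ⟨Z, hZ⟩ := hd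
  have h2 := congrArg derivative hZ
  rw [derivative_sub, derivative_pow, derivative_C_mul, derivative_C_mul] at h2
  have h2' : 2 * A * derivative A - C l * derivative P = C (π ^ (n + 1)) * derivative Z := by
    rw [← h2, show C ((2 : ℕ) : O) = (2 : O[X]) from rfl]
    ring
  have hq : φ π = 0 := (D.ker π).2 dvd_rfl
  have hAP : (A.map φ) ^ 2 = C (φ l) * P.map φ := by
    have h3 := congrArg (Polynomial.map φ) hZ
    rw [Polynomial.map_sub, Polynomial.map_pow, Polynomial.map_mul, Polynomial.map_mul, map_C,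
      map_C, map_pow, hq, zero_pow (Nat.succ_ne_zero n), C_0, zero_mul] at h3
    exact sub_eq_zero.1 h3
  have hA : A.map φ ≠ 0 := by
    intro h0
    rw [h0, zero_pow two_ne_zero] at hAP
    exact mul_ne_zero (C_ne_zero.2 hl) hP hAP.symm
  obtain ⟨i, rfl⟩ := Nat.exists_eq_add_of_le hn
  have h3 : A * (a₁ * A + 2 * b₁ * derivative A) = C π ^ m * (C l + C π ^ (i + 1) *
      (a₁ * Z + b₁ * derivative Z)) := by
    have h4 : (C (π ^ (m + i + 1)) : O[X]) = C π ^ m * C π ^ (i + 1) := by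
      rw [← pow_add, ← C_pow]
      congr 1
    rw [h4] at hZ h2'
    linear_combination a₁ * hZ + b₁ * h2' + C l * h1
  obtain ⟨E, hE⟩ := pow_dvd_poly D hA m h3
  have h4 : A * E = C l + C π ^ (i + 1) * (a₁ * Z + b₁ * derivative Z) := by
    apply mul_left_cancel₀ (pow_ne_zero m (C_ne_zero.2 D.ne : (C π : O[X]) ≠ 0))
    rw [← h3, hE]
    ring
  have h5 := congrArg (Polynomial.map φ) h4
  rw [Polynomial.map_mul, Polynomial.map_add, Polynomial.map_mul, Polynomial.map_pow, map_C, map_C,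
    hq, C_0, zero_pow (Nat.succ_ne_zero i), zero_mul, add_zero] at h5
  have h6 : IsUnit (A.map φ) :=
    isUnit_of_dvd_unit ⟨_, h5.symm⟩ (isUnit_C.2 (isUnit_iff_ne_zero.2 hl))
  have h7 := natDegree_eq_zero_of_isUnit h6
  have h8 := congrArg natDegree hAP
  rw [natDegree_pow, h7, mul_zero, natDegree_C_mul hl] at h8
  exact h8.symm

/-- a squarefree polynomial is not a limit of squares -/
theorem no_sq [CharZero K] (D : DV π φ) (hj : Function.Injective j)
    (hK : ∀ x : K, ∃ (n : ℕ) (y : O), j π ^ n * x = j y) {P : O[X]} (hP : P.map φ ≠ 0)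
    (hd1 : 1 ≤ P.natDegree) (hsq : Squarefree (P.map j)) : ∃ n : ℕ, ∀ (A : O[X]) (l : O),
      φ l ≠ 0 → 2 * A.natDegree ≤ P.natDegree → ¬ C (π ^ (n + 1)) ∣ A ^ 2 - C l * P := by
  have hP0 : P ≠ 0 := by
    rintro rfl
    exact hP (Polynomial.map_zero φ)
  rcases Nat.even_or_odd P.natDegree with ⟨e, he⟩ | ⟨e, he⟩
  · obtain ⟨m₁, hm₁⟩ := lemX D hj hK hP hsq
    have hPj0 : P.map j ≠ 0 := (Polynomial.map_ne_zero_iff hj).2 hP0
    obtain ⟨m₂, hm₂⟩ := lemX D hj hK (P := reflect P.natDegree P) (by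
      rw [← reflect_map, Ne, reflect_eq_zero_iff]
      exact hP) (by
      rw [← reflect_map]
      exact sqf_reflect hsq hPj0 (natDegree_map_eq_of_injective hj P))
    refine ⟨m₁ + m₂, fun A l hl hA hd => ?_⟩
    have h1 := hm₁ _ (by omega) A l hl hd
    have h2 := hm₂ (m₁ + m₂) (by omega) (reflect e A) l hl (by
      obtain ⟨Z, hZ⟩ := hd
      refine ⟨reflect P.natDegree Z, ?_⟩
      have h3 := congrArg (reflect P.natDegree) hZ
      rw [reflect_sub, reflect_C_mul, reflect_C_mul, sq, he,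
        reflect_mul A A (by omega) (by omega)] at h3
      rw [he, ← h3]
      ring)
    have h3 : (reflect P.natDegree P).map φ = reflect P.natDegree (P.map φ) := (reflect_map _ _ _).symm
    rw [h3] at h2
    have h4 : (reflect P.natDegree (P.map φ)).coeff P.natDegree = 0 := by
      apply coeff_eq_zero_of_natDegree_lt
      omega
    rw [coeff_reflect, revAt_le le_rfl, Nat.sub_self] at h4
    apply hP
    rw [eq_C_of_natDegree_eq_zero h1, h4, C_0]
  · obtain ⟨n, hn⟩ := D.sep P.leadingCoeff (leadingCoeff_ne_zero.2 hP0)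
    refine ⟨n, fun A l hl hA hd => ?_⟩
    rw [C_dvd_iff_dvd_coeff] at hd
    have h1 := hd P.natDegree
    have h2 : (A ^ 2).coeff P.natDegree = 0 := by
      apply coeff_eq_zero_of_natDegree_lt
      rw [natDegree_pow]
      omega
    rw [coeff_sub, h2, coeff_C_mul, zero_sub, dvd_neg] at h1
    obtain ⟨x, hx⟩ := (D.unit l hl).exists_right_inv
    apply hn
    refine dvd_trans (pow_dvd_pow π (Nat.le_succ n)) ?_
    have h3 : P.leadingCoeff = l * P.coeff P.natDegree * x := by
      rw [coeff_natDegree]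
      linear_combination (-P.leadingCoeff) * hx
    rw [h3]
    exact h1.mul_right _

end Pool.Agent.K9h33.ORQ
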