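import Pool.Agent.K9h33.ORQ.Glo2
import Pool.Agent.K9h33.ORQ.Pol
import Pool.Agent.K9h33.ORQ.Sqf
import Pool.Agent.K9h33.ORQ.Gen

/-!
An ideal which is equivalent to `2 ^ n`-th powers for all `n` is principal.
-/

set_option autoImplicit false

namespace Pool.Agent.K9h33.ORQ

open Polynomial

section fld

variable {K : Type} [Field K] {h : K[X]}

/-- the norm of the quotient of a principal ideal -/
theorem norm_gen' (hdom : IsDomain (CR h)) (h2 : (2 : K) ≠ 0) (hsq : Squarefree h) {P Q : K[X]}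
    (hP : P ∣ h - Q ^ 2) (N : ℕ) {I : Ideal (CR h)} (hI : I ≠ ⊥) {w₀ : CR h}
    (hw : UV h P Q * I ^ N = Ideal.span {w₀}) :
    ∃ (U V : K[X]) (μ : K) (w₁ : CR h), U ≠ 0 ∧ U ∣ h - V ^ 2 ∧ μ ≠ 0 ∧ w₁ ∈ UV h U V ^ N ∧
      nm h w₁ = C μ * (P * U ^ N) := by
  obtain ⟨c, U, V, hc, hU, hUV, rfl⟩ := normal_form I hI hdom
  have hioc : io h c ≠ 0 := by
    intro h0
    have := (co_io (h := h) c).1
    rw [h0] at this
    have h3 := (co_io (h := h) (0 : K[X])).1
    rw [map_zero, this] at h3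
    exact hc h3
  rw [mul_pow, Ideal.span_singleton_pow] at hw
  have h1 : w₀ ∈ Ideal.span {io h c ^ N} * (UV h P Q * UV h U V ^ N) := by
    rw [mul_left_comm, hw]
    exact Ideal.mem_span_singleton_self _
  obtain ⟨w₁, hw₁, rfl⟩ := Ideal.mem_span_singleton_mul.1 h1
  have h3 : UV h P Q * UV h U V ^ N = Ideal.span {w₁} := by
    rw [← Ideal.span_singleton_mul_span_singleton, mul_left_comm] at hw
    exact (Ideal.span_singleton_mul_right_inj (pow_ne_zero N hioc)).1 hw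
  have h4 : Ideal.span {io h (P * U ^ N)} = Ideal.span {io h (nm h w₁)} := by
    have h5 := congrArg (Ideal.map (cj h)) h3
    rw [Ideal.map_mul, Ideal.map_pow, Ideal.map_span, Set.image_singleton] at h5
    rw [← mul_cj, ← Ideal.span_singleton_mul_span_singleton, ← h3, ← h5, map_mul, map_pow,
      ← Ideal.span_singleton_mul_span_singleton, ← Ideal.span_singleton_pow, ← UV_mul h2 hsq hP,
      ← UV_mul h2 hsq hUV, mul_pow]
    exact mul_mul_mul_comm _ _ _ _
  rw [Ideal.span_singleton_eq_span_singleton] at h4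
  have h5 : Associated (P * U ^ N) (nm h w₁) :=
    associated_of_dvd_dvd (io_dvd h4.dvd) (io_dvd h4.symm.dvd)
  obtain ⟨μ, hμ⟩ := h5
  obtain ⟨m, hm, hm'⟩ := Polynomial.isUnit_iff.1 μ.isUnit
  refine ⟨U, V, m, w₁, hU, hUV, hm.ne_zero, ?_, ?_⟩
  · have h6 : w₁ ∈ UV h P Q * UV h U V ^ N := by
      rw [h3]
      exact Ideal.mem_span_singleton_self _
    have h7 : UV h P Q * UV h U V ^ N ≤ UV h U V ^ N := Ideal.mul_le_right
    exact h7 h6
  · rw [← hμ, ← hm']
    ring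

end fld

variable {O k K : Type} [CommRing O] [IsDomain O] [IsNoetherianRing O] [Field k] [Field K] {π : O}
  {φ : O →+* k} {j : O →+* K} {f : O[X]} {fK : K[X]} {fb : k[X]} {g : ℕ}

/-- an ideal with a squarefree norm of positive degree at most `2 g` -/
theorem loc_main [CharZero K] (D : DV π φ) (eK : f.map j = fK) (e : f.map φ = fb)
    (hj : Function.Injective j) (hK : ∀ x : K, ∃ (n : ℕ) (y : O), j π ^ n * x = j y)
    (hm : f.Monic) (hd : f.natDegree = 2 * g + 1) (R : Rgl f π φ)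
    (hsq : Squarefree fK) {P Q : K[X]} (hP : P ∣ fK - Q ^ 2) (hPs : Squarefree P)
    (hP1 : 1 ≤ P.natDegree) (hP2 : P.natDegree ≤ 2 * g) :
    ∃ n : ℕ, ∀ I : Ideal (CR fK), I ≠ ⊥ → ∀ w₀ : CR fK,
      UV fK P Q * I ^ 2 ^ (n + 1) ≠ Ideal.span {w₀} := by
  have h2 : (2 : K) ≠ 0 := two_ne_zero
  have hdb : fb.natDegree = 2 * g + 1 := by rw [← e, hm.natDegree_map, hd]
  have hdK : fK.natDegree = 2 * g + 1 := by rw [← eK, hm.natDegree_map, hd]
  have hdomb : IsDomain (CR fb) := isDomain_CR (by rw [hdb]; exact ⟨g, rfl⟩)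
  have hdomK : IsDomain (CR fK) := isDomain_CR (by rw [hdK]; exact ⟨g, rfl⟩)
  obtain ⟨ξ, S⟩ := exists_ser hm hd
  have hP0 : P ≠ 0 := by
    rintro rfl
    rw [natDegree_zero] at hP1
    omega
  obtain ⟨P', cP, hP', hcP, hPP'⟩ := prim_poly D hj hK hP0
  have hP'd : P'.natDegree = P.natDegree := by
    rw [← natDegree_map_eq_of_injective hj P', hPP', natDegree_C_mul hcP]
  have hP's : Squarefree (P'.map j) := by
    rw [hPP']
    intro x hx
    apply hPs
    have h1 : (C cP⁻¹ * C cP : K[X]) = 1 := by rw [← C_mul, inv_mul_cancel₀ hcP, C_1]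
    obtain ⟨y, hy⟩ := hx
    refine ⟨C cP⁻¹ * y, ?_⟩
    calc P = C cP⁻¹ * (C cP * P) := by rw [← mul_assoc, h1, one_mul]
      _ = x * x * (C cP⁻¹ * y) := by rw [hy]; ring
  obtain ⟨n, hn⟩ := no_sq D hj hK hP' (by omega) hP's
  refine ⟨n, fun I hI w₀ hw₀ => ?_⟩
  obtain ⟨U, V, μ, w₁, hU, hUV, hμ, hw₁, hnm⟩ := norm_gen' hdomK h2 hsq hP _ hI hw₀
  obtain ⟨u, c, hu, hc, hUU'⟩ := prim_poly D hj hK hU
  have hw₁0 : w₁ ≠ 0 := by
    rintro rfl
    have h3 : nm fK (0 : CR fK) = 0 := by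
      have h4 := nm_io fK (0 : K[X])
      rwa [map_zero, zero_pow two_ne_zero] at h4
    rw [h3] at hnm
    exact mul_ne_zero (C_ne_zero.2 hμ) (mul_ne_zero hP0 (pow_ne_zero _ hU)) hnm.symm
  obtain ⟨w, s, hw, hs, hws⟩ := prim_cr D eK e hj hK hw₁0
  have L := lat_UV eK hK hj e hdomb D h2 hsq hUV hu hc hUU'
  have hwM : ∃ m : ℕ, io f (C π) ^ m * w ∈ ((UV fK U V).comap (mp j eK)) ^ 2 ^ (n + 1) := by
    obtain ⟨n₁, w', hw', hw'e⟩ := sc_pow eK hK (sc_comap eK hK (UV fK U V)) (2 ^ (n + 1)) w₁ hw₁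
    obtain ⟨m, s', hs'⟩ := hK s
    refine ⟨n₁ + m, ?_⟩
    have h3 : io f (C π) ^ (n₁ + m) * w = io f (C s') * w' := by
      apply mp_inj j eK hj
      rw [J_pi, map_mul, hw'e, hws, mp_io, map_C, ← hs', C_mul, C_pow, map_mul, map_pow, pow_add]
      ring
    rw [h3]
    exact Ideal.mul_mem_left _ _ hw'
  have hT : (nm f w).map φ ≠ 0 := by
    intro h0
    rw [← nm_mp φ e] at h0
    have h3 := mul_cj fb (mp φ e w)
    rw [h0, map_zero] at h3
    rcases mul_eq_zero.1 h3 with h4 | h4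
    · exact hw h4
    · apply hw
      rw [← cj_cj fb (mp φ e w), h4, map_zero]
  have hPu : (P' * u ^ 2 ^ (n + 1)).map φ ≠ 0 := by
    rw [Polynomial.map_mul, Polynomial.map_pow]
    exact mul_ne_zero hP' (pow_ne_zero _ hu)
  obtain ⟨ν, hν, hnm'⟩ := const_lem D hj hK hPu hT
    (ν := s ^ 2 * μ * ((c ^ 2 ^ (n + 1))⁻¹) * cP⁻¹) (by
    rw [← nm_mp j eK, hws, nm_mul, nm_io, hnm, Polynomial.map_mul, Polynomial.map_pow, hUU', hPP',
      mul_pow, ← C_pow, ← C_pow, C_mul, C_mul, C_mul]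
    have h4 : (C ((c ^ 2 ^ (n + 1))⁻¹) * C (c ^ 2 ^ (n + 1)) : K[X]) = 1 := by
      rw [← C_mul, inv_mul_cancel₀ (pow_ne_zero _ hc), C_1]
    have h5 : (C cP⁻¹ * C cP : K[X]) = 1 := by rw [← C_mul, inv_mul_cancel₀ hcP, C_1]
    linear_combination (-(C (s ^ 2) * C μ * P * U ^ 2 ^ (n + 1))) * h4 +
      (-(C (s ^ 2) * C μ * P * U ^ 2 ^ (n + 1)) *
        (C ((c ^ 2 ^ (n + 1))⁻¹) * C (c ^ 2 ^ (n + 1)))) * h5)
  have hν0 : ν ≠ 0 := by
    rintro rfl
    exact hν (map_zero φ)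
  have hP'0 : P' ≠ 0 := by
    rintro rfl
    exact hP' (Polynomial.map_zero φ)
  obtain ⟨A, hA, hd'⟩ := near2 D e hd S hdb R L n hwM (P := C ν * P')
    (mul_ne_zero (C_ne_zero.2 hν0) hP'0) (by rw [natDegree_C_mul hν0]; omega)
    (by rw [hnm', mul_assoc])
  rw [natDegree_C_mul hν0] at hA
  exact hn A ν hν hA hd'

/-- **Main theorem of the section** -/
theorem cls [CharZero K] (D : DV π φ) (eK : f.map j = fK) (hj : Function.Injective j)
    (hK : ∀ x : K, ∃ (n : ℕ) (y : O), j π ^ n * x = j y)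
    (hm : f.Monic) (hd : f.natDegree = 2 * g + 1) (R : Rgl f π φ)
    (hsq : Squarefree fK) {I : Ideal (CR fK)} (hI : I ≠ ⊥)
    (hdiv : ∀ n : ℕ, ∃ I' : Ideal (CR fK), I' ≠ ⊥ ∧ ∃ w₀ : CR fK, I * I' ^ 2 ^ (n + 1) =
      Ideal.span {w₀}) : ∃ x, I = Ideal.span {x} := by
  have h2 : (2 : K) ≠ 0 := two_ne_zero
  have hdK : fK.natDegree = 2 * g + 1 := by rw [← eK, hm.natDegree_map, hd]
  have hdomK : IsDomain (CR fK) := isDomain_CR (by rw [hdK]; exact ⟨g, rfl⟩)
  obtain ⟨c, U₀, V₀, hc, hU₀, hUV₀, hI₀⟩ := normal_form I hI hdomK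
  have e1 : Eqv I (UV fK U₀ V₀) := by
    refine ⟨1, io fK c, one_ne_zero, ?_, ?_⟩
    · intro h0
      have := (co_io (h := fK) c).1
      rw [h0] at this
      have h3 := (co_io (h := fK) (0 : K[X])).1
      rw [map_zero, this] at h3
      exact hc h3
    · rw [Ideal.span_singleton_one, Ideal.top_mul, hI₀]
  obtain ⟨U, V, hU, hUV, hUg, hVU, e2⟩ := reduce hdomK h2 hsq hdK _ U₀ V₀ hU₀ hUV₀ rfl
  have e3 := e1.trans' e2
  rcases Nat.eq_zero_or_pos U.natDegree with h0 | hpos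
  · rw [UV_top hU h0] at e3
    obtain ⟨w', hw'⟩ := e3.symm'.princ (J := ⊤) (w := 1) (by
      rw [Ideal.top_mul, Ideal.span_singleton_one])
    exact ⟨w', by rw [← hw', Ideal.mul_top]⟩
  · exfalso
    obtain ⟨W, hW⟩ := hUV
    have hVd : V.natDegree ≤ U.natDegree - 1 := by
      by_cases h0 : V = 0
      · rw [h0, natDegree_zero]
        exact Nat.zero_le _
      · have := natDegree_lt_natDegree h0 hVU
        omega
    have h1 : (fK - V ^ 2).natDegree = 2 * g + 1 := by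
      rw [natDegree_sub_eq_left_of_natDegree_lt, hdK]
      rw [natDegree_pow, hdK]
      omega
    have hW0 : W ≠ 0 := by
      rintro rfl
      rw [hW, mul_zero, natDegree_zero] at h1
      omega
    have hWd : U.natDegree + W.natDegree = 2 * g + 1 := by
      rw [← natDegree_mul hU hW0, ← hW, h1]
    obtain ⟨a, ha⟩ := exists_a hsq hdK hW hU hW0 hpos (by omega) (by omega)
    obtain ⟨P, hP⟩ : ∃ P, P = W - 2 * C a * V - C (a ^ 2) * U := ⟨_, rfl⟩
    rw [← hP] at ha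
    have hPd : P.natDegree = W.natDegree := by
      rw [hP]
      have h3 : (2 * C a * V).natDegree < W.natDegree := by
        have h5 : (2 * C a : K[X]) = C (2 * a) := by rw [C_mul]; rfl
        rw [h5]
        exact lt_of_le_of_lt (natDegree_C_mul_le _ _) (by omega)
      have h4 : (C (a ^ 2) * U).natDegree < W.natDegree := by
        refine lt_of_le_of_lt (natDegree_C_mul_le _ _) (by omega)
      rw [natDegree_sub_eq_left_of_natDegree_lt, natDegree_sub_eq_left_of_natDegree_lt h3]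
      rw [natDegree_sub_eq_left_of_natDegree_lt h3]
      exact h4
    have hPe : fK - (V + U * C a) ^ 2 = U * P := by
      rw [hP, C_pow]
      linear_combination hW
    have hP0 : P ≠ 0 := by
      rintro rfl
      rw [natDegree_zero] at hPd
      omega
    have e4 : Eqv I (UV fK P (-(V + U * C a))) := by
      refine e3.trans' ?_
      rw [← UV_shift U V (C a)]
      exact UV_swap h2 hsq hPe hP0
    obtain ⟨n, hn⟩ := loc_main D eK rfl hj hK hm hd R hsq (P := P) (Q := -(V + U * C a))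
      ⟨U, by rw [neg_sq, hPe, mul_comm]⟩ ha (by omega) (by omega)
    obtain ⟨I', hI', w₀, hw₀⟩ := hdiv n
    obtain ⟨w', hw'⟩ := e4.princ hw₀
    exact hn I' hI' w' hw'

end Pool.Agent.K9h33.ORQ
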