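import Pool.Agent.K9h33.ORQ.Nf

/-!
From the coordinate ring over the field to the coordinate ring over the discrete valuation ring.
-/

set_option autoImplicit false

namespace Pool.Agent.K9h33.ORQ

open Polynomial

variable {O k K : Type} [CommRing O] [IsDomain O] [Field k] [Field K] {π : O} {φ : O →+* k}
  (j : O →+* K) {f : O[X]} {fK : K[X]} (eK : f.map j = fK)

lemma J_pi (n : ℕ) (z : CR f) : mp j eK (io f (C π) ^ n * z) =
    io fK (C (j π)) ^ n * mp j eK z := by
  rw [map_mul, map_pow, mp_io, map_C]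

/-- every element has a multiple in the subset -/
def Sc (π : O) (I : Ideal (CR fK)) (M : Ideal (CR f)) : Prop :=
  ∀ z ∈ I, ∃ n : ℕ, ∃ w ∈ M, mp j eK w = io fK (C (j π)) ^ n * z

lemma sc_mul {I I' : Ideal (CR fK)} {M M' : Ideal (CR f)} (h : Sc j eK π I M)
    (h' : Sc j eK π I' M') : Sc j eK π (I * I') (M * M') := by
  intro z hz
  induction hz using Submodule.mul_induction_on' with
  | mem_mul_mem x hx y hy =>
    obtain ⟨n, w, hw, hw'⟩ := h x hx
    obtain ⟨m, v, hv, hv'⟩ := h' y hy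
    refine ⟨n + m, w * v, Ideal.mul_mem_mul hw hv, ?_⟩
    rw [map_mul, hw', hv', pow_add]
    ring
  | add x _ y _ hx hy =>
    obtain ⟨n, w, hw, hw'⟩ := hx
    obtain ⟨m, v, hv, hv'⟩ := hy
    refine ⟨n + m, io f (C π) ^ m * w + io f (C π) ^ n * v,
      Ideal.add_mem _ (Ideal.mul_mem_left _ _ hw) (Ideal.mul_mem_left _ _ hv), ?_⟩
    rw [map_add, J_pi, J_pi, hw', hv', pow_add]
    ring

section scale

variable {j} (hK : ∀ x : K, ∃ (n : ℕ) (y : O), j π ^ n * x = j y)

include hK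

lemma sc_poly (P : K[X]) : ∃ (n : ℕ) (Q : O[X]), Q.map j = C (j π) ^ n * P := by
  induction P using Polynomial.induction_on' with
  | add P Q hP hQ =>
    obtain ⟨n, P', hP'⟩ := hP
    obtain ⟨m, Q', hQ'⟩ := hQ
    refine ⟨n + m, C π ^ m * P' + C π ^ n * Q', ?_⟩
    rw [Polynomial.map_add, Polynomial.map_mul, Polynomial.map_mul, Polynomial.map_pow,
      Polynomial.map_pow, map_C, hP', hQ', pow_add]
    ring
  | monomial m a =>
    obtain ⟨n, y, hy⟩ := hK a
    refine ⟨n, monomial m y, ?_⟩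
    rw [map_monomial, ← hy, ← C_pow, C_mul_monomial]

lemma sc_cr (z : CR fK) : ∃ (n : ℕ) (w : CR f), mp j eK w = io fK (C (j π)) ^ n * z := by
  obtain ⟨n, A, hA⟩ := sc_poly hK (c0 fK z)
  obtain ⟨m, B, hB⟩ := sc_poly hK (c1 fK z)
  refine ⟨n + m, io f (C π) ^ m * io f A + io f (C π) ^ n * (io f B * yy f), ?_⟩
  rw [map_add, J_pi, J_pi, map_mul, mp_io, mp_io, mp_yy, hA, hB]
  conv_rhs => rw [rep fK z]
  simp only [map_mul, map_pow]
  ring

lemma sc_comap (I : Ideal (CR fK)) : Sc j eK π I (I.comap (mp j eK)) := by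
  intro z hz
  obtain ⟨n, w, hw⟩ := sc_cr eK hK z
  refine ⟨n, w, ?_, hw⟩
  rw [Ideal.mem_comap, hw]
  exact Ideal.mul_mem_left _ _ hz

lemma sc_cj (I : Ideal (CR fK)) : Sc j eK π (I.map (cj fK)) ((I.comap (mp j eK)).map (cj f)) := by
  intro z hz
  rw [Ideal.mem_map_iff_of_surjective _ (fun a => ⟨cj fK a, cj_cj fK a⟩)] at hz
  obtain ⟨z', hz', rfl⟩ := hz
  obtain ⟨n, w, hw, hw'⟩ := sc_comap eK hK I z' hz'
  refine ⟨n, cj f w, Ideal.mem_map_of_mem _ hw, ?_⟩
  rw [mp_cj, hw', map_mul, map_pow, cj_io]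

lemma sc_pow {I : Ideal (CR fK)} {M : Ideal (CR f)} (h : Sc j eK π I M) (N : ℕ) :
    Sc j eK π (I ^ N) (M ^ N) := by
  induction N with
  | zero =>
    intro z _
    obtain ⟨n, w, hw⟩ := sc_cr eK hK z
    refine ⟨n, w, ?_, hw⟩
    rw [pow_zero, Ideal.one_eq_top]
    exact Submodule.mem_top
  | succ N ih =>
    have e1 : I ^ (N + 1) = I ^ N * I := pow_succ _ _
    have e2 : M ^ (N + 1) = M ^ N * M := pow_succ _ _
    intro z hz
    rw [e1] at hz
    obtain ⟨n, w, hw, hw'⟩ := sc_mul j eK ih h z hz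
    refine ⟨n, w, ?_, hw'⟩
    rw [e2]
    exact hw

variable (hj : Function.Injective j)

include hj

/-- the lattice of an ideal -/
theorem lat_UV {fb : k[X]} (e : f.map φ = fb) (hdomb : IsDomain (CR fb)) (D : DV π φ) (h2 : (2 : K) ≠ 0) (hsq : Squarefree fK)
    {U V : K[X]} (hUV : U ∣ fK - V ^ 2) {U' : O[X]} (hU' : U'.map φ ≠ 0) {c : K} (hc : c ≠ 0)
    (hUU' : U'.map j = C c * U) : Lat π φ ((UV fK U V).comap (mp j eK)) U' := by
  have hJ : Function.Injective (mp j eK) := mp_inj j eK hj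
  have hjπ : j π ≠ 0 := by
    rw [Ne, map_eq_zero_iff j hj]
    exact D.ne
  have hun : IsUnit (io fK (C (j π))) := (isUnit_C.2 (isUnit_iff_ne_zero.2 hjπ)).map _
  refine ⟨hU', ?_, ?_, ?_, ?_, ?_⟩
  · intro z hz
    rw [Ideal.mem_comap, map_mul, mp_io, map_C] at hz
    rw [Ideal.mem_comap]
    exact (Ideal.unit_mul_mem_iff_mem _ hun).1 hz
  · rw [Ideal.mem_comap, mp_io, hUU', map_mul]
    exact Ideal.mul_mem_left _ _ (Ideal.subset_span (by simp))
  · intro z hz w hw
    have h1 : mp j eK (z * cj f w) ∈ UV fK U V * (UV fK U V).map (cj fK) := by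
      rw [map_mul, mp_cj]
      exact Ideal.mul_mem_mul hz (Ideal.mem_map_of_mem _ hw)
    rw [UV_mul h2 hsq hUV, Ideal.mem_span_singleton] at h1
    obtain ⟨t, ht⟩ := h1
    obtain ⟨n, t', ht'⟩ := sc_cr eK hK (io fK (C c⁻¹) * t)
    have h3 : io f U' * t' = io f (C π) ^ n * (z * cj f w) := by
      apply hJ
      rw [J_pi, ht, map_mul, mp_io, hUU', ht', map_mul]
      have h4 : io fK (C c) * io fK (C c⁻¹) = 1 := by
        rw [← map_mul, ← C_mul, mul_inv_cancel₀ hc, C_1, map_one]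
      linear_combination (io fK U * io fK (C (j π)) ^ n * t) * h4
    have hu : mp φ e (io f U') ≠ 0 := by
      rw [mp_io]
      exact mp_io_ne hU'
    obtain ⟨t₃, ht₃⟩ := pow_dvd_of e D hdomb hu n _ h3
    refine ⟨t₃, ?_⟩
    apply pow_pi_inj D n
    rw [← h3, ht₃]
    ring
  · obtain ⟨n, z, hz⟩ := sc_cr eK hK (yy fK - io fK V)
    refine ⟨z, ?_, io f U', ?_, n, ?_⟩
    · rw [Ideal.mem_comap, hz]
      exact Ideal.mul_mem_left _ _ (Ideal.subset_span (by simp))
    · rw [Ideal.mem_comap, mp_io, hUU', map_mul]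
      exact Ideal.mul_mem_left _ _ (Ideal.subset_span (by simp))
    · have h1 : c1 f z = C π ^ n := by
        apply Polynomial.map_injective j hj
        rw [← (co_mp j eK z).2, hz, ← map_pow, (co_io_mul _ _).2, (co_yy V).2, mul_one,
          Polynomial.map_pow, map_C]
      unfold dt
      rw [(co_io _).1, (co_io _).2, h1, mul_zero, sub_zero]
  · have h1 : io fK U ∈ UV fK U V * (UV fK U V).map (cj fK) := by
      rw [UV_mul h2 hsq hUV]
      exact Ideal.mem_span_singleton_self _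
    obtain ⟨n, w, hw, hw'⟩ := sc_mul j eK (sc_comap eK hK (UV fK U V)) (sc_cj eK hK (UV fK U V)) _ h1
    obtain ⟨m, c', hc'⟩ := hK c
    refine ⟨n + m, ?_⟩
    have h3 : io f (C π) ^ (n + m) * io f U' = io f (C c') * w := by
      apply hJ
      rw [J_pi, map_mul, hw', mp_io, mp_io, hUU', map_C, ← hc', C_mul, C_pow, map_mul, map_mul,
        map_pow, pow_add]
      ring
    rw [h3]
    exact Ideal.mul_mem_left _ _ hw

end scale

end Pool.Agent.K9h33.ORQ
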