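import Pool.Agent.K9h33.ORQ.Red

/-!
Lemmas for the local theorem.
-/

set_option autoImplicit false

namespace Pool.Agent.K9h33.ORQ

open Polynomial

section one

variable (R : Type) [CommRing R]

lemma rescale_rescale (G : PowerSeries R) :
    PowerSeries.rescale (-1 : R) (PowerSeries.rescale (-1 : R) G) = G := by
  ext n
  rw [PowerSeries.coeff_rescale, PowerSeries.coeff_rescale, ← mul_assoc, ← mul_pow, neg_one_mul,
    neg_neg, one_pow, one_mul]

lemma cc_rescale (G : PowerSeries R) :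
    PowerSeries.constantCoeff (PowerSeries.rescale (-1 : R) G) = PowerSeries.constantCoeff G := by
  rw [← PowerSeries.coeff_zero_eq_constantCoeff_apply, PowerSeries.coeff_rescale, pow_zero, one_mul,
    PowerSeries.coeff_zero_eq_constantCoeff_apply]

lemma sg_sg (ω : Om R) : sg R (sg R ω) = ω := by
  obtain ⟨n, G, hG⟩ := om_rep R ω
  have h1 := congrArg (fun x => sg R (sg R x)) hG
  simp only [map_mul, map_pow, sg_tau, rescale_rescale, rescale_X', map_neg, neg_neg] at h1
  apply ((t_unit R).pow n).mul_left_cancel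
  rw [h1, hG]

lemma sg_inj : Function.Injective (sg R) := fun a b h => by
  rw [← sg_sg R a, h, sg_sg]

/-- units -/
lemma om_unit [IsDomain R] {ω : Om R} (hω : IsUnit ω) : ∃ (m n : ℕ) (l : PowerSeries R),
    IsUnit l ∧ tau R PowerSeries.X ^ m * ω = tau R PowerSeries.X ^ n * tau R l := by
  obtain ⟨ω', h⟩ := hω.exists_right_inv
  obtain ⟨m, n, l, hl, h1⟩ := om_lead R hω.ne_zero
  have hω' : ω' ≠ 0 := by
    rintro rfl
    rw [mul_zero] at h
    exact zero_ne_one h
  obtain ⟨m', n', l', hl', h2⟩ := om_lead R hω'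
  refine ⟨m, n, l, ?_, h1⟩
  have h3 : tau R PowerSeries.X ^ (n + n') * tau R (l * l') =
      tau R PowerSeries.X ^ (m + m') * tau R 1 := by
    rw [map_mul, map_one, pow_add, pow_add]
    linear_combination (-(tau R PowerSeries.X ^ n' * tau R l')) * h1 +
      (-(tau R PowerSeries.X ^ m * ω)) * h2 +
      (tau R PowerSeries.X ^ m * tau R PowerSeries.X ^ m') * h
  have h4 := (om_uniq R (by rw [map_mul]; exact mul_ne_zero hl hl')
    (by rw [map_one]; exact one_ne_zero) h3).2
  exact IsUnit.of_mul_eq_one _ h4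

end one

lemma pow_cong {A : Type} [CommRing A] {q t x y z : A} (h2 : (2 : A) = q * t) (h : x - y = q * z)
    (n : ℕ) : ∃ z', x ^ 2 ^ n - y ^ 2 ^ n = q ^ (n + 1) * z' := by
  induction n with
  | zero => exact ⟨z, by rw [pow_zero, pow_one, pow_one, zero_add, pow_one, h]⟩
  | succ n ih =>
    obtain ⟨z', hz'⟩ := ih
    refine ⟨z' * (t * y ^ 2 ^ n + q ^ n * z'), ?_⟩
    have h3 : x ^ 2 ^ (n + 1) - y ^ 2 ^ (n + 1) =
        (x ^ 2 ^ n - y ^ 2 ^ n) * ((x ^ 2 ^ n - y ^ 2 ^ n) + 2 * y ^ 2 ^ n) := by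
      rw [pow_succ 2 n, pow_mul, pow_mul]
      ring
    rw [h3, hz', h2]
    ring

variable {O k : Type} [CommRing O] [IsDomain O] [Field k] {π : O} {φ : O →+* k}

lemma rdc_sg (ω : Om O) : rdc φ (sg O ω) = sg k (rdc φ ω) := by
  obtain ⟨n, G, hG⟩ := om_rep O ω
  have h1 := congrArg (fun x => rdc φ (sg O x)) hG
  have h2 := congrArg (fun x => sg k (rdc φ x)) hG
  simp only [map_mul, map_pow, sg_tau, rdc_tau, rescale_X', map_neg, PowerSeries.map_X] at h1 h2
  have h3 : PowerSeries.map φ (PowerSeries.rescale (-1 : O) G) =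
      PowerSeries.rescale (-1 : k) (PowerSeries.map φ G) := by
    ext n
    rw [PowerSeries.coeff_map, PowerSeries.coeff_rescale, PowerSeries.coeff_rescale,
      PowerSeries.coeff_map, map_mul, map_pow, map_neg, map_one]
  rw [h3, ← h2] at h1
  exact (((t_unit k).neg).pow n).mul_left_cancel h1

lemma sg_pp : sg O (pp π) = pp π := by
  rw [sg_tau, rescale_C]

/-- divisibility of series by a power of `π` -/
lemma tau_dvd (D : DV π φ) (n : ℕ) : ∀ (G : PowerSeries O) (c : Om O), tau O G = pp π ^ n * c →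
    ∃ G', G = PowerSeries.C π ^ n * G' ∧ tau O G' = c := by
  induction n with
  | zero =>
    intro G c h
    exact ⟨G, by rw [pow_zero, one_mul], by rw [h, pow_zero, one_mul]⟩
  | succ n ih =>
    intro G c h
    have h1 : PowerSeries.map φ G = 0 := by
      apply tau_inj k
      rw [map_zero, ← rdc_tau, rdc_zero_iff D, h, pow_succ']
      exact ⟨pp π ^ n * c, by ring⟩
    obtain ⟨G', hG'⟩ := (ps_zero_iff D G).1 h1
    obtain ⟨G'', h2, h3⟩ := ih G' c (by
      apply mul_left_cancel₀ (pp_ne D)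
      rw [← map_mul, ← hG', h]
      ring)
    exact ⟨G'', by rw [hG', h2]; ring, h3⟩

variable {f : O[X]} {fb : k[X]} {g : ℕ} {ξ : PowerSeries O}

lemma T_C {R : Type} [CommRing R] {f : R[X]} {ξ : PowerSeries R}
    (hd : f.natDegree = 2 * g + 1) (S : Ser f g ξ) (a : R) :
    T hd S (io f (C a)) = tau R (PowerSeries.C a) := by
  rw [T_io, eval₂_C, RingHom.comp_apply]

/-- a function with at most a simple pole modulo `π ^ K` is constant modulo `π ^ K` -/
lemma simple_pole (D : DV π φ) (e : f.map φ = fb) (hd : f.natDegree = 2 * g + 1) (S : Ser f g ξ)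
    (hdb : fb.natDegree = 2 * g + 1) (hg : 1 ≤ g) {K : ℕ} {ε : CR f} {l : PowerSeries O} {ω : Om O}
    (h : tau O PowerSeries.X * T hd S ε = tau O l + pp π ^ K * ω) :
    π ^ K ∣ PowerSeries.constantCoeff l := by
  have Sb := S.red (φ := φ) e
  have hdomb : IsDomain (CR fb) := isDomain_CR (by rw [hdb]; exact ⟨g, rfl⟩)
  obtain ⟨e₀, he₀⟩ : ∃ e₀, e₀ = (c0 f ε).coeff 0 := ⟨_, rfl⟩
  obtain ⟨ε', hε'⟩ : ∃ ε', ε' = ε - io f (C e₀) := ⟨_, rfl⟩
  have hc : (c0 f ε').coeff 0 = 0 := by
    have h1 : ε = ε' + io f (C e₀) := by rw [hε']; ring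
    have h2 := congrArg (fun z => (c0 f z).coeff 0) h1
    simp only [(co_add _ _).1, (co_io _).1, coeff_add, coeff_C_zero] at h2
    rw [← he₀] at h2
    linear_combination -h2
  have hmain : tau O PowerSeries.X * T hd S ε' =
      tau O (l - PowerSeries.C e₀ * PowerSeries.X) + pp π ^ K * ω := by
    rw [hε', map_sub, T_C, mul_sub, h, map_sub, map_mul]
    ring
  have hdvd : ∃ ε₃, ε' = io f (C π) ^ K * ε₃ := by
    by_cases h0 : ε' = 0
    · exact ⟨0, by rw [h0, mul_zero]⟩
    obtain ⟨m, ε'', h1, h2⟩ := sep_cr e D h0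
    rcases le_or_gt K m with hKm | hKm
    · obtain ⟨j, rfl⟩ := Nat.exists_eq_add_of_le hKm
      exact ⟨io f (C π) ^ j * ε'', by rw [h1, pow_add]; ring⟩
    · exfalso
      obtain ⟨j, rfl⟩ := Nat.exists_eq_add_of_lt hKm
      have h3 : tau O (l - PowerSeries.C e₀ * PowerSeries.X) =
          pp π ^ m * (tau O PowerSeries.X * T hd S ε'' - pp π ^ (j + 1) * ω) := by
        have h4 : T hd S ε' = pp π ^ m * T hd S ε'' := by
          rw [h1, map_mul, map_pow, T_C]
        rw [h4] at hmain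
        rw [show m + j + 1 = m + (j + 1) by ring, pow_add] at hmain
        linear_combination -hmain
      obtain ⟨l₃, -, h5⟩ := tau_dvd D m _ _ h3
      have h6 := congrArg (rdc φ) h5
      have hq : rdc φ (pp π) = 0 := (rdc_zero_iff D _).2 dvd_rfl
      rw [rdc_tau, map_sub, map_mul, map_mul, map_pow, hq, rdc_tau, PowerSeries.map_X,
        rdc_T e hd S hdb Sb, zero_pow (Nat.succ_ne_zero j), zero_mul, sub_zero] at h6
      refine pole hdb Sb hdomb hg h2 ?_ h6.symm
      rw [(co_mp φ e ε'').1, coeff_map]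
      have h7 : (c0 f ε'').coeff 0 = 0 := by
        have h8 := hc
        rw [h1, ← map_pow, ← C_pow, (co_io_mul _ _).1, coeff_C_mul] at h8
        exact (mul_eq_zero.1 h8).resolve_left (pow_ne_zero m D.ne)
      rw [h7, map_zero]
  obtain ⟨ε₃, h3⟩ := hdvd
  have h4 : tau O (l - PowerSeries.C e₀ * PowerSeries.X) =
      pp π ^ K * (tau O PowerSeries.X * T hd S ε₃ - ω) := by
    have h5 : T hd S ε' = pp π ^ K * T hd S ε₃ := by
      rw [h3, map_mul, map_pow, T_C]
    rw [h5] at hmain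
    linear_combination -hmain
  obtain ⟨G', hG', -⟩ := tau_dvd D K _ _ h4
  have h5 := congrArg PowerSeries.constantCoeff hG'
  rw [map_sub, map_mul, PowerSeries.constantCoeff_X, mul_zero, sub_zero, map_mul, map_pow,
    PowerSeries.constantCoeff_C] at h5
  exact ⟨_, h5⟩

end Pool.Agent.K9h33.ORQ
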