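import Pool.Agent.K9h33.ORQ.Lem

/-!
The local theorem.
-/

set_option autoImplicit false

namespace Pool.Agent.K9h33.ORQ

open Polynomial

variable {O k : Type} [CommRing O] [IsDomain O] [Field k] {π : O} {φ : O →+* k}
variable {f : O[X]} {fb : k[X]} {g : ℕ} {ξ : PowerSeries O} {M : Ideal (CR f)} {u : O[X]}

lemma two_pow_succ (n : ℕ) : 2 ^ (n + 1) = 2 ^ n + 2 ^ n := by
  rw [pow_succ]
  omega

lemma mp_io_ne {fb : k[X]} {P : k[X]} (h : P ≠ 0) : io fb P ≠ 0 := by
  intro h4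
  have h5 := (co_io (h := fb) P).1
  rw [h4] at h5
  have h6 := (co_io (h := fb) (0 : k[X])).1
  rw [map_zero] at h6
  rw [h6] at h5
  exact h h5.symm

/-- the affine part of the local theorem -/
theorem affine [IsNoetherianRing O] (D : DV π φ) (e : f.map φ = fb)
    (hdb : fb.natDegree = 2 * g + 1) (R : Rgl f π φ) (L : Lat π φ M u) (n : ℕ) {w : CR f}
    (hwM : ∃ m : ℕ, io f (C π) ^ m * w ∈ M ^ 2 ^ (n + 1)) {P : O[X]}
    (hnm : nm f w = P * u ^ 2 ^ (n + 1)) : ∃ ρ ∈ M ^ 2, ∃ ε : CR f, mp φ e ρ = io fb (u.map φ) ∧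
      w * cj f ρ ^ 2 ^ n = io f u ^ 2 ^ (n + 1) * ε ∧ nm fb (mp φ e ε) = P.map φ := by
  have hodd : Odd fb.natDegree := by rw [hdb]; exact ⟨g, rfl⟩
  have hdomb : IsDomain (CR fb) := isDomain_CR hodd
  obtain ⟨ρ, hρM, hρ⟩ := exists_rho e D D.two R hodd L
  have hle : M * M.map (cj f) ≤ Ideal.span {io f u} := by
    have hM' : M.map (cj f) = Ideal.span (cj f '' M) := rfl
    rw [Ideal.mul_le]
    intro z hz z' hz'
    have hz'' : ∃ z'' ∈ M, cj f z'' = z' := by
      rwa [Ideal.mem_map_iff_of_surjective _ (fun a => ⟨cj f a, cj_cj f a⟩)] at hz'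
    obtain ⟨z'', h1, rfl⟩ := hz''
    rw [Ideal.mem_span_singleton]
    exact L.nrm z hz z'' h1
  obtain ⟨m, hm⟩ := hwM
  have h1 : io f (C π) ^ m * w * cj f ρ ^ 2 ^ n ∈ Ideal.span {io f u ^ 2 ^ (n + 1)} := by
    rw [← Ideal.span_singleton_pow]
    apply Ideal.pow_right_mono hle (2 ^ (n + 1))
    rw [mul_pow]
    refine Ideal.mul_mem_mul hm ?_
    have h2 : cj f ρ ∈ M.map (cj f) ^ 2 := by
      rw [← Ideal.map_pow]
      exact Ideal.mem_map_of_mem _ hρM
    rw [pow_succ' 2 n, pow_mul]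
    exact Ideal.pow_mem_pow h2 _
  obtain ⟨ε', hε'⟩ := Ideal.mem_span_singleton.1 h1
  have hum : mp φ e (io f u ^ 2 ^ (n + 1)) ≠ 0 := by
    rw [map_pow, mp_io]
    exact pow_ne_zero _ (mp_io_ne L.prim)
  obtain ⟨ε, hε⟩ := pow_dvd_of e D hdomb hum m (z := ε') (w * cj f ρ ^ 2 ^ n) (by
    rw [← hε']
    ring)
  have h3 : w * cj f ρ ^ 2 ^ n = io f u ^ 2 ^ (n + 1) * ε := by
    apply pow_pi_inj D m
    rw [hε] at hε'
    linear_combination hε'
  refine ⟨ρ, hρM, ε, hρ, h3, ?_⟩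
  have h4 := congrArg (mp φ e) h3
  rw [map_mul, map_pow, mp_cj, hρ, cj_io, map_mul, map_pow, mp_io, two_pow_succ, pow_add,
    mul_assoc] at h4
  have h5 : mp φ e w = io fb (u.map φ) ^ 2 ^ n * mp φ e ε := by
    apply mul_left_cancel₀ (pow_ne_zero (2 ^ n) (mp_io_ne L.prim))
    rw [← h4, mul_comm]
  have h6 := nm_mp φ e w
  rw [h5, nm_mul, ← map_pow, nm_io, hnm, Polynomial.map_mul, Polynomial.map_pow, ← pow_mul,
    show 2 ^ n * 2 = 2 ^ (n + 1) by rw [pow_succ]] at h6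
  apply mul_left_cancel₀ (pow_ne_zero (2 ^ (n + 1)) L.prim)
  rw [h6]
  ring

/-- the generator at infinity: the norm -/
lemma norm_Y (D : DV π φ) (e : f.map φ = fb) (hd : f.natDegree = 2 * g + 1) (S : Ser f g ξ)
    (hdb : fb.natDegree = 2 * g + 1) (L : Lat π φ M u) {Y : PowerSeries O}
    (hY0 : PowerSeries.map φ Y ≠ 0) (hY1 : ∀ z ∈ M, tau O Y ∣ T hd S z)
    (hY2 : ∃ n : ℕ, pp π ^ n * tau O Y ∈ M.map (T hd S)) :
    ∃ d : Om O, IsUnit d ∧ T hd S (io f u) = tau O Y * sg O (tau O Y) * d := by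
  have Sb := S.red (φ := φ) e
  have hdomb : IsDomain (CR fb) := isDomain_CR (by rw [hdb]; exact ⟨g, rfl⟩)
  obtain ⟨y, hy⟩ : ∃ y, y = tau O Y := ⟨_, rfl⟩
  rw [← hy] at hY1 hY2 ⊢
  have hyr : rdc φ y ≠ 0 := by
    rw [hy, rdc_tau]
    intro h
    exact hY0 (tau_inj k (by rw [h, map_zero]))
  have hysr : rdc φ (sg O y) ≠ 0 := by
    rw [rdc_sg]
    intro h
    exact hyr (sg_inj k (by rw [h, map_zero]))
  have hUr : rdc φ (T hd S (io f u)) ≠ 0 := by
    rw [rdc_T e hd S hdb Sb, mp_io]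
    exact T_ne hdb Sb hdomb (mp_io_ne L.prim)
  have hJ1 : M.map (T hd S) ≤ Ideal.span {y} := by
    rw [Ideal.map_le_iff_le_comap]
    intro z hz
    rw [Ideal.mem_comap, Ideal.mem_span_singleton]
    exact hY1 z hz
  have hJ2 : (M.map (cj f)).map (T hd S) ≤ Ideal.span {sg O y} := by
    rw [Ideal.map_le_iff_le_comap, Ideal.map_le_iff_le_comap]
    intro z hz
    rw [Ideal.mem_comap, Ideal.mem_comap, Ideal.mem_span_singleton, ← sg_T]
    exact map_dvd (sg O) (hY1 z hz)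
  have hJ3 : (M.map (T hd S)).map (sg O) = (M.map (cj f)).map (T hd S) := by
    rw [Ideal.map_map, Ideal.map_map]
    congr 1
    exact RingHom.ext fun z => sg_T hd S z
  have hle : M * M.map (cj f) ≤ Ideal.span {io f u} := by
    rw [Ideal.mul_le]
    intro z hz z' hz'
    have hz'' : ∃ z'' ∈ M, cj f z'' = z' := by
      rwa [Ideal.mem_map_iff_of_surjective _ (fun a => ⟨cj f a, cj_cj f a⟩)] at hz'
    obtain ⟨z'', h1, rfl⟩ := hz''
    rw [Ideal.mem_span_singleton]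
    exact L.nrm z hz z'' h1
  obtain ⟨n, hn⟩ := L.prod
  have h1 : pp π ^ n * T hd S (io f u) ∈ Ideal.span {y * sg O y} := by
    have h2 : T hd S (io f (C π) ^ n * io f u) ∈ (M * M.map (cj f)).map (T hd S) :=
      Ideal.mem_map_of_mem _ hn
    rw [map_mul, map_pow, T_C, Ideal.map_mul] at h2
    rw [← Ideal.span_singleton_mul_span_singleton]
    exact Ideal.mul_mono hJ1 hJ2 h2
  obtain ⟨b, hb⟩ := Ideal.mem_span_singleton.1 h1
  obtain ⟨d₁, -, hd₁⟩ := gauss D (by rw [map_mul]; exact mul_ne_zero hyr hysr) hb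
  obtain ⟨m, hm⟩ := hY2
  have h2 : pp π ^ (m + m) * (y * sg O y) ∈ Ideal.span {T hd S (io f u)} := by
    have h3 : sg O (pp π ^ m * y) ∈ (M.map (T hd S)).map (sg O) := Ideal.mem_map_of_mem _ hm
    rw [hJ3, map_mul, map_pow, sg_pp] at h3
    have h4 := Ideal.mul_mem_mul hm h3
    rw [← Ideal.map_mul] at h4
    have h5 := Ideal.map_mono (f := T hd S) hle h4
    rw [Ideal.map_span, Set.image_singleton] at h5
    have h6 : pp π ^ (m + m) * (y * sg O y) = pp π ^ m * y * (pp π ^ m * sg O y) := by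
      rw [pow_add]
      ring
    rw [h6]
    exact h5
  obtain ⟨b', hb'⟩ := Ideal.mem_span_singleton.1 h2
  obtain ⟨d₂, -, hd₂⟩ := gauss D hUr hb'
  refine ⟨d₁, ?_, hd₁⟩
  apply IsUnit.of_mul_eq_one d₂
  have h7 : y * sg O y ≠ 0 := by
    intro h0
    have h8 := congrArg (rdc φ) h0
    rw [map_mul, map_zero] at h8
    exact mul_ne_zero hyr hysr h8
  apply mul_left_cancel₀ h7
  rw [mul_one]
  conv_rhs => rw [hd₂, hd₁]
  ring

/-- the expansion of a linear polynomial -/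
lemma T_lin (hd : f.natDegree = 2 * g + 1) (S : Ser f g ξ) (lam α : O) :
    tau O PowerSeries.X ^ 2 * T hd S (io f (C lam * (1 - C α * X))) =
      tau O (PowerSeries.C lam * (PowerSeries.X ^ 2 - PowerSeries.C α * ξ)) := by
  have h1 : T hd S (io f (C lam * (1 - C α * X))) = tau O (PowerSeries.C lam) *
      (1 - tau O (PowerSeries.C α) * xx ξ) := by
    rw [T_io, eval₂_mul, eval₂_C, eval₂_sub, eval₂_one, eval₂_mul, eval₂_C, eval₂_X,
      RingHom.comp_apply, RingHom.comp_apply]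
  rw [h1, map_mul, map_sub, map_mul, map_pow]
  unfold xx
  linear_combination (-(tau O (PowerSeries.C lam) * tau O (PowerSeries.C α) * tau O ξ)) *
    (tau O PowerSeries.X * ti O + 1) * tt O

/-- **The local theorem**, points near infinity -/
theorem near [IsNoetherianRing O] (D : DV π φ) (e : f.map φ = fb) (hd : f.natDegree = 2 * g + 1)
    (S : Ser f g ξ) (hdb : fb.natDegree = 2 * g + 1) (hg : 1 ≤ g) (R : Rgl f π φ) (L : Lat π φ M u)
    (n : ℕ) {w : CR f} (hw : mp φ e w ≠ 0)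
    (hwM : ∃ m : ℕ, io f (C π) ^ m * w ∈ M ^ 2 ^ (n + 1)) {lam α : O} (hlam : φ lam ≠ 0)
    (hα : φ α = 0) (hα0 : α ≠ 0)
    (hnm : nm f w = C lam * (1 - C α * X) * u ^ 2 ^ (n + 1)) : π ^ (n + 1) ∣ α := by
  have Sb := S.red (φ := φ) e
  have hdomb : IsDomain (CR fb) := isDomain_CR (by rw [hdb]; exact ⟨g, rfl⟩)
  obtain ⟨ρ, hρM, ε, hρ, hε, hεn⟩ := affine D e hdb R L n hwM hnm
  obtain ⟨Y, hY0, hY1, hY2⟩ := exists_Y D e hd S hdb L
  obtain ⟨d, hdu, hdY⟩ := norm_Y D e hd S hdb L hY0 hY1 hY2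
  obtain ⟨y, hy⟩ : ∃ y, y = tau O Y := ⟨_, rfl⟩
  rw [← hy] at hY1 hdY
  have hyr : rdc φ y ≠ 0 := by
    rw [hy, rdc_tau]
    intro h
    exact hY0 (tau_inj k (by rw [h, map_zero]))
  have hysr : rdc φ (sg O y) ≠ 0 := by
    rw [rdc_sg]
    intro h
    exact hyr (sg_inj k (by rw [h, map_zero]))
  have hyy : y * sg O y ≠ 0 := by
    intro h0
    have h8 := congrArg (rdc φ) h0
    rw [map_mul, map_zero] at h8
    exact mul_ne_zero hyr hysr h8
  have hJ1 : M.map (T hd S) ≤ Ideal.span {y} := by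
    rw [Ideal.map_le_iff_le_comap]
    intro z hz
    rw [Ideal.mem_comap, Ideal.mem_span_singleton]
    exact hY1 z hz
  have hJp : ∀ (N : ℕ) (z : CR f), z ∈ M ^ N → ∃ c, T hd S z = y ^ N * c := by
    intro N z hz
    have h1 : T hd S z ∈ (M ^ N).map (T hd S) := Ideal.mem_map_of_mem _ hz
    rw [Ideal.map_pow] at h1
    have h2 := Ideal.pow_right_mono hJ1 N h1
    rw [Ideal.span_singleton_pow] at h2
    exact Ideal.mem_span_singleton.1 h2
  -- the constant
  have hcb : ∃ cb : k, mp φ e ε = io fb (C cb) ∧ cb ≠ 0 := by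
    have h1 : (C lam * (1 - C α * X) : O[X]).map φ = C (φ lam) := by
      rw [Polynomial.map_mul, Polynomial.map_sub, Polynomial.map_mul, map_C, map_C, hα, C_0,
        zero_mul, Polynomial.map_one, sub_zero, mul_one]
    rw [h1] at hεn
    obtain ⟨h2, h3⟩ := deg_nm hdb hg (z := mp φ e ε) (by rw [hεn, natDegree_C]; omega)
    refine ⟨(c0 fb (mp φ e ε)).coeff 0, ?_, ?_⟩
    · conv_lhs => rw [rep fb (mp φ e ε)]
      rw [h2, map_zero, zero_mul, add_zero]
      conv_lhs => rw [eq_C_of_natDegree_eq_zero h3]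
    · intro h0
      unfold nm at hεn
      rw [h2, eq_C_of_natDegree_eq_zero h3, h0, C_0, zero_pow two_ne_zero, mul_zero, sub_zero] at hεn
      exact hlam (C_eq_zero.1 hεn.symm)
  obtain ⟨cb, hcb, hcb0⟩ := hcb
  -- the expansions
  obtain ⟨m, hm⟩ := hwM
  obtain ⟨c', hc'⟩ := hJp _ _ hm
  rw [map_mul, map_pow, T_C] at hc'
  obtain ⟨l', -, hl'⟩ := gauss D (by rw [map_pow]; exact pow_ne_zero _ hyr) hc'
  obtain ⟨r, hr⟩ := hJp _ _ hρM
  have hrr : rdc φ r ≠ 0 := by
    intro h0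
    have h1 := congrArg (rdc φ) hr
    rw [map_mul, h0, mul_zero, rdc_T e hd S hdb Sb, hρ] at h1
    exact T_ne hdb Sb hdomb (mp_io_ne L.prim) h1
  have hl'0 : rdc φ l' ≠ 0 := by
    intro h0
    have h1 := congrArg (rdc φ) hl'
    rw [map_mul, h0, mul_zero, rdc_T e hd S hdb Sb] at h1
    exact T_ne hdb Sb hdomb hw h1
  have hN : (2 : ℕ) ^ (n + 1) = 2 ^ n + 2 ^ n := two_pow_succ n
  have h6 : l' * sg O l' = T hd S (io f (C lam * (1 - C α * X))) * d ^ 2 ^ (n + 1) := by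
    apply mul_left_cancel₀ (pow_ne_zero (2 ^ (n + 1)) hyy)
    have h1 := T_nm hd S w
    rw [hnm, map_mul (io f), map_mul (T hd S), map_pow (io f), map_pow (T hd S), hdY, hl', map_mul,
      map_pow] at h1
    rw [mul_pow] at h1 ⊢
    rw [mul_pow] at h1
    linear_combination h1
  have h7 : l' * sg O r ^ 2 ^ n = d ^ 2 ^ (n + 1) * T hd S ε := by
    apply mul_left_cancel₀ (pow_ne_zero (2 ^ (n + 1)) hyy)
    have h1 := congrArg (T hd S) hε
    rw [map_mul, map_pow, ← sg_T, hr, map_mul, map_pow, map_mul (T hd S), map_pow (T hd S), hdY,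
      hl'] at h1
    have h2 : (sg O y ^ 2 * sg O r) ^ 2 ^ n = sg O y ^ 2 ^ (n + 1) * sg O r ^ 2 ^ n := by
      rw [mul_pow, ← pow_mul, pow_succ' 2 n]
    rw [h2] at h1
    rw [mul_pow] at h1 ⊢
    rw [mul_pow] at h1
    linear_combination h1
  -- approximation of `r`
  obtain ⟨t2, ht2⟩ : ∃ t2, (2 : Om O) = pp π * t2 := by
    obtain ⟨t', ht'⟩ := (D.ker 2).1 (by rw [map_ofNat]; exact D.two)
    refine ⟨tau O (PowerSeries.C t'), ?_⟩
    rw [← map_mul, ← map_mul, ← ht', map_ofNat, map_ofNat]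
  obtain ⟨v, hvu, r'', hr''⟩ : ∃ v : Om O, IsUnit v ∧ ∃ r'', sg O r ^ 2 ^ n = v + pp π ^ (n + 1) * r'' := by
    obtain ⟨a, b, lb, hlb, h1⟩ := om_lead k hrr
    obtain ⟨l₀, hl₀⟩ := PowerSeries.map_surjective φ D.surj lb
    have hl₀u : IsUnit l₀ := by
      rw [PowerSeries.isUnit_iff_constantCoeff]
      apply D.unit
      rw [← PowerSeries.coeff_zero_eq_constantCoeff_apply, ← PowerSeries.coeff_map, hl₀,
        PowerSeries.coeff_zero_eq_constantCoeff_apply]
      exact hlb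
    obtain ⟨r₀, hr₀⟩ : ∃ r₀, r₀ = ti O ^ a * (tau O PowerSeries.X ^ b * tau O l₀) := ⟨_, rfl⟩
    have hr₀u : IsUnit r₀ := by
      rw [hr₀]
      exact ((ti_unit O).pow a).mul (((t_unit O).pow b).mul (hl₀u.map (tau O)))
    have h2 : rdc φ (r - r₀) = 0 := by
      apply ((t_unit k).pow a).mul_left_cancel
      rw [map_sub, mul_sub, h1, hr₀, map_mul, map_mul, map_pow, map_pow, rdc_ti, rdc_tau, rdc_tau,
        PowerSeries.map_X, hl₀, mul_zero]
      have h3 : tau k PowerSeries.X ^ a * ti k ^ a = 1 := by rw [← mul_pow, tt, one_pow]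
      linear_combination (-(tau k PowerSeries.X ^ b * tau k lb)) * h3
    obtain ⟨z, hz⟩ := (rdc_zero_iff D _).1 h2
    have h3 : sg O r - sg O r₀ = pp π * sg O z := by
      rw [← map_sub, hz, map_mul, sg_pp]
    obtain ⟨z', hz'⟩ := pow_cong ht2 h3 n
    exact ⟨sg O r₀ ^ 2 ^ n, (hr₀u.map (sg O)).pow _, z', by linear_combination hz'⟩
  obtain ⟨d', hdd⟩ := (hdu.pow (2 ^ (n + 1))).exists_right_inv
  have hVu : IsUnit (d' * v) := by
    refine IsUnit.mul ?_ hvu
    exact IsUnit.of_mul_eq_one _ (by rw [mul_comm]; exact hdd)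
  have h8 : T hd S ε = d' * v * l' + pp π ^ (n + 1) * (d' * l' * r'') := by
    rw [hr''] at h7
    linear_combination (-T hd S ε) * hdd - d' * h7
  obtain ⟨a₁, b₁, U, hU, hUV⟩ := om_unit O hVu
  obtain ⟨a₂, b₂, l, hl, hll⟩ := om_lead O (ω := l') (by
    rintro rfl
    exact hl'0 (map_zero _))
  obtain ⟨a₃, b₃, U₁, hU₁, hd₁⟩ := om_unit O hdu
  -- the norm of `l`
  obtain ⟨N, hN'⟩ : ∃ N, N = 2 ^ (n + 1) := ⟨_, rfl⟩
  rw [← hN'] at h6
  obtain ⟨Λ, hΛ⟩ : ∃ Λ, Λ = PowerSeries.C lam * (PowerSeries.X ^ 2 - PowerSeries.C α * ξ) :=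
    ⟨_, rfl⟩
  have hTl := T_lin hd S lam α
  rw [← hΛ] at hTl
  have hcΛ : PowerSeries.constantCoeff Λ = -(lam * α) := by
    rw [hΛ, map_mul, map_sub, map_mul, map_pow, PowerSeries.constantCoeff_X,
      PowerSeries.constantCoeff_C, PowerSeries.constantCoeff_C, S.one, zero_pow two_ne_zero]
    ring
  have hlam0 : lam ≠ 0 := by
    rintro rfl
    exact hlam (map_zero φ)
  have hU₁c : IsUnit (PowerSeries.constantCoeff U₁) := hU₁.map _
  have hUc : IsUnit (PowerSeries.constantCoeff U) := hU.map _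
  obtain ⟨sa, hsa⟩ : ∃ sa, sa = (-1 : O) ^ a₂ := ⟨_, rfl⟩
  obtain ⟨sb, hsb⟩ : ∃ sb, sb = (-1 : O) ^ b₂ := ⟨_, rfl⟩
  have hsau : IsUnit sa := by
    rw [hsa]
    exact (isUnit_one.neg).pow a₂
  have hsbu : IsUnit sb := by
    rw [hsb]
    exact (isUnit_one.neg).pow b₂
  have h9 : PowerSeries.C sa * Λ * U₁ ^ N =
      PowerSeries.C sb * (l * PowerSeries.rescale (-1 : O) l) := by
    have e1 := congrArg (sg O) hll
    rw [map_mul, map_mul, map_pow, map_pow, sg_tau, sg_tau, rescale_X', map_neg, neg_pow _ a₂,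
      neg_pow _ b₂] at e1
    have e2 : (tau O PowerSeries.X ^ a₃ * d) ^ N = (tau O PowerSeries.X ^ b₃ * tau O U₁) ^ N := by
      rw [hd₁]
    rw [mul_pow, mul_pow, ← pow_mul, ← pow_mul] at e2
    have hs₁ : tau O (PowerSeries.C sa) = (-1) ^ a₂ := by
      rw [hsa, map_pow, map_pow, map_neg, map_neg, map_one, map_one]
    have hs₂ : tau O (PowerSeries.C sb) = (-1) ^ b₂ := by
      rw [hsb, map_pow, map_pow, map_neg, map_neg, map_one, map_one]
    refine (om_uniq O (m := 2 * a₂ + b₃ * N) (n := 2 * b₂ + 2 + a₃ * N) ?_ ?_ ?_).2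
    · rw [map_mul, map_mul, map_pow, hcΛ, PowerSeries.constantCoeff_C]
      refine mul_ne_zero (mul_ne_zero hsau.ne_zero ?_) (pow_ne_zero _ hU₁c.ne_zero)
      exact neg_ne_zero.2 (mul_ne_zero hlam0 hα0)
    · rw [map_mul, map_mul, cc_rescale, PowerSeries.constantCoeff_C]
      exact mul_ne_zero hsbu.ne_zero (mul_ne_zero hl hl)
    · rw [map_mul, map_mul, map_mul, map_mul, map_pow, hs₁, hs₂]
      generalize tau O PowerSeries.X = X at *
      generalize tau O l = τl at *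
      generalize tau O (PowerSeries.rescale (-1 : O) l) = τs at *
      generalize tau O Λ = τΛ at *
      generalize tau O U₁ = τU at *
      generalize T hd S (io f (C lam * (1 - C α * Polynomial.X))) = Tl at *
      have e3 : (-1) ^ a₂ * X ^ (2 * a₂) * (Tl * d ^ N) =
          (-1) ^ b₂ * X ^ (2 * b₂) * (τl * τs) := by
        rw [← h6, two_mul, two_mul, pow_add, pow_add]
        linear_combination (X ^ a₂ * l') * e1 + ((-1) ^ b₂ * X ^ b₂ * τs) * hll
      rw [pow_add, pow_add, pow_add]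
      linear_combination (-(-1) ^ a₂ * X ^ (2 * a₂) * τΛ) * e2 +
        (-(-1) ^ a₂ * X ^ (2 * a₂) * X ^ (a₃ * N) * d ^ N) * hTl + (X ^ 2 * X ^ (a₃ * N)) * e3
  -- the constant term
  have h10 : ∃ κ : O, IsUnit κ ∧ κ * PowerSeries.constantCoeff l ^ 2 = α ∧ φ κ ≠ 0 := by
    have e1 := congrArg PowerSeries.constantCoeff h9
    rw [map_mul, map_mul, map_mul, map_mul, map_pow, cc_rescale, hcΛ, PowerSeries.constantCoeff_C,
      PowerSeries.constantCoeff_C] at e1
    have hlamu : IsUnit lam := D.unit _ hlam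
    obtain ⟨x, hx⟩ := (hsau.mul (hlamu.mul (hU₁c.pow N))).exists_right_inv
    have hxu : IsUnit x := IsUnit.of_mul_eq_one _ (by rw [mul_comm]; exact hx)
    refine ⟨-(sb * x), (hsbu.mul hxu).neg, ?_, ?_⟩
    · linear_combination x * e1 + α * hx
    · exact (((hsbu.mul hxu).neg).map φ).ne_zero
  obtain ⟨κ, hκ, hκl, hκφ⟩ := h10
  have hl0 : φ (PowerSeries.constantCoeff l) = 0 := by
    have e1 := congrArg φ hκl
    rw [map_mul, map_pow, hα] at e1
    exact eq_zero_of_pow_eq_zero ((mul_eq_zero.1 e1).resolve_left hκφ)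
  -- the exponents
  obtain ⟨A, hA⟩ : ∃ A, A = a₁ + a₂ := ⟨_, rfl⟩
  obtain ⟨B, hB⟩ : ∃ B, B = b₁ + b₂ := ⟨_, rfl⟩
  have h11 : tau O PowerSeries.X ^ A * T hd S ε = tau O PowerSeries.X ^ B * tau O (l * U) +
      pp π ^ (n + 1) * (tau O PowerSeries.X ^ A * (d' * l' * r'')) := by
    rw [h8, hA, hB, map_mul, pow_add, pow_add]
    linear_combination (tau O PowerSeries.X ^ a₂ * l') * hUV +
      (tau O PowerSeries.X ^ b₁ * tau O U) * hll
  have hq : rdc φ (pp π) = 0 := (rdc_zero_iff D _).2 dvd_rfl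
  obtain ⟨lb, hlb⟩ : ∃ lb, lb = PowerSeries.map φ (l * U) := ⟨_, rfl⟩
  have h12 : PowerSeries.X ^ A * PowerSeries.C cb = PowerSeries.X ^ B * lb := by
    have e1 := congrArg (rdc φ) h11
    rw [map_add (rdc φ), map_mul (rdc φ), map_mul (rdc φ), map_mul (rdc φ), map_pow (rdc φ),
      map_pow (rdc φ), map_pow (rdc φ), hq, rdc_tau, rdc_tau,
      PowerSeries.map_X, rdc_T e hd S hdb Sb, hcb, T_C, zero_pow (Nat.succ_ne_zero n), zero_mul,
      add_zero, ← hlb] at e1
    apply tau_inj k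
    rw [map_mul (tau k), map_mul (tau k), map_pow (tau k), map_pow (tau k)]
    exact e1
  have hccb : PowerSeries.constantCoeff lb = 0 := by
    rw [hlb, ← PowerSeries.coeff_zero_eq_constantCoeff_apply, PowerSeries.coeff_map,
      PowerSeries.coeff_zero_eq_constantCoeff_apply, map_mul, map_mul, hl0, zero_mul]
  have hX : (PowerSeries.X : PowerSeries k) ≠ 0 := PowerSeries.X_ne_zero
  have hAB : B < A := by
    by_contra hc
    obtain ⟨j, rfl⟩ := Nat.exists_eq_add_of_le (not_lt.1 hc)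
    rw [pow_add, mul_assoc] at h12
    have e1 := mul_left_cancel₀ (pow_ne_zero A hX) h12
    have e2 := congrArg PowerSeries.constantCoeff e1
    rw [PowerSeries.constantCoeff_C, map_mul, hccb, mul_zero] at e2
    exact hcb0 e2
  obtain ⟨j, hj⟩ := Nat.exists_eq_add_of_lt hAB
  have h13 : PowerSeries.X ^ (j + 1) * PowerSeries.C cb = lb := by
    rw [hj, add_assoc, pow_add, mul_assoc] at h12
    exact mul_left_cancel₀ (pow_ne_zero B hX) h12
  have hj0 : j = 0 := by
    by_contra hj0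
    have e1 := congrArg (PowerSeries.map φ) h9
    have e2 : lb * PowerSeries.rescale (-1 : k) lb =
        PowerSeries.map φ (l * PowerSeries.rescale (-1 : O) l) *
          PowerSeries.map φ (U * PowerSeries.rescale (-1 : O) U) := by
      have e3 : PowerSeries.rescale (-1 : k) lb =
          PowerSeries.map φ (PowerSeries.rescale (-1 : O) (l * U)) := by
        ext i
        rw [hlb, PowerSeries.coeff_map, PowerSeries.coeff_rescale, PowerSeries.coeff_rescale,
          PowerSeries.coeff_map, map_mul φ, map_pow φ, map_neg, map_one]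
      rw [e3, hlb, ← map_mul, ← map_mul]
      congr 1
      rw [map_mul]
      ring
    have e3 : PowerSeries.map φ Λ = PowerSeries.C (φ lam) * PowerSeries.X ^ 2 := by
      rw [hΛ, map_mul, map_sub, map_mul, map_pow, PowerSeries.map_C, PowerSeries.map_C,
        PowerSeries.map_X, hα, map_zero, zero_mul, sub_zero]
    obtain ⟨W, hW⟩ : ∃ W, W = PowerSeries.map φ (PowerSeries.C sa *
        PowerSeries.C lam * U₁ ^ N * (U * PowerSeries.rescale (-1 : O) U)) := ⟨_, rfl⟩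
    have hWc : PowerSeries.constantCoeff W ≠ 0 := by
      have h1 : IsUnit (PowerSeries.C sa * PowerSeries.C lam * U₁ ^ N *
          (U * PowerSeries.rescale (-1 : O) U)) :=
        (((hsau.map PowerSeries.C).mul ((D.unit _ hlam).map PowerSeries.C)).mul (hU₁.pow N)).mul
          (hU.mul (hU.map (PowerSeries.rescale (-1 : O))))
      rw [hW]
      exact ((h1.map (PowerSeries.map φ)).map PowerSeries.constantCoeff).ne_zero
    have e4 : PowerSeries.X ^ 2 * W = PowerSeries.map φ (PowerSeries.C sb) *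
        (lb * PowerSeries.rescale (-1 : k) lb) := by
      rw [e2, ← mul_assoc, ← map_mul, ← e1, hW]
      simp only [map_mul]
      rw [e3, PowerSeries.map_C φ lam]
      ring
    obtain ⟨i, rfl⟩ : ∃ i, j = i + 1 := ⟨j - 1, by omega⟩
    have e5 : PowerSeries.X ^ 2 * W = PowerSeries.X ^ 2 *
        (PowerSeries.map φ (PowerSeries.C sb) * (PowerSeries.X ^ i *
          PowerSeries.C cb * PowerSeries.rescale (-1 : k) lb)) := by
      rw [e4]
      generalize PowerSeries.rescale (-1 : k) lb = lr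
      rw [← h13]
      ring
    have e6 := mul_left_cancel₀ (pow_ne_zero 2 hX) e5
    apply hWc
    rw [e6, map_mul, map_mul, cc_rescale, hccb, mul_zero, mul_zero]
  rw [hj0] at hj
  -- conclusion
  have h14 : tau O PowerSeries.X * T hd S ε = tau O (l * U) +
      pp π ^ (n + 1) * (tau O PowerSeries.X * (d' * l' * r'')) := by
    apply ((t_unit O).pow B).mul_left_cancel
    rw [hj] at h11
    rw [show B + 0 + 1 = B + 1 by ring, pow_succ] at h11
    linear_combination h11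
  have h15 := simple_pole D e hd S hdb hg h14
  rw [map_mul] at h15
  have h16 : π ^ (n + 1) ∣ PowerSeries.constantCoeff l := by
    obtain ⟨x, hx⟩ := hUc.exists_right_inv
    obtain ⟨z, hz⟩ := h15
    refine ⟨z * x, ?_⟩
    linear_combination x * hz - (PowerSeries.constantCoeff l) * hx
  rw [← hκl, sq]
  exact (h16.mul_right _).mul_left _

end Pool.Agent.K9h33.ORQ
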