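import Pool.Agent.N99.PF.Main
import Pool.Agent.K9h33.ORQ.GfR

/-!
A positive proportion, with regularity at the prime ideals over `2`. Adapted from
`N99/PF/Main.lean` (helper99, after helper400, helper415 and helper874) and from
`K9h33/ORP/Main3.lean` (helper33).
-/

set_option autoImplicit false
set_option linter.all false

open Polynomial NumberField
open scoped Classical

namespace Pool.Agent.K9h33.ORQ

open Pool.Agent.N783.PF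
open Pool.Agent.N352.PJ (dd)
open Pool.Agent.N99.PF

variable {F : Type} [Field F] [NumberField F]

theorem r2_scale {g B W : ℕ} {f₁ : (𝓞 F)[X]} {S : Finset ℕ} {P : ℕ → (𝓞 F)[X]} (h4W : 4 ∣ W)
    (hr : ∀ 𝔭 : Ideal (𝓞 F), 𝔭.IsPrime → (2 : 𝓞 F) ∈ 𝔭 → Rg 𝔭 f₁) {f : (𝓞 F)[X]}
    (hf : Fam g B W f₁ S P f) (J : Finset ℕ) (hJ : ∀ q ∈ J, q % 8 = 1) :
    R2 (f.scaleRoots ((Dp J : ℕ) : 𝓞 F)) := by
  intro 𝔭 hp h2
  refine rg_congr (fun j => ?_) (hr 𝔭 hp h2)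
  have h4 : (4 : 𝓞 F) ∈ 𝔭 ^ 2 := by
    have e : (4 : 𝓞 F) = 2 ^ 2 := by norm_num
    rw [e]
    exact Ideal.pow_mem_pow h2 2
  have hD : Ideal.Quotient.mk (𝔭 ^ 2) ((Dp J : ℕ) : 𝓞 F) = 1 := by
    have h1 : ∀ q ∈ J, Ideal.Quotient.mk (𝔭 ^ 2) ((q : ℕ) : 𝓞 F) = 1 := by
      intro q hq
      have h2 := hJ q hq
      have h6 : q = 4 * (q / 4) + 1 := by omega
      have h5 : Ideal.Quotient.mk (𝔭 ^ 2) (4 : 𝓞 F) = 0 := Ideal.Quotient.eq_zero_iff_mem.2 h4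
      rw [h6]
      push_cast
      rw [map_add, map_mul, h5, zero_mul, zero_add, map_one]
    unfold Dp
    rw [Nat.cast_prod, map_prod]
    exact Finset.prod_eq_one h1
  have hW : sp F W ≤ 𝔭 ^ 2 := by
    rw [Ideal.span_singleton_le_iff_mem]
    obtain ⟨m, hm⟩ := h4W
    rw [hm]
    push_cast
    exact Ideal.mul_mem_right _ _ h4
  rw [coeff_sub]
  refine Ideal.Quotient.eq.1 ?_
  rw [coeff_scaleRoots, map_mul, map_pow, hD, one_pow, mul_one]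
  exact Ideal.Quotient.eq.2 (hW (hf.one j))

/-- PF-MAIN -/
theorem mainR' (h0 : S_PTS) (h1 : S_FAMR) (h2 : S_BAD) (h3 : S_EXS) (h4 : S_TW) : S_MAINR := by
  intro g F _ _ hg
  obtain ⟨κ, htw⟩ := h4 g F hg
  obtain ⟨C, K, hbad⟩ := h2 F g κ hg
  obtain ⟨W, f₁, hKW, hf₁, h4W, hr2, c, hc, hfam⟩ := h1 F g hg (max K κ)
  obtain ⟨-, Cp, hCp, -, hpt⟩ := h0 F
  set D : ℕ := Module.finrank ℚ F * dd g with hD
  obtain ⟨m, hm⟩ : ∃ m : ℕ, 2 * (C * (4 * 2 ^ κ : ℝ) ^ D) / c < 2 ^ m :=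
    pow_unbounded_of_one_lt _ (by norm_num)
  obtain ⟨S, 𝔮, h, P, hS, hcard⟩ := h3 F g W hg m
  obtain ⟨B₁₀, hB₁₀⟩ := hfam S 𝔮 h P hS
  obtain ⟨N₀, hN₀⟩ := hbad W S 𝔮 h P ((le_max_left _ _).trans hKW) hS
  set Q : ℕ := ∏ q ∈ S, q with hQ
  have hq1 : ∀ q ∈ S, 1 ≤ q := fun q hq => (hS q hq).1.pos
  have hQ1 : 1 ≤ Q := Finset.one_le_prod' hq1
  set Pn : ℕ := (∏ q ∈ S, q ^ (2 * g)) ^ Module.finrank ℚ F with hPn
  have hP0 : (0 : ℝ) < Pn := by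
    have : 0 < Pn := pow_pos (Finset.prod_pos fun q hq => pow_pos (hq1 q hq) _) _
    exact_mod_cast this
  have hQ0 : (0 : ℝ) < Q := by exact_mod_cast hQ1
  set X₀ : ℕ := max (max B₁₀ (4 ^ N₀)) 1 with hX₀
  refine ⟨c / 2 / (Pn * 2 ^ m * ((2 * Cp) ^ (2 * g) * (2 * Q) ^ D)), by positivity, X₀ * Q,
    fun B hB => ?_⟩
  set B₁ : ℕ := B / Q with hB₁
  have hBX : X₀ ≤ B₁ := (Nat.le_div_iff_mul_le hQ1).2 hB
  have hb1 : 1 ≤ B₁ := (le_max_right _ _).trans hBX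
  have hb2 : B₁₀ ≤ B₁ := ((le_max_left _ _).trans (le_max_left _ _)).trans hBX
  have hb3 : 4 ^ N₀ ≤ B₁ := ((le_max_right _ _).trans (le_max_left _ _)).trans hBX
  have hBQ : B₁ * Q ≤ B := Nat.div_mul_le_self B Q
  have hBQ2 : B ≤ 2 * Q * B₁ := by
    have e1 : B < B₁ * Q + Q := by
      have := Nat.lt_div_mul_add (a := B) (b := Q) hQ1
      exact this
    nlinarith
  have hB1 : 1 ≤ B := le_trans (by nlinarith) hBQ
  obtain ⟨N, hNa, hNb⟩ : ∃ N : ℕ, 2 ^ κ * B₁ ≤ 4 ^ N ∧ 4 ^ N ≤ 4 * (2 ^ κ * B₁) := by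
    refine ⟨Nat.log 4 (2 ^ κ * B₁) + 1, (Nat.lt_pow_succ_log_self (by norm_num) _).le, ?_⟩
    rw [pow_succ, mul_comm]
    refine Nat.mul_le_mul_left 4 (Nat.pow_log_le_self 4 ?_)
    positivity
  have hNN : N₀ ≤ N := by
    have e1 : 4 ^ N₀ ≤ 4 ^ N := hb3.trans (le_trans (Nat.le_mul_of_pos_left _ (by positivity)) hNa)
    exact (Nat.pow_le_pow_iff_right (by norm_num)).1 e1
  obtain ⟨hfin, hBd⟩ := hN₀ N hNN
  refine ⟨(ht_card hCp hpt g B hB1).1, ?_⟩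
  set H := {f : (𝓞 F)[X] | Ht g B f ∧ Irreducible (fF f) ∧ SelZero f ∧ Min g f ∧ R2 f} with hH
  set G := {f : (𝓞 F)[X] | Fam g B₁ W f₁ S P f} \ {f : (𝓞 F)[X] | LBad g N κ S 𝔮 P f} with hGdef
  have hHf : H.Finite := (ht_card hCp hpt g B hB1).1.subset fun f hf => hf.1
  have hGf : G.Finite := (ht_card hCp hpt g B₁ hb1).1.subset fun f hf => hf.1.ht
  have hG : c / 2 * (B₁ : ℝ) ^ D ≤ Pn * (G.ncard : ℝ) := by
    refine good_card (C := C) (m := m) (κ := κ) hc hP0 B₁ N (hB₁₀ B₁ hb2) hfin ?_ hm ?_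
    · rw [hcard] at hBd
      have e2 : Module.finrank ℚ F * (2 * N * dd g) = 2 * N * D := by rw [hD]; ring
      rw [e2] at hBd
      exact_mod_cast hBd
    · exact_mod_cast hNb
  have hJ0 : ∀ J ⊆ S, ((Dp J : ℕ) : 𝓞 F) ≠ 0 := by
    intro J hJ
    have : 0 < ∏ q ∈ J, q := Finset.prod_pos fun q hq => hq1 q (hJ hq)
    have h5 : (Dp J : ℕ) ≠ 0 := this.ne'
    exact_mod_cast h5
  have hcard1 := card_fib hGf hHf S (fun J f => f.scaleRoots ((Dp J : ℕ) : 𝓞 F)) (by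
      intro f hf
      obtain ⟨J, hJ, hirr, hsel⟩ := htw B₁ N W f₁ S 𝔮 h P f ((le_max_right _ _).trans hKW) hf₁ hS
        hf.1 hNa hb1 hf.2
      have hDle : Dp J ≤ Q :=
        Finset.prod_le_prod_of_subset_of_one_le' hJ fun q hq _ => hq1 q hq
      exact ⟨J, hJ, ht_scale hf.1.ht ((Nat.mul_le_mul_left _ hDle).trans hBQ), hirr, hsel.1, hsel.2,
        r2_scale h4W hr2 hf.1 J (fun q hq => (hS q (hJ hq)).2.2.2.1)⟩) (by
      intro J hJ x hx y hy hxy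
      exact scale_inj (hJ0 J hJ) (by rw [hx.1.ht.deg, hy.1.ht.deg]) hxy)
  rw [hcard] at hcard1
  have hcard' : (G.ncard : ℝ) ≤ 2 ^ m * H.ncard := by exact_mod_cast hcard1
  have hM' : ({f : (𝓞 F)[X] | Ht g B f}.ncard : ℝ) ≤
      (2 * Cp) ^ (2 * g) * (2 * Q) ^ D * (B₁ : ℝ) ^ D := by
    have e1 : ({f : (𝓞 F)[X] | Ht g B f}.ncard : ℝ) ≤ (2 * Cp) ^ (2 * g) * (B : ℝ) ^ D :=
      (ht_card hCp hpt g B hB1).2
    refine e1.trans ?_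
    rw [mul_assoc, ← mul_pow]
    have e2 : (B : ℝ) ≤ 2 * Q * B₁ := by exact_mod_cast hBQ2
    gcongr
  calc c / 2 / (Pn * 2 ^ m * ((2 * Cp) ^ (2 * g) * (2 * Q) ^ D)) *
        ({f : (𝓞 F)[X] | Ht g B f}.ncard : ℝ)
      ≤ c / 2 / (Pn * 2 ^ m * ((2 * Cp) ^ (2 * g) * (2 * Q) ^ D)) *
        ((2 * Cp) ^ (2 * g) * (2 * Q) ^ D * (B₁ : ℝ) ^ D) :=
        mul_le_mul_of_nonneg_left hM' (by positivity)
    _ = c / 2 * (B₁ : ℝ) ^ D / (Pn * 2 ^ m) := by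
        field_simp
    _ ≤ (Pn * (G.ncard : ℝ)) / (Pn * 2 ^ m) := by gcongr
    _ ≤ (Pn * (2 ^ m * H.ncard)) / (Pn * 2 ^ m) := by gcongr
    _ = H.ncard := by field_simp

end Pool.Agent.K9h33.ORQ
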