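import Pool.Agent.N783.PF.Final
import Pool.Agent.K9h33.ORQ.GfR
import Pool.Agent.K9h33.ORQ.FamR
import Pool.Agent.K9h33.ORQ.MainR0

/-!
Assembly: a positive proportion, with regularity at the prime ideals over `2`.
-/

set_option autoImplicit false

namespace Pool.Agent.K9h33.ORQ

open Pool.Agent.N352.PF

theorem famTR : S_FAMR :=
  famR bxT
    (Pool.Agent.N352.PF.SML99.sml Pool.Agent.N75.PF.cu bxT Pool.Agent.N189.PF.ld Pool.Agent.N195.PF.pr
      Pool.Agent.N195.PF.pf)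
    Pool.Agent.N935.PF.WK.wk
    (Pool.Agent.N352.PF.STR331.str Pool.Agent.N75.PF.cu Pool.Agent.N364.PF.cl Pool.Agent.N195.PF.pf)
    Pool.Agent.N195.PF.dscp gfR Pool.Agent.N195.PF.pf

theorem mainR : S_MAINR :=
  mainR' Pool.Agent.N490.PF.pts famTR Pool.Agent.N783.PF.bad Pool.Agent.N710.PF.exs
    Pool.Agent.N783.PF.tw

end Pool.Agent.K9h33.ORQ
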