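import Pool.Agent.K9h33.ORQ.Loc

/-!
Ideals of the coordinate ring over a field: normal form, norms.
-/

set_option autoImplicit false

namespace Pool.Agent.K9h33.ORQ

open Polynomial

variable {K : Type} [Field K] {h : K[X]}

/-- the ideal `(U, y - V)` -/
noncomputable def UV (h U V : K[X]) : Ideal (CR h) := Ideal.span {io h U, yy h - io h V}

lemma co_yy (A : K[X]) : c0 h (yy h - io h A) = -A ∧ c1 h (yy h - io h A) = 1 := by
  apply co
  rw [map_neg, map_one]
  ring

lemma span_mul_pair {R : Type} [CommRing R] (a b c : R) :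
    Ideal.span {a} * Ideal.span {b, c} = Ideal.span {a * b, a * c} := by
  rw [Ideal.span_mul_span', Set.singleton_mul, Set.image_pair]

/-- normal form -/
theorem normal_form (I : Ideal (CR h)) (hI : I ≠ ⊥) (hdom : IsDomain (CR h)) :
    ∃ c U V : K[X], c ≠ 0 ∧ U ≠ 0 ∧ U ∣ h - V ^ 2 ∧ I = Ideal.span {io h c} * UV h U V := by
  obtain ⟨h₀, hh₀⟩ : ∃ h₀, I.comap (io h) = Ideal.span {h₀} :=
    (IsPrincipalIdealRing.principal (I.comap (io h))).principal
  let I1 : Ideal K[X] :=
    { carrier := {P | ∃ z ∈ I, c1 h z = P}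
      add_mem' := by
        rintro _ _ ⟨z, hz, rfl⟩ ⟨w, hw, rfl⟩
        exact ⟨z + w, Ideal.add_mem _ hz hw, (co_add _ _).2⟩
      zero_mem' := by
        refine ⟨0, Ideal.zero_mem _, ?_⟩
        have := (co_io (h := h) (0 : K[X])).2
        rwa [map_zero] at this
      smul_mem' := by
        rintro A _ ⟨z, hz, rfl⟩
        exact ⟨io h A * z, Ideal.mul_mem_left _ _ hz, (co_io_mul _ _).2⟩ }
  obtain ⟨h₁, hh₁⟩ : ∃ h₁, I1 = Ideal.span {h₁} :=
    (IsPrincipalIdealRing.principal I1).principal
  have hI1 : ∀ P, P ∈ I1 ↔ ∃ z ∈ I, c1 h z = P := fun P => Iff.rfl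
  have hI1' : ∀ z ∈ I, ∃ B, c1 h z = h₁ * B := by
    intro z hz
    exact Ideal.mem_span_singleton.1 (by rw [← hh₁]; exact (hI1 _).2 ⟨z, hz, rfl⟩)
  have hI0' : ∀ A, io h A ∈ I → ∃ B, A = h₀ * B := by
    intro A hA
    exact Ideal.mem_span_singleton.1 (by rw [← hh₀]; exact hA)
  obtain ⟨w₂, hw₂, hw₂'⟩ := (hI1 h₁).1 (by rw [hh₁]; exact Ideal.mem_span_singleton_self _)
  have hw₁ : io h h₀ ∈ I := by
    have : h₀ ∈ I.comap (io h) := by
      rw [hh₀]
      exact Ideal.mem_span_singleton_self _
    exact this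
  have hyio : ∀ A : K[X], c1 h (yy h * io h A) = A := by
    intro A
    exact (co (h := h) (z := yy h * io h A) (A := 0) (B := A) (by rw [map_zero]; ring)).2
  obtain ⟨U, hU⟩ := hI1' _ (Ideal.mul_mem_left I (yy h) hw₁)
  rw [hyio] at hU
  obtain ⟨V', hV'⟩ := hI1' _ (Ideal.mul_mem_left I (yy h) hw₂)
  have hyw : c1 h (yy h * w₂) = c0 h w₂ := by
    have e1 : yy h * w₂ = io h (h * c1 h w₂) + io h (c0 h w₂) * yy h := by
      conv_lhs => rw [rep h w₂]
      rw [map_mul, ← yy_sq]
      ring
    exact (co e1).2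
  rw [hyw] at hV'
  obtain ⟨V, hV⟩ : ∃ V, V = -V' := ⟨_, rfl⟩
  have hw₂e : w₂ = io h h₁ * (yy h - io h V) := by
    conv_lhs => rw [rep h w₂]
    rw [hV', hw₂', hV, map_mul, map_neg]
    ring
  -- nonzero
  obtain ⟨z, hz, hz0⟩ := Submodule.exists_mem_ne_zero_of_ne_bot hI
  have hn : nm h z ≠ 0 := by
    intro h1
    have h2 := mul_cj h z
    rw [h1, map_zero] at h2
    rcases mul_eq_zero.1 h2 with h3 | h3
    · exact hz0 h3
    · apply hz0
      rw [← cj_cj h z, h3, map_zero]
  have hh0 : h₀ ≠ 0 := by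
    rintro rfl
    obtain ⟨B, hB⟩ := hI0' (nm h z) (by rw [← mul_cj]; exact Ideal.mul_mem_right _ _ hz)
    rw [zero_mul] at hB
    exact hn hB
  have hh1 : h₁ ≠ 0 := by
    rintro rfl
    rw [zero_mul] at hU
    exact hh0 hU
  have hU0 : U ≠ 0 := by
    rintro rfl
    rw [mul_zero] at hU
    exact hh0 hU
  refine ⟨h₁, U, V, hh1, hU0, ?_, ?_⟩
  · have h1 : io h (h₁ * (h - V ^ 2)) ∈ I := by
      have h2 : io h (h₁ * (h - V ^ 2)) = (yy h + io h V) * w₂ := by
        rw [hw₂e, map_mul, map_sub, map_pow, ← yy_sq]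
        ring
      rw [h2]
      exact Ideal.mul_mem_left _ _ hw₂
    obtain ⟨B, hB⟩ := hI0' _ h1
    refine ⟨B, ?_⟩
    apply mul_left_cancel₀ hh1
    rw [hB, hU]
    ring
  · unfold UV
    rw [span_mul_pair]
    apply le_antisymm
    · intro z hz
      obtain ⟨B, hB⟩ := hI1' z hz
      have h1 : z - io h B * w₂ ∈ I := Ideal.sub_mem _ hz (Ideal.mul_mem_left _ _ hw₂)
      have h2 : z - io h B * w₂ = io h (c0 h z + h₁ * B * V) := by
        conv_lhs => rw [rep h z, hw₂e, hB]
        simp only [map_add, map_mul]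
        ring
      rw [h2] at h1
      obtain ⟨A, hA⟩ := hI0' _ h1
      have h3 : z = io h A * (io h h₁ * io h U) + io h B * (io h h₁ * (yy h - io h V)) := by
        have h4 : z = io h (c0 h z + h₁ * B * V) + io h B * w₂ := by rw [← h2]; ring
        rw [hA, hU] at h4
        rw [h4, hw₂e]
        simp only [map_mul]
        ring
      rw [h3]
      exact Ideal.add_mem _ (Ideal.mul_mem_left _ _ (Ideal.subset_span (by simp)))
        (Ideal.mul_mem_left _ _ (Ideal.subset_span (by simp)))
    · rw [Ideal.span_le]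
      rintro x hx
      rcases hx with rfl | hx
      · rw [SetLike.mem_coe, ← map_mul, ← hU]
        exact hw₁
      · rw [Set.mem_singleton_iff] at hx
        rw [hx, ← hw₂e]
        exact hw₂

/-- norms of the ideals in normal form -/
theorem UV_mul (h2 : (2 : K) ≠ 0) (hsq : Squarefree h) {U V : K[X]} (hUV : U ∣ h - V ^ 2) :
    UV h U V * (UV h U V).map (cj h) = Ideal.span {io h U} := by
  obtain ⟨W, hW⟩ := hUV
  have e1 : (UV h U V).map (cj h) = Ideal.span {io h U, -yy h - io h V} := by
    unfold UV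
    rw [Ideal.map_span, Set.image_pair, cj_io, map_sub, cj_io, cj_yy]
  have hyy : (yy h - io h V) * (-yy h - io h V) = io h U * io h (-W) := by
    rw [← map_mul, mul_neg, ← hW, map_neg, map_sub, map_pow, ← yy_sq]
    ring
  rw [e1]
  unfold UV
  apply le_antisymm
  · rw [Ideal.span_mul_span', Ideal.span_le]
    rintro _ ⟨x, hx, y, hy, rfl⟩
    rw [SetLike.mem_coe, Ideal.mem_span_singleton]
    simp only [Set.mem_insert_iff, Set.mem_singleton_iff] at hx hy
    rcases hx with rfl | rfl
    · exact dvd_mul_right _ _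
    · rcases hy with rfl | rfl
      · exact dvd_mul_left _ _
      · exact ⟨_, hyy⟩
  · rw [Ideal.span_singleton_le_iff_mem]
    obtain ⟨I, hI⟩ : ∃ I, I = Ideal.span {io h U, yy h - io h V} *
        Ideal.span {io h U, -yy h - io h V} := ⟨_, rfl⟩
    rw [← hI]
    have m1 : io h U * io h U ∈ I := by
      rw [hI]
      exact Ideal.mul_mem_mul (Ideal.subset_span (by simp)) (Ideal.subset_span (by simp))
    have m2 : io h U * (-yy h - io h V) ∈ I := by
      rw [hI]
      exact Ideal.mul_mem_mul (Ideal.subset_span (by simp)) (Ideal.subset_span (by simp))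
    have m3 : (yy h - io h V) * io h U ∈ I := by
      rw [hI]
      exact Ideal.mul_mem_mul (Ideal.subset_span (by simp)) (Ideal.subset_span (by simp))
    have m4 : io h U * io h (-W) ∈ I := by
      rw [← hyy, hI]
      exact Ideal.mul_mem_mul (Ideal.subset_span (by simp)) (Ideal.subset_span (by simp))
    -- the ideal of the polynomials `A` with `U A` in `I`
    obtain ⟨d, hd⟩ : ∃ d, (Ideal.span {U, V, W} : Ideal K[X]) = Ideal.span {d} :=
      (IsPrincipalIdealRing.principal _).principal
    have hdU : d ∣ U := Ideal.mem_span_singleton.1 (by rw [← hd]; exact Ideal.subset_span (by simp))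
    have hdV : d ∣ V := Ideal.mem_span_singleton.1 (by rw [← hd]; exact Ideal.subset_span (by simp))
    have hdW : d ∣ W := Ideal.mem_span_singleton.1 (by rw [← hd]; exact Ideal.subset_span (by simp))
    have hdu : IsUnit d := by
      apply hsq
      have e2 : h = U * W + V * V := by linear_combination hW
      rw [e2]
      exact dvd_add (mul_dvd_mul hdU hdW) (mul_dvd_mul hdV hdV)
    have h1 : (1 : K[X]) ∈ (Ideal.span {U, V, W} : Ideal K[X]) := by
      rw [hd, Ideal.mem_span_singleton]
      exact hdu.dvd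
    have key : ∀ A ∈ (Ideal.span {U, V, W} : Ideal K[X]), io h U * io h A ∈ I := by
      intro A hA
      induction hA using Submodule.span_induction with
      | mem x hx =>
        simp only [Set.mem_insert_iff, Set.mem_singleton_iff] at hx
        rcases hx with rfl | rfl | rfl
        · exact m1
        · have e3 : io h U * io h x = io h (C (-(2 : K)⁻¹)) *
              (io h U * (-yy h - io h x) + (yy h - io h x) * io h U) := by
            have e4 : io h U * (-yy h - io h x) + (yy h - io h x) * io h U =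
                io h (C (-(2 : K))) * (io h U * io h x) := by
              rw [C_neg, map_neg, map_ofNat, map_ofNat]
              ring
            have e5 : io h (C (-(2 : K)⁻¹)) * io h (C (-(2 : K))) = 1 := by
              rw [← map_mul, ← C_mul, neg_mul_neg, inv_mul_cancel₀ h2, C_1, map_one]
            rw [e4, ← mul_assoc, e5, one_mul]
          rw [e3]
          exact Ideal.mul_mem_left _ _ (Ideal.add_mem _ m2 m3)
        · have e3 : io h U * io h x = -(io h U * io h (-x)) := by
            rw [map_neg]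
            ring
          rw [e3]
          exact (Ideal.neg_mem_iff _).2 m4
      | zero => rw [map_zero, mul_zero]; exact Ideal.zero_mem _
      | add x y _ _ hx hy => rw [map_add, mul_add]; exact Ideal.add_mem _ hx hy
      | smul a x _ hx =>
        rw [smul_eq_mul, map_mul, mul_left_comm]
        exact Ideal.mul_mem_left _ _ hx
    have h3 := key 1 h1
    rwa [map_one, mul_one] at h3

end Pool.Agent.K9h33.ORQ
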