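import Pool.Agent.K9h33.ORQ.Glo3
import Pool.Agent.K9h33.ORQ.St

/-!
Number fields.
-/

set_option autoImplicit false

namespace Pool.Agent.K9h33.ORQ

open Polynomial NumberField IsDedekindDomain
open Pool.Agent.N783.PF (fF)

section dvr

variable {O : Type} [CommRing O] [IsDomain O] [IsDiscreteValuationRing O]

/-- discrete valuation rings -/
lemma dv_of {π : O} (hπ : Irreducible π) (h2 : IsLocalRing.residue O 2 = 0) :
    DV π (IsLocalRing.residue O) := by
  have hmax : IsLocalRing.maximalIdeal O = Ideal.span {π} := hπ.maximalIdeal_eq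
  refine ⟨IsLocalRing.residue_surjective, ?_, ?_, ?_, hπ.ne_zero, ?_⟩
  · intro x
    rw [IsLocalRing.residue_eq_zero_iff, hmax, Ideal.mem_span_singleton]
  · intro x hx
    rw [Ne, IsLocalRing.residue_eq_zero_iff, IsLocalRing.mem_maximalIdeal, mem_nonunits_iff,
      not_not] at hx
    exact hx
  · intro x hx
    obtain ⟨n, u, hu⟩ := IsDiscreteValuationRing.eq_unit_mul_pow_irreducible hx hπ
    refine ⟨n + 1, ?_⟩
    rintro ⟨y, hy⟩
    apply hπ.not_isUnit
    have h1 : π ^ n * (u : O) = π ^ n * (π * y) := by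
      rw [mul_comm, ← hu, hy]
      ring
    have h3 := mul_left_cancel₀ (pow_ne_zero n hπ.ne_zero) h1
    exact isUnit_of_mul_isUnit_left (h3 ▸ u.isUnit)
  · rwa [map_ofNat] at h2

/-- denominators -/
lemma den {A K : Type} [CommRing A] [IsDomain A] [Field K] [Algebra A K] [IsFractionRing A K]
    (r : A →+* O) (hr : Function.Injective r) (j : O →+* K) (hj : Function.Injective j)
    (hrj : ∀ x, j (r x) = algebraMap A K x) {π : O} (hπ : Irreducible π) (x : K) :
    ∃ (n : ℕ) (y : O), j π ^ n * x = j y := by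
  obtain ⟨a, b, hb, rfl⟩ := IsFractionRing.div_surjective (A := A) x
  have hb0 : b ≠ 0 := nonZeroDivisors.ne_zero hb
  have hrb : r b ≠ 0 := by
    rw [Ne, map_eq_zero_iff r hr]
    exact hb0
  obtain ⟨n, u, hu⟩ := IsDiscreteValuationRing.eq_unit_mul_pow_irreducible hrb hπ
  refine ⟨n, (↑u⁻¹ : O) * r a, ?_⟩
  have h1 : algebraMap A K b ≠ 0 := by
    rw [← hrj, Ne, map_eq_zero_iff j hj]
    exact hrb
  rw [mul_div_assoc', div_eq_iff h1, ← hrj, ← hrj, hu, map_mul, map_mul, map_pow]
  have h2 : j (↑u⁻¹ : O) * j (u : O) = 1 := by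
    rw [← map_mul, Units.inv_mul, map_one]
  linear_combination (-(j π ^ n * j (r a))) * h2

end dvr

variable {F : Type} [Field F] [NumberField F]

/-- **an ideal which is equivalent to `2 ^ n`-th powers for all `n` is principal** -/
theorem nf_cls {g : ℕ} {f : (𝓞 F)[X]} (hm : f.Monic) (hd : f.natDegree = 2 * g + 1)
    (hi : Irreducible (fF f)) (v : HeightOneSpectrum (𝓞 F)) (hv : (2 : 𝓞 F) ∈ v.asIdeal)
    (hR : Rg v.asIdeal f) {h : F[X]} (hh : h = fF f) {I : Ideal (CR h)} (hI : I ≠ ⊥)
    (hdiv : ∀ n : ℕ, ∃ I' : Ideal (CR h), I' ≠ ⊥ ∧ ∃ w₀ : CR h, I * I' ^ 2 ^ (n + 1) =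
      Ideal.span {w₀}) : ∃ x, I = Ideal.span {x} := by
  have hp : v.asIdeal.IsPrime := v.isPrime
  obtain ⟨O, _, _, _, _, _⟩ : ∃ (O : Type) (_ : CommRing O) (_ : IsDomain O)
      (_ : Algebra (𝓞 F) O) (_ : IsLocalization.AtPrime O v.asIdeal), True :=
    ⟨Localization.AtPrime v.asIdeal, inferInstance, inferInstance, inferInstance, inferInstance,
      trivial⟩
  have hdvr : IsDiscreteValuationRing O :=
    IsLocalization.AtPrime.isDiscreteValuationRing_of_dedekind_domain (𝓞 F) v.ne_bot O
  obtain ⟨r, hr⟩ : ∃ r : 𝓞 F →+* O, r = algebraMap (𝓞 F) O := ⟨_, rfl⟩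
  have hrinj : Function.Injective r := by
    rw [hr]
    exact IsLocalization.injective O v.asIdeal.primeCompl_le_nonZeroDivisors
  have hmap : v.asIdeal.map r = IsLocalRing.maximalIdeal O := by
    rw [hr]
    exact IsLocalization.AtPrime.map_eq_maximalIdeal v.asIdeal O
  have hcomap : ∀ x : 𝓞 F, r x ∈ IsLocalRing.maximalIdeal O ↔ x ∈ v.asIdeal := by
    intro x
    rw [hr]
    exact IsLocalization.AtPrime.to_map_mem_maximal_iff O v.asIdeal x
  obtain ⟨π, hπ⟩ := IsDiscreteValuationRing.exists_irreducible O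
  have hmax : IsLocalRing.maximalIdeal O = Ideal.span {π} := hπ.maximalIdeal_eq
  have D : DV π (IsLocalRing.residue O) := by
    refine dv_of hπ ?_
    rw [IsLocalRing.residue_eq_zero_iff]
    have := (hcomap 2).2 hv
    rwa [map_ofNat] at this
  -- the embedding into `F`
  obtain ⟨j, hj⟩ : ∃ j : O →+* F, j.comp r = algebraMap (𝓞 F) F := by
    refine ⟨IsLocalization.lift (M := v.asIdeal.primeCompl) (g := algebraMap (𝓞 F) F) ?_, ?_⟩
    · intro y
      apply isUnit_iff_ne_zero.2
      have h1 : (y : 𝓞 F) ≠ 0 := fun h0 => y.2 (by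
        rw [h0]
        exact v.asIdeal.zero_mem)
      rw [Ne, map_eq_zero_iff _ (FaithfulSMul.algebraMap_injective (𝓞 F) F)]
      exact h1
    · rw [hr]
      exact IsLocalization.lift_comp _
  have hjr : ∀ x, j (r x) = algebraMap (𝓞 F) F x := fun x => by rw [← hj]; rfl
  have hjinj : Function.Injective j := by
    rw [injective_iff_map_eq_zero]
    intro x hx
    obtain ⟨⟨a, s⟩, hs⟩ := IsLocalization.surj v.asIdeal.primeCompl x
    have h1 : j x * j (r s) = j (r a) := by
      rw [← map_mul, hr]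
      exact congrArg j hs
    rw [hx, zero_mul, hjr] at h1
    have h3 : a = 0 := by
      rw [← map_eq_zero_iff _ (FaithfulSMul.algebraMap_injective (𝓞 F) F)]
      exact h1.symm
    have h4 : x * r s = 0 := by
      rw [hr]
      rw [hs]
      simp only
      rw [h3, map_zero]
    have h5 : r s ≠ 0 := by
      rw [Ne, map_eq_zero_iff r hrinj]
      intro h0
      apply s.2
      rw [h0]
      exact v.asIdeal.zero_mem
    exact (mul_eq_zero.1 h4).resolve_right h5
  -- the polynomial
  have hRgl : Rgl (f.map r) π (IsLocalRing.residue O) := by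
    obtain ⟨s, t, q, c, hc1, hc2, hc⟩ := hR
    have h1 : r c ∈ IsLocalRing.maximalIdeal O := (hcomap c).2 hc1
    rw [hmax, Ideal.mem_span_singleton] at h1
    obtain ⟨c', hc'⟩ := h1
    have h2 : IsLocalRing.residue O c' ≠ 0 := by
      intro h0
      obtain ⟨c'', hc''⟩ := (D.ker c').1 h0
      have h3 : r c ∈ (v.asIdeal ^ 2).map r := by
        rw [Ideal.map_pow, hmap, hmax, Ideal.span_singleton_pow, Ideal.mem_span_singleton]
        exact ⟨c'', by rw [hc', hc'']; ring⟩
      rw [hr, IsLocalization.mem_map_algebraMap_iff v.asIdeal.primeCompl] at h3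
      obtain ⟨⟨x, y⟩, hxy⟩ := h3
      have h4 : c * y = x := by
        apply hrinj
        rw [map_mul, hr]
        exact hxy
      have h5 : (y : 𝓞 F) * c ∈ v.asIdeal ^ 2 := by
        rw [mul_comm, h4]
        exact x.2
      rcases Ideal.IsPrime.mul_mem_pow v.asIdeal h5 with h6 | h6
      · exact y.2 h6
      · exact hc2 h6
    have h3 : C (π ^ 2) ∣ (f - (s ^ 2 + X * t ^ 2 + C c * (1 - t * q))).map r := by
      rw [C_dvd_iff_dvd_coeff]
      intro i
      rw [coeff_map, ← Ideal.mem_span_singleton, ← Ideal.span_singleton_pow, ← hmax, ← hmap,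
        ← Ideal.map_pow]
      exact Ideal.mem_map_of_mem _ (hc i)
    obtain ⟨h', hh'⟩ := h3
    refine ⟨s.map r, t.map r, q.map r, h', c', h2, ?_⟩
    simp only [Polynomial.map_sub, Polynomial.map_add, Polynomial.map_mul, Polynomial.map_pow,
      map_X, map_C, Polynomial.map_one, hc', C_mul, C_pow] at hh'
    linear_combination hh'
  have hmapj : (f.map r).map j = h := by
    rw [Polynomial.map_map, hj, hh]
  have hsq : Squarefree h := by
    rw [hh]
    exact hi.squarefree
  exact cls D hmapj hjinj (fun x => den r hrinj j hjinj hjr hπ x) (hm.map r)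
    (by rw [hm.natDegree_map, hd]) hRgl hsq hI hdiv

end Pool.Agent.K9h33.ORQ
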