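import Pool.Agent.K9h33.ORQ.Ser
import Pool.Agent.K9h33.ORQ.Dv

/-!
The ring `R[[t]][1/t]` and the expansions of the functions.
-/

set_option autoImplicit false

namespace Pool.Agent.K9h33.ORQ

open Polynomial

section om

variable (R : Type) [CommRing R]

/-- `R[[t]][1/t]` -/
abbrev Om : Type := Localization.Away (PowerSeries.X : PowerSeries R)

/-- the inclusion of `R[[t]]` -/
noncomputable abbrev tau : PowerSeries R →+* Om R := algebraMap (PowerSeries R) (Om R)

/-- the inverse of `t` -/
noncomputable def ti : Om R := IsLocalization.Away.invSelf (PowerSeries.X : PowerSeries R)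

lemma tt : tau R PowerSeries.X * ti R = 1 := IsLocalization.Away.mul_invSelf _

lemma om_rep (ω : Om R) : ∃ (n : ℕ) (G : PowerSeries R), tau R PowerSeries.X ^ n * ω = tau R G := by
  obtain ⟨n, G, h⟩ := IsLocalization.Away.surj (PowerSeries.X : PowerSeries R) ω
  exact ⟨n, G, by rw [← h, mul_comm]⟩

lemma t_unit : IsUnit (tau R PowerSeries.X) := IsUnit.of_mul_eq_one _ (tt R)

lemma ti_unit : IsUnit (ti R) := IsUnit.of_mul_eq_one _ (by rw [mul_comm]; exact tt R)

instance om_dom [IsDomain R] : IsDomain (Om R) :=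
  IsLocalization.isDomain_localization
    (powers_le_nonZeroDivisors_of_noZeroDivisors PowerSeries.X_ne_zero)

lemma tau_inj [IsDomain R] : Function.Injective (tau R) :=
  IsLocalization.injective _ (powers_le_nonZeroDivisors_of_noZeroDivisors PowerSeries.X_ne_zero)

/-- `t ↦ -t` -/
noncomputable def sg : Om R →+* Om R :=
  IsLocalization.Away.lift (PowerSeries.X : PowerSeries R)
    (g := (tau R).comp (PowerSeries.rescale (-1 : R))) (by
      rw [RingHom.comp_apply, rescale_X', map_neg]
      exact (t_unit R).neg)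

lemma sg_tau (G : PowerSeries R) : sg R (tau R G) = tau R (PowerSeries.rescale (-1 : R) G) := by
  unfold sg
  rw [IsLocalization.Away.lift_eq, RingHom.comp_apply]

lemma sg_ti : sg R (ti R) = - ti R := by
  apply (t_unit R).mul_left_cancel
  have h := congrArg (sg R) (tt R)
  rw [map_mul, sg_tau, rescale_X', map_neg, map_one] at h
  linear_combination -h + tt R

/-- leading terms -/
lemma om_lead [IsDomain R] {ω : Om R} (hω : ω ≠ 0) : ∃ (m n : ℕ) (l : PowerSeries R),
    PowerSeries.constantCoeff l ≠ 0 ∧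
      tau R PowerSeries.X ^ m * ω = tau R PowerSeries.X ^ n * tau R l := by
  obtain ⟨m, G, h⟩ := om_rep R ω
  have hG : G ≠ 0 := by
    rintro rfl
    rw [map_zero] at h
    rcases mul_eq_zero.1 h with h1 | h1
    · exact (t_unit R).ne_zero (eq_zero_of_pow_eq_zero h1)
    · exact hω h1
  obtain ⟨n, l, hl, hG'⟩ : ∃ (n : ℕ) (l : PowerSeries R), PowerSeries.constantCoeff l ≠ 0 ∧
      G = PowerSeries.X ^ n * l := by
    have hfin : PowerSeries.order G ≠ ⊤ := by
      rw [Ne, PowerSeries.order_eq_top]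
      exact hG
    have h1 : PowerSeries.X ^ (PowerSeries.order G).toNat ∣ G := by
      rw [PowerSeries.X_pow_dvd_iff]
      intro j hj
      apply PowerSeries.coeff_of_lt_order
      rwa [← ENat.natCast_toNat hfin, ENat.natCast_lt_natCast]
    obtain ⟨l, hl⟩ := h1
    refine ⟨_, l, ?_, hl⟩
    have h2 := PowerSeries.coeff_order hG
    rw [hl, PowerSeries.coeff_X_pow_mul'] at h2
    intro h0
    apply h2
    rw [← hl]
    rw [if_pos le_rfl, Nat.sub_self, PowerSeries.coeff_zero_eq_constantCoeff, h0]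
  refine ⟨m, n, l, hl, ?_⟩
  rw [h, hG', map_mul, map_pow]

/-- uniqueness of leading terms -/
lemma om_uniq [IsDomain R] {m n : ℕ} {a b : PowerSeries R} (ha : PowerSeries.constantCoeff a ≠ 0)
    (hb : PowerSeries.constantCoeff b ≠ 0)
    (h : tau R PowerSeries.X ^ m * tau R a = tau R PowerSeries.X ^ n * tau R b) :
    m = n ∧ a = b := by
  rw [← map_pow, ← map_pow, ← map_mul, ← map_mul] at h
  have h1 := tau_inj R h
  have hX : (PowerSeries.X : PowerSeries R) ≠ 0 := PowerSeries.X_ne_zero
  rcases lt_trichotomy m n with hmn | hmn | hmn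
  · exfalso
    obtain ⟨j, rfl⟩ := Nat.exists_eq_add_of_lt hmn
    rw [show m + j + 1 = m + (j + 1) by ring, pow_add, mul_assoc] at h1
    have h2 := mul_left_cancel₀ (pow_ne_zero m hX) h1
    apply ha
    rw [h2, map_mul, map_pow, PowerSeries.constantCoeff_X, zero_pow (Nat.succ_ne_zero j), zero_mul]
  · subst hmn
    exact ⟨rfl, mul_left_cancel₀ (pow_ne_zero m hX) h1⟩
  · exfalso
    obtain ⟨j, rfl⟩ := Nat.exists_eq_add_of_lt hmn
    rw [show n + j + 1 = n + (j + 1) by ring, pow_add, mul_assoc] at h1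
    have h2 := mul_left_cancel₀ (pow_ne_zero n hX) h1
    apply hb
    rw [← h2, map_mul, map_pow, PowerSeries.constantCoeff_X, zero_pow (Nat.succ_ne_zero j), zero_mul]

end om

section T

variable {R : Type} [CommRing R] {f : R[X]} {g : ℕ} {ξ : PowerSeries R}

/-- `x` as a function of `t` -/
noncomputable def xx (ξ : PowerSeries R) : Om R := ti R ^ 2 * tau R ξ

lemma T_rel (hd : f.natDegree = 2 * g + 1) (S : Ser f g ξ) :
    (ti R ^ (2 * g + 1) * tau R ξ ^ (g + 1)) ^ 2 =
      (eval₂RingHom ((tau R).comp PowerSeries.C) (xx ξ)) f := by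
  have ht := tt R
  rw [coe_eval₂RingHom, eval₂_eq_sum_range' _ (n := 2 * g + 2) (by omega)]
  have h1 : (ti R ^ (2 * g + 1) * tau R ξ ^ (g + 1)) ^ 2 =
      ti R ^ (4 * g + 2) * tau R (ξ ^ (2 * g + 2)) := by
    rw [map_pow]
    ring
  rw [h1, S.rel, map_sum, Finset.mul_sum]
  refine Finset.sum_congr rfl fun j hj => ?_
  rw [Finset.mem_range] at hj
  rw [map_mul, map_mul, map_pow, map_pow, RingHom.comp_apply]
  unfold xx
  have h2 : ti R ^ (4 * g + 2) = ti R ^ (2 * (2 * g + 1 - j)) * ti R ^ (2 * j) := by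
    rw [← pow_add]
    congr 1
    omega
  have h3 : ti R ^ (2 * (2 * g + 1 - j)) * tau R PowerSeries.X ^ (2 * (2 * g + 1 - j)) = 1 := by
    rw [← mul_pow, mul_comm, ht, one_pow]
  rw [h2]
  linear_combination (ti R ^ (2 * j) * tau R (PowerSeries.C (f.coeff j)) * tau R ξ ^ j) * h3

/-- the expansion of a function -/
noncomputable def T (hd : f.natDegree = 2 * g + 1) (S : Ser f g ξ) : CR f →+* Om R :=
  lft f (eval₂RingHom ((tau R).comp PowerSeries.C) (xx ξ))
    (ti R ^ (2 * g + 1) * tau R ξ ^ (g + 1)) (T_rel hd S)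

variable (hd : f.natDegree = 2 * g + 1) (S : Ser f g ξ)

lemma T_io (A : R[X]) : T hd S (io f A) = eval₂ ((tau R).comp PowerSeries.C) (xx ξ) A := by
  unfold T
  rw [lft_io, coe_eval₂RingHom]

lemma T_yy : T hd S (yy f) = ti R ^ (2 * g + 1) * tau R ξ ^ (g + 1) := by
  unfold T
  rw [lft_yy]

lemma sg_T [Nontrivial R] (z : CR f) : sg R (T hd S z) = T hd S (cj f z) := by
  have hx : sg R (xx ξ) = xx ξ := by
    unfold xx
    rw [map_mul, map_pow, sg_ti, sg_tau, S.even, neg_sq]
  have h1 : ∀ A : R[X], sg R (T hd S (io f A)) = T hd S (io f A) := by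
    intro A
    rw [T_io]
    have h2 : (sg R).comp (eval₂RingHom ((tau R).comp PowerSeries.C) (xx ξ)) =
        eval₂RingHom ((tau R).comp PowerSeries.C) (xx ξ) := by
      apply Polynomial.ringHom_ext
      · intro a
        rw [RingHom.comp_apply, coe_eval₂RingHom, eval₂_C, RingHom.comp_apply, sg_tau, rescale_C]
      · rw [RingHom.comp_apply, coe_eval₂RingHom, eval₂_X, hx]
    exact congrArg (fun ψ : R[X] →+* Om R => ψ A) h2
  have h2 : sg R (T hd S (yy f)) = - T hd S (yy f) := by
    rw [T_yy, map_mul, map_pow, map_pow, sg_ti, sg_tau, S.even, Odd.neg_pow ⟨g, rfl⟩]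
    ring
  rw [rep f z, map_add, map_mul, map_add, map_mul, h1, h1, h2, map_add, map_mul, map_add, map_mul,
    cj_io, cj_io, cj_yy, map_neg]

/-- homogenization -/
lemma T_hom {P : R[X]} {d : ℕ} (hP : P.natDegree ≤ d) : ∃ G : PowerSeries R,
    tau R PowerSeries.X ^ (2 * d) * T hd S (io f P) = tau R G ∧
      PowerSeries.constantCoeff G = P.coeff d := by
  refine ⟨∑ j ∈ Finset.range (d + 1), PowerSeries.C (P.coeff j) *
    PowerSeries.X ^ (2 * (d - j)) * ξ ^ j, ?_, ?_⟩
  · rw [T_io, eval₂_eq_sum_range' _ (n := d + 1) (by omega), map_sum, Finset.mul_sum]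
    refine Finset.sum_congr rfl fun j hj => ?_
    rw [Finset.mem_range] at hj
    rw [map_mul, map_mul, map_pow, map_pow, RingHom.comp_apply]
    unfold xx
    have h2 : tau R PowerSeries.X ^ (2 * d) =
        tau R PowerSeries.X ^ (2 * (d - j)) * tau R PowerSeries.X ^ (2 * j) := by
      rw [← pow_add]
      congr 1
      omega
    have h3 : tau R PowerSeries.X ^ (2 * j) * ti R ^ (2 * j) = 1 := by
      rw [← mul_pow, tt, one_pow]
    rw [h2]
    linear_combination (tau R PowerSeries.X ^ (2 * (d - j)) *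
      tau R (PowerSeries.C (P.coeff j)) * tau R ξ ^ j) * h3
  · rw [map_sum, Finset.sum_eq_single d]
    · rw [Nat.sub_self, mul_zero, pow_zero, mul_one, map_mul, map_pow, S.one, one_pow, mul_one,
        PowerSeries.constantCoeff_C]
    · intro j hj hjd
      rw [Finset.mem_range] at hj
      rw [map_mul, map_mul, map_pow, PowerSeries.constantCoeff_X, zero_pow (by omega), mul_zero,
        zero_mul]
    · intro h
      exact absurd (Finset.mem_range.2 (Nat.lt_succ_self d)) h

lemma T_nm [Nontrivial R] (z : CR f) : T hd S z * sg R (T hd S z) = T hd S (io f (nm f z)) := by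
  rw [sg_T, ← map_mul, mul_cj]

include hd in
/-- a norm of small degree -/
lemma deg_nm [IsDomain R] (hg : 1 ≤ g) {z : CR f} (h : (nm f z).natDegree ≤ 1) :
    c1 f z = 0 ∧ (c0 f z).natDegree = 0 := by
  have hf0 : f ≠ 0 := by
    rintro rfl
    rw [natDegree_zero] at hd
    omega
  unfold nm at h
  have h1 : c1 f z = 0 := by
    by_contra hc
    have e1 : (f * c1 f z ^ 2).natDegree = 2 * g + 1 + 2 * (c1 f z).natDegree := by
      rw [natDegree_mul hf0 (pow_ne_zero 2 hc), hd, natDegree_pow]
    have e2 : (c0 f z ^ 2).natDegree = 2 * (c0 f z).natDegree := natDegree_pow _ _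
    rcases lt_trichotomy (c0 f z ^ 2).natDegree (f * c1 f z ^ 2).natDegree with h2 | h2 | h2
    · rw [natDegree_sub_eq_right_of_natDegree_lt h2] at h
      omega
    · omega
    · rw [natDegree_sub_eq_left_of_natDegree_lt h2] at h
      omega
  refine ⟨h1, ?_⟩
  rw [h1, zero_pow two_ne_zero, mul_zero, sub_zero, natDegree_pow] at h
  omega

/-- a function without constant term has a pole of order at least two -/
lemma pole [IsDomain R] (hdom : IsDomain (CR f)) (hg : 1 ≤ g) {z : CR f} (hz : z ≠ 0)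
    (h0 : (c0 f z).coeff 0 = 0) {G : PowerSeries R}
    (h : tau R PowerSeries.X * T hd S z = tau R G) : False := by
  have hn : nm f z ≠ 0 := by
    intro h1
    have h2 := mul_cj f z
    rw [h1, map_zero] at h2
    rcases mul_eq_zero.1 h2 with h3 | h3
    · exact hz h3
    · apply hz
      rw [← cj_cj f z, h3, map_zero]
  have h1 : tau R PowerSeries.X ^ 2 * T hd S (io f (nm f z)) =
      tau R (-(G * PowerSeries.rescale (-1 : R) G)) := by
    have h2 := congrArg (sg R) h
    rw [map_mul, sg_tau, sg_tau, rescale_X', map_neg] at h2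
    rw [← T_nm, map_neg, map_mul]
    linear_combination (tau R PowerSeries.X * T hd S z) * (-h2) +
      (-(tau R) ((PowerSeries.rescale (-1 : R)) G)) * h
  have hdeg : (nm f z).natDegree ≤ 1 := by
    by_contra hc
    obtain ⟨d, hd'⟩ : ∃ d, (nm f z).natDegree = d + 2 := ⟨(nm f z).natDegree - 2, by omega⟩
    obtain ⟨G', hG', hc'⟩ := T_hom hd S (P := nm f z) (le_of_eq hd')
    have h2 : tau R G' = tau R (PowerSeries.X ^ (2 * d + 2) *
        -(G * PowerSeries.rescale (-1 : R) G)) := by
      rw [map_mul (tau R) (PowerSeries.X ^ (2 * d + 2)), ← h1, ← hG', map_pow]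
      ring
    have h3 := tau_inj R h2
    rw [h3, map_mul, map_pow, PowerSeries.constantCoeff_X, zero_pow (by omega), zero_mul] at hc'
    rw [← hd'] at hc'
    exact hn (leadingCoeff_eq_zero.1 hc'.symm)
  obtain ⟨h2, h3⟩ := deg_nm hd hg hdeg
  apply hz
  rw [rep f z, h2, eq_C_of_natDegree_eq_zero h3, h0, C_0, map_zero]
  ring

end T

end Pool.Agent.K9h33.ORQ
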