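import Pool.Agent.K9h33.ORQ.Om
import Pool.Agent.K9h33.ORQ.Aff

/-!
Reduction of the expansions; the generator of a lattice at infinity.
-/

set_option autoImplicit false

namespace Pool.Agent.K9h33.ORQ

open Polynomial

variable {O k : Type} [CommRing O] [IsDomain O] [Field k] {π : O} {φ : O →+* k}

/-- the reduction of `O[[t]][1/t]` -/
noncomputable def rdc (φ : O →+* k) : Om O →+* Om k :=
  IsLocalization.Away.lift (PowerSeries.X : PowerSeries O)
    (g := (tau k).comp (PowerSeries.map φ)) (by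
      rw [RingHom.comp_apply, PowerSeries.map_X]
      exact t_unit k)

lemma rdc_tau (G : PowerSeries O) : rdc φ (tau O G) = tau k (PowerSeries.map φ G) := by
  unfold rdc
  rw [IsLocalization.Away.lift_eq, RingHom.comp_apply]

lemma rdc_ti : rdc φ (ti O) = ti k := by
  apply (t_unit k).mul_left_cancel
  have h := congrArg (rdc φ) (tt O)
  rw [map_mul, rdc_tau, PowerSeries.map_X, map_one] at h
  rw [h, tt]

lemma ps_zero_iff (D : DV π φ) (G : PowerSeries O) :
    PowerSeries.map φ G = 0 ↔ PowerSeries.C π ∣ G := by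
  constructor
  · intro h
    have h1 : ∀ n, ∃ c, PowerSeries.coeff n G = π * c := by
      intro n
      have h2 := congrArg (PowerSeries.coeff n) h
      rw [PowerSeries.coeff_map, map_zero] at h2
      exact (D.ker _).1 h2
    choose c hc using h1
    refine ⟨PowerSeries.mk c, ?_⟩
    ext n
    rw [PowerSeries.coeff_C_mul, PowerSeries.coeff_mk, hc]
  · rintro ⟨G', rfl⟩
    have hπ : φ π = 0 := (D.ker π).2 dvd_rfl
    rw [map_mul, PowerSeries.map_C, hπ, map_zero, zero_mul]

/-- `π` in `O[[t]][1/t]` -/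
noncomputable abbrev pp (π : O) : Om O := tau O (PowerSeries.C π)

lemma rdc_zero_iff (D : DV π φ) (ω : Om O) : rdc φ ω = 0 ↔ pp π ∣ ω := by
  constructor
  · intro h
    obtain ⟨n, G, hG⟩ := om_rep O ω
    have h1 : tau k (PowerSeries.map φ G) = 0 := by
      rw [← rdc_tau, ← hG, map_mul, h, mul_zero]
    have h2 : PowerSeries.map φ G = 0 := tau_inj k (by rw [h1, map_zero])
    obtain ⟨G', hG'⟩ := (ps_zero_iff D G).1 h2
    refine ⟨ti O ^ n * tau O G', ?_⟩
    apply ((t_unit O).pow n).mul_left_cancel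
    rw [hG, hG', map_mul]
    have h3 : tau O PowerSeries.X ^ n * ti O ^ n = 1 := by rw [← mul_pow, tt, one_pow]
    linear_combination (-(pp π * tau O G')) * h3
  · rintro ⟨ω', rfl⟩
    have hπ : φ π = 0 := (D.ker π).2 dvd_rfl
    rw [map_mul, rdc_tau, PowerSeries.map_C, hπ, map_zero, map_zero, zero_mul]

lemma pp_ne (D : DV π φ) : pp π ≠ 0 := by
  intro h
  have h1 : (PowerSeries.C π : PowerSeries O) = 0 := tau_inj O (by rw [map_zero]; exact h)
  apply D.ne
  have h2 := congrArg (PowerSeries.coeff 0) h1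
  simpa using h2

lemma pp_prime (D : DV π φ) : Prime (pp π) := by
  refine ⟨pp_ne D, ?_, ?_⟩
  · intro h
    have h1 := h.map (rdc φ)
    rw [(rdc_zero_iff D _).2 dvd_rfl] at h1
    exact not_isUnit_zero h1
  · intro a b h
    rw [← rdc_zero_iff D, map_mul] at h
    rcases mul_eq_zero.1 h with h1 | h1
    · exact Or.inl ((rdc_zero_iff D a).1 h1)
    · exact Or.inr ((rdc_zero_iff D b).1 h1)

/-- Gauss' lemma -/
lemma gauss (D : DV π φ) {a b c : Om O} (ha : rdc φ a ≠ 0) {n : ℕ} (h : pp π ^ n * c = a * b) :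
    ∃ b', b = pp π ^ n * b' ∧ c = a * b' := by
  have h1 : ¬ pp π ∣ a := fun hd => ha ((rdc_zero_iff D a).2 hd)
  obtain ⟨b', hb'⟩ := (pp_prime D).pow_dvd_of_dvd_mul_left n h1 ⟨c, h.symm⟩
  refine ⟨b', hb', ?_⟩
  apply mul_left_cancel₀ (pow_ne_zero n (pp_ne D))
  rw [h, hb']
  ring

variable {f : O[X]} {fb : k[X]} {g : ℕ} {ξ : PowerSeries O}

lemma Ser.red (e : f.map φ = fb) (S : Ser f g ξ) : Ser fb g (PowerSeries.map φ ξ) := by
  refine ⟨?_, ?_, ?_⟩
  · rw [← map_pow, S.rel, map_sum]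
    refine Finset.sum_congr rfl fun j _ => ?_
    rw [map_mul, map_mul, map_pow, map_pow, PowerSeries.map_C, PowerSeries.map_X, ← e, coeff_map]
  · rw [← PowerSeries.coeff_zero_eq_constantCoeff_apply, PowerSeries.coeff_map,
      PowerSeries.coeff_zero_eq_constantCoeff_apply, S.one, map_one]
  · ext n
    rw [PowerSeries.coeff_rescale, PowerSeries.coeff_map]
    conv_rhs => rw [← S.even, PowerSeries.coeff_rescale, map_mul, map_pow, map_neg, map_one]

lemma rdc_T (e : f.map φ = fb) (hd : f.natDegree = 2 * g + 1) (S : Ser f g ξ)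
    (hdb : fb.natDegree = 2 * g + 1) (Sb : Ser fb g (PowerSeries.map φ ξ)) (z : CR f) :
    rdc φ (T hd S z) = T hdb Sb (mp φ e z) := by
  have hx : rdc φ (xx ξ) = xx (PowerSeries.map φ ξ) := by
    unfold xx
    rw [map_mul, map_pow, rdc_ti, rdc_tau]
  have h1 : ∀ A : O[X], rdc φ (T hd S (io f A)) = T hdb Sb (io fb (A.map φ)) := by
    intro A
    rw [T_io, T_io, eval₂_map]
    have h2 : (rdc φ).comp (eval₂RingHom ((tau O).comp PowerSeries.C) (xx ξ)) =
        eval₂RingHom (((tau k).comp PowerSeries.C).comp φ) (xx (PowerSeries.map φ ξ)) := by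
      apply Polynomial.ringHom_ext
      · intro a
        rw [RingHom.comp_apply, coe_eval₂RingHom, eval₂_C, RingHom.comp_apply, rdc_tau,
          PowerSeries.map_C, coe_eval₂RingHom, eval₂_C]
        rfl
      · rw [RingHom.comp_apply, coe_eval₂RingHom, eval₂_X, hx, coe_eval₂RingHom, eval₂_X]
    exact congrArg (fun ψ : O[X] →+* Om k => ψ A) h2
  have h2 : rdc φ (T hd S (yy f)) = T hdb Sb (yy fb) := by
    rw [T_yy, T_yy, map_mul, map_pow, map_pow, rdc_ti, rdc_tau]
  conv_lhs => rw [rep f z]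
  rw [map_add, map_mul, map_add, map_mul, h1, h1, h2]
  rw [rep fb (mp φ e z), map_add, map_mul, (co_mp φ e z).1, (co_mp φ e z).2]

/-- expansions of nonzero functions are nonzero -/
lemma T_ne {R : Type} [CommRing R] [IsDomain R] {f : R[X]} {ξ : PowerSeries R}
    (hd : f.natDegree = 2 * g + 1) (S : Ser f g ξ) (hdom : IsDomain (CR f)) {z : CR f}
    (hz : z ≠ 0) : T hd S z ≠ 0 := by
  intro h
  have hn : nm f z ≠ 0 := by
    intro h1
    have h2 := mul_cj f z
    rw [h1, map_zero] at h2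
    rcases mul_eq_zero.1 h2 with h3 | h3
    · exact hz h3
    · apply hz
      rw [← cj_cj f z, h3, map_zero]
  obtain ⟨G', hG', hc'⟩ := T_hom hd S (P := nm f z) le_rfl
  rw [← T_nm, h, zero_mul, mul_zero] at hG'
  have h2 : G' = 0 := tau_inj R (by rw [← hG', map_zero])
  rw [h2, map_zero] at hc'
  exact hn (leadingCoeff_eq_zero.1 hc'.symm)

/-- the generator of a lattice at infinity -/
theorem exists_Y [IsNoetherianRing O] (D : DV π φ) (e : f.map φ = fb)
    (hd : f.natDegree = 2 * g + 1) (S : Ser f g ξ) (hdb : fb.natDegree = 2 * g + 1)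
    {M : Ideal (CR f)} {u : O[X]} (L : Lat π φ M u) :
    ∃ Y : PowerSeries O, PowerSeries.map φ Y ≠ 0 ∧ (∀ z ∈ M, tau O Y ∣ T hd S z) ∧
      ∃ n : ℕ, pp π ^ n * tau O Y ∈ M.map (T hd S) := by
  have Sb := S.red (φ := φ) e
  have hdomb : IsDomain (CR fb) := isDomain_CR (by rw [hdb]; exact ⟨g, rfl⟩)
  obtain ⟨J, hJ⟩ : ∃ J, J = M.map (T hd S) := ⟨_, rfl⟩
  let 𝔞 : Ideal (PowerSeries O) :=
    { carrier := {G | ∃ n : ℕ, pp π ^ n * tau O G ∈ J}
      add_mem' := by
        rintro a b ⟨n, hn⟩ ⟨m, hm⟩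
        refine ⟨n + m, ?_⟩
        have h1 : pp π ^ (n + m) * tau O (a + b) =
            pp π ^ m * (pp π ^ n * tau O a) + pp π ^ n * (pp π ^ m * tau O b) := by
          rw [map_add, pow_add]
          ring
        rw [h1]
        exact Ideal.add_mem _ (Ideal.mul_mem_left _ _ hn) (Ideal.mul_mem_left _ _ hm)
      zero_mem' := ⟨0, by rw [map_zero, mul_zero]; exact Ideal.zero_mem _⟩
      smul_mem' := by
        rintro c a ⟨n, hn⟩
        refine ⟨n, ?_⟩
        have h1 : pp π ^ n * tau O (c • a) = tau O c * (pp π ^ n * tau O a) := by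
          rw [smul_eq_mul, map_mul]
          ring
        rw [h1]
        exact Ideal.mul_mem_left _ _ hn }
  have hmem : ∀ G, G ∈ 𝔞 ↔ ∃ n : ℕ, pp π ^ n * tau O G ∈ J := fun G => Iff.rfl
  have hsat : ∀ G, PowerSeries.C π * G ∈ 𝔞 → G ∈ 𝔞 := by
    intro G hG
    rw [hmem] at hG ⊢
    obtain ⟨n, hn⟩ := hG
    refine ⟨n + 1, ?_⟩
    have h1 : pp π ^ (n + 1) * tau O G = pp π ^ n * tau O (PowerSeries.C π * G) := by
      rw [map_mul, pow_succ]
      ring
    rw [h1]
    exact hn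
  have hT : ∀ z ∈ M, ∃ (n : ℕ) (G : PowerSeries O), G ∈ 𝔞 ∧
      tau O PowerSeries.X ^ n * T hd S z = tau O G := by
    intro z hz
    obtain ⟨n, G, hG⟩ := om_rep O (T hd S z)
    refine ⟨n, G, ?_, hG⟩
    rw [hmem]
    refine ⟨0, ?_⟩
    rw [pow_zero, one_mul, ← hG, hJ]
    exact Ideal.mul_mem_left _ _ (Ideal.mem_map_of_mem _ hz)
  have hφs : Function.Surjective (PowerSeries.map φ) := PowerSeries.map_surjective φ D.surj
  obtain ⟨h, hh⟩ : ∃ h, 𝔞.map (PowerSeries.map φ) = Ideal.span {h} :=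
    (IsPrincipalIdealRing.principal (𝔞.map (PowerSeries.map φ))).principal
  obtain ⟨Y, hY, hYh⟩ := (Ideal.mem_map_iff_of_surjective _ hφs).1
    (by rw [hh]; exact Ideal.mem_span_singleton_self h : h ∈ 𝔞.map (PowerSeries.map φ))
  have hh0 : h ≠ 0 := by
    rintro rfl
    obtain ⟨n, G, hG, hGu⟩ := hT _ L.mem
    have h1 : PowerSeries.map φ G ∈ 𝔞.map (PowerSeries.map φ) := Ideal.mem_map_of_mem _ hG
    rw [hh, Ideal.mem_span_singleton, zero_dvd_iff] at h1
    have h2 := congrArg (rdc φ) hGu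
    rw [rdc_tau, h1, map_zero, map_mul, map_pow, rdc_tau, PowerSeries.map_X,
      rdc_T e hd S hdb Sb, mp_io] at h2
    rcases mul_eq_zero.1 h2 with h3 | h3
    · exact (t_unit k).ne_zero (eq_zero_of_pow_eq_zero h3)
    · refine T_ne hdb Sb hdomb ?_ h3
      intro h4
      have h5 := (co_io (h := fb) (u.map φ)).1
      rw [h4] at h5
      have h6 := (co_io (h := fb) (0 : k[X])).1
      rw [map_zero] at h6
      rw [h6] at h5
      exact L.prim h5.symm
  have hle : 𝔞 ≤ Ideal.span {Y} ⊔ Ideal.span {PowerSeries.C π} • 𝔞 := by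
    intro G hG
    have h1 : PowerSeries.map φ G ∈ 𝔞.map (PowerSeries.map φ) := Ideal.mem_map_of_mem _ hG
    rw [hh, Ideal.mem_span_singleton] at h1
    obtain ⟨cb, hcb⟩ := h1
    obtain ⟨c, rfl⟩ := hφs cb
    obtain ⟨G', hG'⟩ := (ps_zero_iff D (G - Y * c)).1 (by
      rw [map_sub, map_mul, hYh, hcb, sub_self])
    have h2 : G' ∈ 𝔞 := hsat G' (by
      rw [← hG']
      exact Ideal.sub_mem _ hG (Ideal.mul_mem_right _ _ hY))
    have h3 : G = Y * c + PowerSeries.C π * G' := by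
      rw [← hG']
      ring
    rw [h3]
    refine Submodule.add_mem_sup (Ideal.mul_mem_right _ _ (Ideal.mem_span_singleton_self _)) ?_
    exact Submodule.smul_mem_smul (Ideal.mem_span_singleton_self _) h2
  have hjac : Ideal.span {PowerSeries.C π} ≤ Ideal.jacobson (⊥ : Ideal (PowerSeries O)) := by
    rw [Ideal.span_singleton_le_iff_mem, Ideal.mem_jacobson_bot]
    intro y
    rw [PowerSeries.isUnit_iff_constantCoeff]
    apply D.unit
    have hπ : φ π = 0 := (D.ker π).2 dvd_rfl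
    rw [map_add, map_mul, PowerSeries.constantCoeff_C, map_one, map_add, map_mul, hπ, zero_mul,
      zero_add, map_one]
    exact one_ne_zero
  have hfin : 𝔞 ≤ Ideal.span {Y} :=
    Submodule.le_of_le_smul_of_le_jacobson_bot (IsNoetherian.noetherian 𝔞) hjac hle
  refine ⟨Y, by rw [hYh]; exact hh0, ?_, ?_⟩
  · intro z hz
    obtain ⟨n, G, hG, hGz⟩ := hT z hz
    obtain ⟨c, hc⟩ := Ideal.mem_span_singleton.1 (hfin hG)
    refine ⟨ti O ^ n * tau O c, ?_⟩
    apply ((t_unit O).pow n).mul_left_cancel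
    rw [hGz, hc, map_mul]
    have h3 : tau O PowerSeries.X ^ n * ti O ^ n = 1 := by rw [← mul_pow, tt, one_pow]
    linear_combination (-(tau O Y * tau O c)) * h3
  · rw [← hJ]
    exact (hmem Y).1 hY

end Pool.Agent.K9h33.ORQ
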