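import Pool.Agent.K9h33.ORQ.Bas

/-!
Expansions at infinity.
-/

set_option autoImplicit false

namespace Pool.Agent.K9h33.ORQ

open Polynomial

section series

variable {R : Type} [CommRing R]

/-- the series `ξ = t² x` -/
structure Ser (f : R[X]) (g : ℕ) (ξ : PowerSeries R) : Prop where
  rel : ξ ^ (2 * g + 2) = ∑ j ∈ Finset.range (2 * g + 2),
    PowerSeries.C (f.coeff j) * PowerSeries.X ^ (2 * (2 * g + 1 - j)) * ξ ^ j
  one : PowerSeries.constantCoeff ξ = 1
  even : PowerSeries.rescale (-1 : R) ξ = ξ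

lemma rescale_C (a : R) : PowerSeries.rescale (-1 : R) (PowerSeries.C a) = PowerSeries.C a := by
  ext n
  rw [PowerSeries.coeff_rescale, PowerSeries.coeff_C]
  split_ifs with hn
  · rw [hn, pow_zero, one_mul]
  · rw [mul_zero]

lemma rescale_X' : PowerSeries.rescale (-1 : R) PowerSeries.X = -PowerSeries.X := by
  rw [PowerSeries.rescale_X, map_neg, map_one, neg_one_mul]

/-- existence of the expansion -/
theorem exists_ser [IsDomain R] {f : R[X]} {g : ℕ} (hm : f.Monic) (hd : f.natDegree = 2 * g + 1) :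
    ∃ ξ : PowerSeries R, Ser f g ξ := by
  obtain ⟨S, hS⟩ : ∃ S : (PowerSeries R)[X], S = ∑ j ∈ Finset.range (2 * g + 2),
    C (PowerSeries.C (f.coeff j) * PowerSeries.X ^ (2 * (2 * g + 1 - j))) * X ^ j := ⟨_, rfl⟩
  obtain ⟨Q, hQ⟩ : ∃ Q : (PowerSeries R)[X], Q = X ^ (2 * g + 2) - S := ⟨_, rfl⟩
  have hSd : S.degree < ((2 * g + 2 : ℕ) : WithBot ℕ) := by
    rw [hS]
    refine lt_of_le_of_lt (degree_sum_le _ _) ?_
    rw [Finset.sup_lt_iff (WithBot.bot_lt_coe _)]
    intro i hi
    refine lt_of_le_of_lt (degree_C_mul_X_pow_le _ _) ?_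
    exact_mod_cast Finset.mem_range.mp hi
  have hQm : Q.Monic := by
    rw [hQ]
    exact monic_X_pow_sub hSd
  have hev : ∀ a : PowerSeries R, Q.eval a = a ^ (2 * g + 2) - ∑ j ∈ Finset.range (2 * g + 2),
      PowerSeries.C (f.coeff j) * PowerSeries.X ^ (2 * (2 * g + 1 - j)) * a ^ j := by
    intro a
    rw [hQ, eval_sub, eval_pow, eval_X, hS, eval_finsetSum]
    congr 1
    refine Finset.sum_congr rfl fun j _ => ?_
    rw [eval_mul, eval_C, eval_pow, eval_X]
  have hcc : ∀ j ∈ Finset.range (2 * g + 2), PowerSeries.constantCoeff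
      (PowerSeries.C (f.coeff j) * PowerSeries.X ^ (2 * (2 * g + 1 - j)) : PowerSeries R) =
      if j = 2 * g + 1 then 1 else 0 := by
    intro j hj
    rw [Finset.mem_range] at hj
    split_ifs with h
    · rw [h, Nat.sub_self, mul_zero, pow_zero, mul_one, ← hd]
      rw [show f.coeff f.natDegree = 1 from hm]
      simp
    · rw [map_mul, map_pow, PowerSeries.constantCoeff_X, zero_pow (by omega), mul_zero]
  have hcQ : ∀ a : PowerSeries R, PowerSeries.constantCoeff a = 1 →
      PowerSeries.constantCoeff (Q.eval a) = 0 := by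
    intro a ha
    rw [hev, map_sub, map_pow, ha, one_pow, map_sum]
    rw [Finset.sum_congr rfl (g := fun j => if j = 2 * g + 1 then (1 : R) else 0)]
    · rw [Finset.sum_ite_eq' (Finset.range (2 * g + 2)) (2 * g + 1) (fun _ => (1 : R)),
        if_pos (Finset.mem_range.2 (by omega)), sub_self]
    · intro j hj
      rw [map_mul, hcc j hj, map_pow, ha, one_pow, mul_one]
  have hcQ' : ∀ a : PowerSeries R, PowerSeries.constantCoeff a = 1 →
      PowerSeries.constantCoeff (Q.derivative.eval a) = 1 := by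
    intro a ha
    have h1 : Q.derivative.eval a = ((2 * g + 2 : ℕ) : PowerSeries R) * a ^ (2 * g + 1) -
        ∑ j ∈ Finset.range (2 * g + 2),
        PowerSeries.C (f.coeff j) * PowerSeries.X ^ (2 * (2 * g + 1 - j)) *
          ((j : PowerSeries R) * a ^ (j - 1)) := by
      rw [hQ, derivative_sub, eval_sub, derivative_X_pow, hS, derivative_sum, eval_finsetSum]
      congr 1
      · rw [eval_mul, eval_C, eval_pow, eval_X]
        rfl
      · refine Finset.sum_congr rfl fun j _ => ?_
        rw [derivative_C_mul, derivative_X_pow, eval_mul, eval_C, eval_mul, eval_C, eval_pow, eval_X]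
    rw [h1, map_sub, map_mul, map_pow, ha, one_pow, mul_one, map_natCast, map_sum]
    rw [Finset.sum_congr rfl (g := fun j => if j = 2 * g + 1 then ((2 * g + 1 : ℕ) : R) else 0)]
    · rw [Finset.sum_ite_eq' (Finset.range (2 * g + 2)) (2 * g + 1)
        (fun _ => ((2 * g + 1 : ℕ) : R)), if_pos (Finset.mem_range.2 (by omega))]
      push_cast
      ring
    · intro j hj
      rw [map_mul, hcc j hj, map_mul, map_natCast, map_pow, ha, one_pow, mul_one]
      split_ifs with h
      · rw [h, one_mul]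
      · rw [zero_mul]
  obtain ⟨ξ, hξ, hξ1⟩ := HenselianRing.is_henselian (I := Ideal.span {(PowerSeries.X : PowerSeries R)})
    Q hQm 1 (by
      rw [Ideal.mem_span_singleton, PowerSeries.X_dvd_iff]
      exact hcQ 1 (map_one _)) (by
      have h1 : Q.derivative.eval 1 - 1 ∈ Ideal.span {(PowerSeries.X : PowerSeries R)} := by
        rw [Ideal.mem_span_singleton, PowerSeries.X_dvd_iff, map_sub, hcQ' 1 (map_one _), map_one,
          sub_self]
      rw [(Ideal.Quotient.mk_eq_mk_iff_sub_mem _ _).2 h1, map_one]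
      exact isUnit_one)
  have hc : PowerSeries.constantCoeff ξ = 1 := by
    rw [Ideal.mem_span_singleton, PowerSeries.X_dvd_iff, map_sub, map_one, sub_eq_zero] at hξ1
    exact hξ1
  rw [IsRoot.def, hev, sub_eq_zero] at hξ
  refine ⟨ξ, hξ, hc, ?_⟩
  obtain ⟨η, hη⟩ : ∃ η, η = PowerSeries.rescale (-1 : R) ξ := ⟨_, rfl⟩
  have hη1 : η ^ (2 * g + 2) = ∑ j ∈ Finset.range (2 * g + 2),
      PowerSeries.C (f.coeff j) * PowerSeries.X ^ (2 * (2 * g + 1 - j)) * η ^ j := by
    rw [hη, ← map_pow, hξ, map_sum]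
    refine Finset.sum_congr rfl fun j _ => ?_
    rw [map_mul, map_mul, map_pow, map_pow, rescale_C, rescale_X', pow_mul, neg_sq, ← pow_mul]
  have hη2 : PowerSeries.constantCoeff η = 1 := by
    rw [hη, ← PowerSeries.coeff_zero_eq_constantCoeff_apply, PowerSeries.coeff_rescale, pow_zero,
      one_mul, PowerSeries.coeff_zero_eq_constantCoeff_apply, hc]
  rw [← hη]
  -- uniqueness
  have h1 : Q.eval ξ = 0 := by rw [hev, hξ, sub_self]
  have h2 : Q.eval η = 0 := by rw [hev, hη1, sub_self]
  obtain ⟨⟨k, hk⟩⟩ : Nonempty {k : PowerSeries R // Q.eval (ξ + (η - ξ)) =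
      Q.eval ξ + Q.derivative.eval ξ * (η - ξ) + k * (η - ξ) ^ 2} :=
    ⟨Polynomial.binomExpansion Q ξ (η - ξ)⟩
  rw [add_sub_cancel, h1, h2, zero_add] at hk
  have h3 : (η - ξ) * (Q.derivative.eval ξ + k * (η - ξ)) = 0 := by linear_combination -hk
  rcases mul_eq_zero.1 h3 with h4 | h4
  · exact sub_eq_zero.1 h4
  · exfalso
    have h5 := congrArg PowerSeries.constantCoeff h4
    rw [map_add, map_mul, map_sub, hcQ' ξ hc, hη2, hc, sub_self, mul_zero, add_zero, map_zero] at h5
    exact one_ne_zero h5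

end series

end Pool.Agent.K9h33.ORQ
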